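import Pool.Agent.Helper72.RepCube.Geom

/-!
The boundary of a polyomino, given as a closed lattice path, is a simple closed curve.
-/

namespace Pool.Agent.Helper72.RepCube

/-- The grid element with doubled centre `X` lies on the boundary of the figure `S`. -/
def BdElt (S : Finset (ℤ × ℤ)) (X : ℤ × ℤ) : Prop :=
  (∃ c ∈ S, Near c X) ∧ ∃ c, c ∉ S ∧ Near c X

/-- Two lattice points at distance one. -/
def UnitStep (p q : ℤ × ℤ) : Prop :=
  (q.1 = p.1 ∧ (q.2 = p.2 + 1 ∨ q.2 = p.2 - 1)) ∨ (q.2 = p.2 ∧ (q.1 = p.1 + 1 ∨ q.1 = p.1 - 1))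

/-- The piecewise linear curve through the lattice points `b 0, b 1, …`. -/
noncomputable def plc (b : ℕ → ℤ × ℤ) (t : ℝ) : Plane :=
  !₂[((b ⌊t⌋₊).1 : ℝ) + (t - ⌊t⌋₊) * (((b (⌊t⌋₊ + 1)).1 - (b ⌊t⌋₊).1 : ℤ) : ℝ),
     ((b ⌊t⌋₊).2 : ℝ) + (t - ⌊t⌋₊) * (((b (⌊t⌋₊ + 1)).2 - (b ⌊t⌋₊).2 : ℤ) : ℝ)]

theorem plc_seg (b : ℕ → ℤ × ℤ) (i : ℕ) (t : ℝ) (h1 : (i : ℝ) ≤ t) (h2 : t ≤ i + 1) :
    plc b t = !₂[((b i).1 : ℝ) + (t - i) * (((b (i + 1)).1 - (b i).1 : ℤ) : ℝ),
     ((b i).2 : ℝ) + (t - i) * (((b (i + 1)).2 - (b i).2 : ℤ) : ℝ)] := by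
  rcases lt_or_eq_of_le h2 with h | h
  · have : ⌊t⌋₊ = i := by
      rw [Nat.floor_eq_iff (le_trans (Nat.cast_nonneg i) h1)]
      exact ⟨h1, h⟩
    unfold plc
    rw [this]
  · have : ⌊t⌋₊ = i + 1 := by
      rw [Nat.floor_eq_iff (le_trans (Nat.cast_nonneg i) h1)]
      push_cast
      constructor <;> linarith
    unfold plc
    rw [this, h]
    push_cast
    ext l
    fin_cases l
    · simp
    · simp

theorem plc_cont_seg (b : ℕ → ℤ × ℤ) (i : ℕ) : ContinuousOn (plc b) (Set.Icc (i : ℝ) (i + 1)) := by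
  have h : Continuous (fun t : ℝ =>
      (!₂[((b i).1 : ℝ) + (t - i) * (((b (i + 1)).1 - (b i).1 : ℤ) : ℝ),
     ((b i).2 : ℝ) + (t - i) * (((b (i + 1)).2 - (b i).2 : ℤ) : ℝ)] : Plane)) := by
    refine (PiLp.continuous_toLp 2 (fun _ : Fin 2 => ℝ)).comp (continuous_pi ?_)
    intro l
    fin_cases l
    · simp only [Fin.zero_eta, Fin.isValue, Matrix.cons_val_zero]
      fun_prop
    · simp only [Fin.mk_one, Fin.isValue, Matrix.cons_val_one, Matrix.cons_val_fin_one]
      fun_prop
  exact h.continuousOn.congr (fun t ht => plc_seg b i t ht.1 ht.2)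

theorem plc_cont (b : ℕ → ℤ × ℤ) (n : ℕ) : ContinuousOn (plc b) (Set.Icc 0 (n : ℝ)) := by
  induction n with
  | zero =>
    have : Set.Icc (0 : ℝ) ((0 : ℕ) : ℝ) = {0} := by simp
    rw [this]
    exact continuousOn_singleton _ _
  | succ n ih =>
    have : Set.Icc (0 : ℝ) ((n + 1 : ℕ) : ℝ) = Set.Icc 0 (n : ℝ) ∪ Set.Icc (n : ℝ) (n + 1) := by
      rw [Set.Icc_union_Icc_eq_Icc (Nat.cast_nonneg n) (by linarith)]
      push_cast
      rfl
    rw [this]
    exact ih.union_of_isClosed (plc_cont_seg b n) isClosed_Icc isClosed_Icc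

theorem K_plc (b : ℕ → ℤ × ℤ) (i : ℕ) (t : ℝ) (h1 : (i : ℝ) ≤ t) (h2 : t < i + 1)
    (hs : UnitStep (b i) (b (i + 1))) :
    (t = i ∧ K (plc b t) = b i + b i) ∨ ((i : ℝ) < t ∧ K (plc b t) = b i + b (i + 1)) := by
  rw [plc_seg b i t h1 h2.le]
  have hc1 : (b (i + 1)).1 - (b i).1 = -1 ∨ (b (i + 1)).1 - (b i).1 = 0 ∨
      (b (i + 1)).1 - (b i).1 = 1 := by
    unfold UnitStep at hs; omega
  have hc2 : (b (i + 1)).2 - (b i).2 = -1 ∨ (b (i + 1)).2 - (b i).2 = 0 ∨
      (b (i + 1)).2 - (b i).2 = 1 := by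
    unfold UnitStep at hs; omega
  have kl : ∀ (m v : ℤ) (s : ℝ), (v = -1 ∨ v = 0 ∨ v = 1) →
      kap ((m : ℝ) + s * (v : ℝ)) = 2 * m + v * kap s := by
    intro m v s hv
    rcases hv with h | h | h
    · subst h
      have : (m : ℝ) + s * ((-1 : ℤ) : ℝ) = -s + m := by push_cast; ring
      rw [this, kap_add_int, kap_neg]; ring
    · subst h
      have : (m : ℝ) + s * ((0 : ℤ) : ℝ) = m := by push_cast; ring
      rw [this, kap_int]; ring
    · subst h
      have : (m : ℝ) + s * ((1 : ℤ) : ℝ) = s + m := by push_cast; ring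
      rw [this, kap_add_int]; ring
  have hK : K (!₂[((b i).1 : ℝ) + (t - i) * (((b (i + 1)).1 - (b i).1 : ℤ) : ℝ),
     ((b i).2 : ℝ) + (t - i) * (((b (i + 1)).2 - (b i).2 : ℤ) : ℝ)] : Plane) =
     (2 * (b i).1 + ((b (i + 1)).1 - (b i).1) * kap (t - i),
      2 * (b i).2 + ((b (i + 1)).2 - (b i).2) * kap (t - i)) := by
    unfold K
    have e0 : (!₂[((b i).1 : ℝ) + (t - i) * (((b (i + 1)).1 - (b i).1 : ℤ) : ℝ),
     ((b i).2 : ℝ) + (t - i) * (((b (i + 1)).2 - (b i).2 : ℤ) : ℝ)] : Plane) 0 =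
      ((b i).1 : ℝ) + (t - i) * (((b (i + 1)).1 - (b i).1 : ℤ) : ℝ) := rfl
    have e1 : (!₂[((b i).1 : ℝ) + (t - i) * (((b (i + 1)).1 - (b i).1 : ℤ) : ℝ),
     ((b i).2 : ℝ) + (t - i) * (((b (i + 1)).2 - (b i).2 : ℤ) : ℝ)] : Plane) 1 =
      ((b i).2 : ℝ) + (t - i) * (((b (i + 1)).2 - (b i).2 : ℤ) : ℝ) := rfl
    rw [e0, e1, kl _ _ _ hc1, kl _ _ _ hc2]
  rw [hK]
  rcases lt_or_eq_of_le h1 with h | h
  · right
    refine ⟨h, ?_⟩
    have hk : kap (t - i) = 1 := by
      have := (kap_odd (t - i) 0).2 (by push_cast; constructor <;> linarith)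
      simpa using this
    rw [hk]
    ext
    · simp only [Prod.fst_add]; ring
    · simp only [Prod.snd_add]; ring
  · left
    refine ⟨h.symm, ?_⟩
    have hk : kap (t - i) = 0 := by
      rw [← h, sub_self, kap_zero]
    rw [hk]
    ext
    · simp only [Prod.fst_add]; ring
    · simp only [Prod.snd_add]; ring

theorem K_even (p : Plane) (m : ℤ × ℤ) (h : K p = m + m) : p = !₂[(m.1 : ℝ), (m.2 : ℝ)] := by
  have h1 : kap (p 0) = 2 * m.1 := by
    have := congrArg Prod.fst h
    unfold K at this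
    simp only [Prod.fst_add] at this
    omega
  have h2 : kap (p 1) = 2 * m.2 := by
    have := congrArg Prod.snd h
    unfold K at this
    simp only [Prod.snd_add] at this
    omega
  have e1 := kap_even _ _ h1
  have e2 := kap_even _ _ h2
  ext l
  fin_cases l
  · simpa using e1
  · simpa using e2

theorem exists_boundary_curve (S : Finset (ℤ × ℤ)) (n : ℕ) (hn : 0 < n) (b : ℕ → ℤ × ℤ)
    (hper : b n = b 0) (hadj : ∀ i, i < n → UnitStep (b i) (b (i + 1)))
    (hinj : ∀ i, i < 2 * n → ∀ j, j < 2 * n →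
      b (i / 2) + b ((i + 1) / 2) = b (j / 2) + b ((j + 1) / 2) → i = j)
    (hbd : ∀ i, i < 2 * n → BdElt S (b (i / 2) + b ((i + 1) / 2)))
    (hall : ∀ X, BdElt S X → ∃ i, i < 2 * n ∧ b (i / 2) + b ((i + 1) / 2) = X) :
    ∃ γ : Circle → Plane, Continuous γ ∧ Function.Injective γ ∧
      Set.range γ = frontier (region S) := by
  have hn' : (0 : ℝ) < n := by exact_mod_cast hn
  have : Fact ((0 : ℝ) < n) := ⟨hn'⟩
  have hends : plc b 0 = plc b n := by
    have e1 := plc_seg b 0 0 (by simp) (by simp)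
    have e2 := plc_seg b n n le_rfl (by linarith)
    rw [e1, e2, hper]
    simp
  have hcont := plc_cont b n
  have hlift : Continuous (AddCircle.liftIco (n : ℝ) 0 (plc b)) :=
    AddCircle.liftIco_zero_continuous hends hcont
  -- indices
  have hidx : ∀ t ∈ Set.Ico (0 : ℝ) n, ∃ i, i < n ∧ (i : ℝ) ≤ t ∧ t < i + 1 := by
    intro t ht
    refine ⟨⌊t⌋₊, ?_, Nat.floor_le ht.1, Nat.lt_floor_add_one t⟩
    rw [Nat.floor_lt ht.1]
    exact ht.2
  have hinjOn : Set.InjOn (plc b) (Set.Ico (0 : ℝ) n) := by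
    intro s hs t ht hst
    obtain ⟨i, hi, i1, i2⟩ := hidx s hs
    obtain ⟨j, hj, j1, j2⟩ := hidx t ht
    have hK : K (plc b s) = K (plc b t) := by rw [hst]
    have a1 : (2 * i) / 2 = i := by omega
    have a2 : (2 * i + 1) / 2 = i := by omega
    have a3 : (2 * i + 1 + 1) / 2 = i + 1 := by omega
    have b1 : (2 * j) / 2 = j := by omega
    have b2 : (2 * j + 1) / 2 = j := by omega
    have b3 : (2 * j + 1 + 1) / 2 = j + 1 := by omega
    rcases K_plc b i s i1 i2 (hadj i hi) with ⟨e, f⟩ | ⟨e, f⟩ <;>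
    rcases K_plc b j t j1 j2 (hadj j hj) with ⟨e', f'⟩ | ⟨e', f'⟩
    · rw [f, f'] at hK
      have := hinj (2 * i) (by omega) (2 * j) (by omega) (by rw [a1, a2, b1, b2]; exact hK)
      have : i = j := by omega
      rw [e, e', this]
    · exfalso
      rw [f, f'] at hK
      have := hinj (2 * i) (by omega) (2 * j + 1) (by omega) (by rw [a1, a2, b2, b3]; exact hK)
      omega
    · exfalso
      rw [f, f'] at hK
      have := hinj (2 * i + 1) (by omega) (2 * j) (by omega) (by rw [a2, a3, b1, b2]; exact hK)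
      omega
    · rw [f, f'] at hK
      have := hinj (2 * i + 1) (by omega) (2 * j + 1) (by omega) (by rw [a2, a3, b2, b3]; exact hK)
      have hij : i = j := by omega
      subst hij
      rw [plc_seg b i s i1 i2.le, plc_seg b i t j1 j2.le] at hst
      have c0 : ((b i).1 : ℝ) + (s - i) * (((b (i + 1)).1 - (b i).1 : ℤ) : ℝ) =
        ((b i).1 : ℝ) + (t - i) * (((b (i + 1)).1 - (b i).1 : ℤ) : ℝ) := by
        have := congrArg (fun p : Plane => p 0) hst
        exact this
      have c1 : ((b i).2 : ℝ) + (s - i) * (((b (i + 1)).2 - (b i).2 : ℤ) : ℝ) =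
        ((b i).2 : ℝ) + (t - i) * (((b (i + 1)).2 - (b i).2 : ℤ) : ℝ) := by
        have := congrArg (fun p : Plane => p 1) hst
        exact this
      have hstep := hadj i hi
      unfold UnitStep at hstep
      have hne : (((b (i + 1)).1 - (b i).1 : ℤ) : ℝ) ≠ 0 ∨ (((b (i + 1)).2 - (b i).2 : ℤ) : ℝ) ≠ 0
        := by
        rcases hstep with ⟨_, h⟩ | ⟨_, h⟩
        · right
          rw [Int.cast_ne_zero]
          omega
        · left
          rw [Int.cast_ne_zero]
          omega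
      rcases hne with h | h
      · have : (s - t) * (((b (i + 1)).1 - (b i).1 : ℤ) : ℝ) = 0 := by linarith
        rcases mul_eq_zero.mp this with h' | h'
        · linarith
        · exact absurd h' h
      · have : (s - t) * (((b (i + 1)).2 - (b i).2 : ℤ) : ℝ) = 0 := by linarith
        rcases mul_eq_zero.mp this with h' | h'
        · linarith
        · exact absurd h' h
  have himg : plc b '' Set.Ico (0 : ℝ) n = frontier (region S) := by
    apply Set.Subset.antisymm
    · rintro p ⟨t, ht, rfl⟩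
      obtain ⟨i, hi, i1, i2⟩ := hidx t ht
      rw [frontier_region_iff]
      rcases K_plc b i t i1 i2 (hadj i hi) with ⟨e, f⟩ | ⟨e, f⟩
      · have := hbd (2 * i) (by omega)
        have a1 : (2 * i) / 2 = i := by omega
        have a2 : (2 * i + 1) / 2 = i := by omega
        rw [a1, a2] at this
        rw [f]
        exact this
      · have := hbd (2 * i + 1) (by omega)
        have a2 : (2 * i + 1) / 2 = i := by omega
        have a3 : (2 * i + 1 + 1) / 2 = i + 1 := by omega
        rw [a2, a3] at this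
        rw [f]
        exact this
    · intro p hp
      rw [frontier_region_iff] at hp
      obtain ⟨m, hm, hmK⟩ := hall (K p) hp
      rcases Nat.even_or_odd' m with ⟨i, hi | hi⟩
      · have a1 : (2 * i) / 2 = i := by omega
        have a2 : (2 * i + 1) / 2 = i := by omega
        rw [hi, a1, a2] at hmK
        have hlt : i < n := by omega
        refine ⟨i, ⟨Nat.cast_nonneg i, by exact_mod_cast hlt⟩, ?_⟩
        rw [plc_seg b i i le_rfl (by linarith), K_even p (b i) hmK.symm]
        simp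
      · have a2 : (2 * i + 1) / 2 = i := by omega
        have a3 : (2 * i + 1 + 1) / 2 = i + 1 := by omega
        rw [hi, a2, a3] at hmK
        have hlt : i < n := by omega
        have hlt' : (i : ℝ) + 1 ≤ n := by exact_mod_cast hlt
        have hstep := hadj i hlt
        have hk0 : kap (p 0) = (b i).1 + (b (i + 1)).1 := (congrArg Prod.fst hmK).symm
        have hk1 : kap (p 1) = (b i).2 + (b (i + 1)).2 := (congrArg Prod.snd hmK).symm
        unfold UnitStep at hstep
        rcases hstep with ⟨h1, h2 | h2⟩ | ⟨h1, h2 | h2⟩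
        · have e0 : p 0 = (b i).1 := kap_even _ _ (by rw [hk0, h1]; ring)
          have e1 := (kap_odd (p 1) (b i).2).1 (by rw [hk1, h2]; ring)
          refine ⟨i + (p 1 - (b i).2), ⟨by linarith [Nat.cast_nonneg (α := ℝ) i], by linarith⟩, ?_⟩
          rw [plc_seg b i _ (by linarith) (by linarith), h1, h2]
          ext l
          fin_cases l
          · simp [e0]
          · simp
        · have e0 : p 0 = (b i).1 := kap_even _ _ (by rw [hk0, h1]; ring)
          have e1 := (kap_odd (p 1) ((b i).2 - 1)).1 (by rw [hk1, h2]; ring)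
          push_cast at e1
          refine ⟨i + ((b i).2 - p 1), ⟨by linarith [Nat.cast_nonneg (α := ℝ) i], by linarith⟩, ?_⟩
          rw [plc_seg b i _ (by linarith) (by linarith), h1, h2]
          ext l
          fin_cases l
          · simp [e0]
          · simp
        · have e0 : p 1 = (b i).2 := kap_even _ _ (by rw [hk1, h1]; ring)
          have e1 := (kap_odd (p 0) (b i).1).1 (by rw [hk0, h2]; ring)
          refine ⟨i + (p 0 - (b i).1), ⟨by linarith [Nat.cast_nonneg (α := ℝ) i], by linarith⟩, ?_⟩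
          rw [plc_seg b i _ (by linarith) (by linarith), h1, h2]
          ext l
          fin_cases l
          · simp
          · simp [e0]
        · have e0 : p 1 = (b i).2 := kap_even _ _ (by rw [hk1, h1]; ring)
          have e1 := (kap_odd (p 0) ((b i).1 - 1)).1 (by rw [hk0, h2]; ring)
          push_cast at e1
          refine ⟨i + ((b i).1 - p 0), ⟨by linarith [Nat.cast_nonneg (α := ℝ) i], by linarith⟩, ?_⟩
          rw [plc_seg b i _ (by linarith) (by linarith), h1, h2]
          ext l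
          fin_cases l
          · simp
          · simp [e0]
  -- the curve on the circle
  set H := AddCircle.homeomorphCircle (T := (n : ℝ)) hn'.ne' with hH
  have hrep : ∀ x : AddCircle (n : ℝ), ∃ t ∈ Set.Ico (0 : ℝ) n, (t : AddCircle (n : ℝ)) = x := by
    intro x
    have hx := (AddCircle.equivIco (n : ℝ) 0 x).2
    refine ⟨(AddCircle.equivIco (n : ℝ) 0 x : ℝ), ⟨hx.1, by linarith [hx.2]⟩, ?_⟩
    exact (AddCircle.equivIco (n : ℝ) 0).symm_apply_apply x
  refine ⟨fun z => AddCircle.liftIco (n : ℝ) 0 (plc b) (H.symm z),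
    hlift.comp H.symm.continuous, ?_, ?_⟩
  · intro z w hzw
    simp only at hzw
    obtain ⟨s, hs, es⟩ := hrep (H.symm z)
    obtain ⟨t, ht, et⟩ := hrep (H.symm w)
    rw [← es, ← et, AddCircle.liftIco_zero_coe_apply hs, AddCircle.liftIco_zero_coe_apply ht] at hzw
    have := hinjOn hs ht hzw
    rw [this] at es
    exact H.symm.injective (es.symm.trans et)
  · rw [← himg]
    apply Set.Subset.antisymm
    · rintro p ⟨z, rfl⟩
      obtain ⟨s, hs, es⟩ := hrep (H.symm z)
      refine ⟨s, hs, ?_⟩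
      simp only
      rw [← es, AddCircle.liftIco_zero_coe_apply hs]
    · rintro p ⟨s, hs, rfl⟩
      refine ⟨H (s : AddCircle (n : ℝ)), ?_⟩
      simp only
      rw [H.symm_apply_apply, AddCircle.liftIco_zero_coe_apply hs]

end Pool.Agent.Helper72.RepCube
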