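import Pool.Agent.Helper72.RepCube.Geom

/-!
Isometries of the plane that preserve the integer grid, and transfer of the notions of polyomino
and net along them.
-/

namespace Pool.Agent.Helper72.RepCube

/-- An isometry of the plane together with the permutation of the unit squares it induces. -/
structure GridIso where
  e : ℤ × ℤ ≃ ℤ × ℤ
  g : Plane ≃ᵢ Plane
  img : ∀ c, g '' cell c = cell (e c)
  adj : ∀ c d, EdgeAdj (e c) (e d) ↔ EdgeAdj c d

/-- Composition of grid isometries (first `φ`, then `χ`). -/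
noncomputable def GridIso.comp (φ χ : GridIso) : GridIso where
  e := φ.e.trans χ.e
  g := φ.g.trans χ.g
  img := by
    intro c
    have : (φ.g.trans χ.g) '' cell c = χ.g '' (φ.g '' cell c) := by
      rw [Set.image_image]
      rfl
    rw [this, φ.img, χ.img]
    rfl
  adj := by
    intro c d
    show EdgeAdj (χ.e (φ.e c)) (χ.e (φ.e d)) ↔ _
    rw [χ.adj, φ.adj]

/-- Inverse of a grid isometry. -/
noncomputable def GridIso.inv (φ : GridIso) : GridIso where
  e := φ.e.symm
  g := φ.g.symm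
  img := by
    intro c
    have h := φ.img (φ.e.symm c)
    rw [φ.e.apply_symm_apply] at h
    rw [← h, Set.image_image]
    simp
  adj := by
    intro c d
    have h := φ.adj (φ.e.symm c) (φ.e.symm d)
    rw [φ.e.apply_symm_apply, φ.e.apply_symm_apply] at h
    exact h.symm

/-- `M` is the image of `N` under a grid isometry. -/
def Rel (N M : Finset (ℤ × ℤ)) : Prop := ∃ φ : GridIso, M = N.map φ.e.toEmbedding

theorem Rel.symm {N M : Finset (ℤ × ℤ)} (h : Rel N M) : Rel M N := by
  obtain ⟨φ, rfl⟩ := h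
  refine ⟨φ.inv, ?_⟩
  rw [Finset.map_map]
  ext c
  simp [GridIso.inv]

theorem Rel.trans {N M L : Finset (ℤ × ℤ)} (h : Rel N M) (h' : Rel M L) : Rel N L := by
  obtain ⟨φ, rfl⟩ := h
  obtain ⟨χ, rfl⟩ := h'
  refine ⟨φ.comp χ, ?_⟩
  rw [Finset.map_map]
  rfl

theorem region_map (φ : GridIso) (N : Finset (ℤ × ℤ)) :
    φ.g '' region N = region (N.map φ.e.toEmbedding) := by
  unfold region
  rw [Set.image_iUnion₂]
  ext p
  simp only [Set.mem_iUnion, exists_prop, Finset.mem_map, Equiv.coe_toEmbedding]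
  constructor
  · rintro ⟨c, hc, hp⟩
    rw [φ.img] at hp
    exact ⟨φ.e c, ⟨c, hc, rfl⟩, hp⟩
  · rintro ⟨_, ⟨c, hc, rfl⟩, hp⟩
    refine ⟨c, hc, ?_⟩
    rw [φ.img]; exact hp

theorem Rel.congruent {N M : Finset (ℤ × ℤ)} (h : Rel N M) : Congruent N M := by
  obtain ⟨φ, rfl⟩ := h
  exact ⟨φ.g, region_map φ N⟩

theorem Rel.isPolyomino {N M : Finset (ℤ × ℤ)} (h : Rel N M) (hN : IsPolyomino N) :
    IsPolyomino M := by
  obtain ⟨φ, rfl⟩ := h
  obtain ⟨h1, h2, γ, hγ, hinj, hr⟩ := hN
  refine ⟨?_, ?_, ?_⟩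
  · exact h1.map
  · intro c hc d hd
    rw [Finset.mem_map] at hc hd
    obtain ⟨c, hc, rfl⟩ := hc
    obtain ⟨d, hd, rfl⟩ := hd
    have := h2 c hc d hd
    refine this.lift (fun x => φ.e.toEmbedding x) ?_
    rintro a b ⟨ha, hb, hab⟩
    refine ⟨Finset.mem_map_of_mem _ ha, Finset.mem_map_of_mem _ hb, ?_⟩
    exact (φ.adj a b).2 hab
  · refine ⟨fun z => φ.g (γ z), φ.g.continuous.comp hγ, φ.g.injective.comp hinj, ?_⟩
    have : Set.range (fun z => φ.g (γ z)) = φ.g '' Set.range γ := by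
      rw [← Set.range_comp]
      rfl
    rw [this, hr, ← region_map]
    exact φ.g.toHomeomorph.image_frontier (region N)

theorem isFolding_image (g : Plane ≃ᵢ Plane) (F : Plane → Space) (P : Set Plane) (s : ℝ)
    (h : IsFolding F P s) : IsFolding (fun p => F (g.symm p)) (g '' P) s := by
  classical
  obtain ⟨h1, h2, h3, T, hT, hT'⟩ := h
  refine ⟨?_, ?_, ?_, T.image (fun t => g '' t), ?_, ?_⟩
  · apply h1.comp g.symm.continuous.continuousOn
    rintro _ ⟨p, hp, rfl⟩
    rw [g.symm_apply_apply]; exact hp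
  · rw [Set.image_image]
    simp only [g.symm_apply_apply]
    exact h2
  · have hi : interior (g '' P) = g '' interior P := (g.toHomeomorph.image_interior P).symm
    rw [hi]
    rintro _ ⟨p, hp, rfl⟩ _ ⟨q, hq, rfl⟩ hpq
    simp only [g.symm_apply_apply] at hpq
    rw [h3 hp hq hpq]
  · rw [← hT, Set.image_iUnion₂]
    simp
  · intro t ht
    rw [Finset.mem_image] at ht
    obtain ⟨t, ht, rfl⟩ := ht
    obtain ⟨⟨V, hV⟩, hd⟩ := hT' t ht
    refine ⟨⟨V.image g, ?_⟩, ?_⟩
    · rw [hV, Finset.coe_image]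
      have := AffineMap.image_convexHull (𝕜 := ℝ)
        (g.toRealAffineIsometryEquiv.toAffineEquiv : Plane →ᵃ[ℝ] Plane) (V : Set Plane)
      simpa using this
    · rintro _ ⟨p, hp, rfl⟩ _ ⟨q, hq, rfl⟩
      simp only [g.symm_apply_apply]
      rw [hd p hp q hq, g.dist_eq]

theorem Rel.isCubeNet {N M : Finset (ℤ × ℤ)} (h : Rel N M) (hN : IsCubeNet N) :
    IsCubeNet M := by
  obtain ⟨φ, rfl⟩ := h
  obtain ⟨s, hs, F, hF⟩ := hN
  refine ⟨s, hs, fun p => F (φ.g.symm p), ?_⟩
  rw [← region_map]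
  exact isFolding_image φ.g F _ s hF

theorem Rel.isEdgeNet {N M : Finset (ℤ × ℤ)} (h : Rel N M) (hN : IsEdgeNet N) :
    IsEdgeNet M := by
  have hrel := h
  obtain ⟨φ, rfl⟩ := h
  obtain ⟨h1, h2, F, hF, hc⟩ := hN
  refine ⟨hrel.isPolyomino h1, ?_, fun p => F (φ.g.symm p), ?_, ?_⟩
  · rw [Finset.card_map]; exact h2
  · rw [← region_map]
    exact isFolding_image φ.g F _ 1 hF
  · intro c hcM
    rw [Finset.mem_map] at hcM
    obtain ⟨c, hcN, rfl⟩ := hcM
    obtain ⟨hd, i, ε, hε, hf⟩ := hc c hcN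
    have himg : cell (φ.e c) = φ.g '' cell c := (φ.img c).symm
    rw [Equiv.coe_toEmbedding, himg]
    refine ⟨?_, i, ε, hε, ?_⟩
    · rintro _ ⟨p, hp, rfl⟩ _ ⟨q, hq, rfl⟩
      simp only [φ.g.symm_apply_apply]
      rw [hd p hp q hq, φ.g.dist_eq]
    · rw [Set.image_image]
      simp only [φ.g.symm_apply_apply]
      exact hf

/-- Translations. -/
noncomputable def trIso (t : ℤ × ℤ) : GridIso where
  e := Equiv.addRight t
  g := IsometryEquiv.addRight (!₂[(t.1 : ℝ), (t.2 : ℝ)] : Plane)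
  img := by
    intro c
    ext p
    constructor
    · rintro ⟨q, ⟨h1, h2, h3, h4⟩, rfl⟩
      refine ⟨?_, ?_, ?_, ?_⟩ <;> simp <;> linarith
    · rintro ⟨h1, h2, h3, h4⟩
      simp only [Equiv.coe_addRight, Prod.fst_add, Prod.snd_add, Int.cast_add] at h1 h2 h3 h4
      refine ⟨p - !₂[(t.1 : ℝ), (t.2 : ℝ)], ⟨?_, ?_, ?_, ?_⟩, ?_⟩
      · simp; linarith
      · simp; linarith
      · simp; linarith
      · simp; linarith
      · simp
  adj := by
    intro c d
    unfold EdgeAdj
    simp only [Equiv.coe_addRight, Prod.fst_add, Prod.snd_add]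
    omega

/-- Exchange of the coordinates. -/
noncomputable def swapIso : GridIso where
  e := Equiv.prodComm ℤ ℤ
  g :=
    { toFun := fun p => !₂[p 1, p 0]
      invFun := fun p => !₂[p 1, p 0]
      left_inv := by
        intro p
        ext l
        fin_cases l <;> rfl
      right_inv := by
        intro p
        ext l
        fin_cases l <;> rfl
      isometry_toFun := by
        apply Isometry.of_dist_eq
        intro p q
        rw [EuclideanSpace.dist_eq, EuclideanSpace.dist_eq, Fin.sum_univ_two, Fin.sum_univ_two]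
        show √(dist (p 1) (q 1) ^ 2 + dist (p 0) (q 0) ^ 2) = _
        rw [add_comm] }
  img := by
    intro c
    ext p
    constructor
    · rintro ⟨q, ⟨h1, h2, h3, h4⟩, rfl⟩
      exact ⟨h3, h4, h1, h2⟩
    · rintro ⟨h1, h2, h3, h4⟩
      refine ⟨!₂[p 1, p 0], ⟨h3, h4, h1, h2⟩, ?_⟩
      ext l
      fin_cases l <;> rfl
  adj := by
    intro c d
    unfold EdgeAdj
    simp only [Equiv.prodComm_apply, Prod.fst_swap, Prod.snd_swap]
    omega

/-- Reflection in the vertical axis. -/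
noncomputable def negIso : GridIso where
  e :=
    { toFun := fun c => (-c.1 - 1, c.2)
      invFun := fun c => (-c.1 - 1, c.2)
      left_inv := by intro c; ext <;> simp
      right_inv := by intro c; ext <;> simp }
  g :=
    { toFun := fun p => !₂[-p 0, p 1]
      invFun := fun p => !₂[-p 0, p 1]
      left_inv := by
        intro p
        ext l
        fin_cases l <;> simp
      right_inv := by
        intro p
        ext l
        fin_cases l <;> simp
      isometry_toFun := by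
        apply Isometry.of_dist_eq
        intro p q
        rw [EuclideanSpace.dist_eq, EuclideanSpace.dist_eq, Fin.sum_univ_two, Fin.sum_univ_two]
        show √(dist (-p 0) (-q 0) ^ 2 + dist (p 1) (q 1) ^ 2) = _
        rw [dist_neg_neg] }
  img := by
    intro c
    ext p
    constructor
    · rintro ⟨q, ⟨h1, h2, h3, h4⟩, rfl⟩
      refine ⟨?_, ?_, h3, h4⟩
      · show (((-c.1 - 1 : ℤ)) : ℝ) ≤ - q 0
        push_cast
        linarith
      · show - q 0 ≤ (((-c.1 - 1 : ℤ)) : ℝ) + 1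
        push_cast
        linarith
    · rintro ⟨h1, h2, h3, h4⟩
      simp only [Equiv.coe_fn_mk] at h1 h2 h3 h4
      push_cast at h1 h2
      refine ⟨!₂[-p 0, p 1], ⟨?_, ?_, h3, h4⟩, ?_⟩
      · show (c.1 : ℝ) ≤ - p 0
        linarith
      · show - p 0 ≤ (c.1 : ℝ) + 1
        linarith
      · ext l
        fin_cases l
        · show - - p 0 = p 0
          ring
        · rfl
  adj := by
    intro c d
    unfold EdgeAdj
    simp only [Equiv.coe_fn_mk]
    omega

/-- The eight point symmetries of the grid, acting on unit squares. -/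
def act (k : ℕ) (c : ℤ × ℤ) : ℤ × ℤ :=
  match k with
  | 0 => (c.1, c.2)
  | 1 => (c.2, c.1)
  | 2 => (-c.1 - 1, c.2)
  | 3 => (-c.2 - 1, c.1)
  | 4 => (c.1, -c.2 - 1)
  | 5 => (c.2, -c.1 - 1)
  | 6 => (-c.1 - 1, -c.2 - 1)
  | _ => (-c.2 - 1, -c.1 - 1)

theorem rel_of_act (N M : Finset (ℤ × ℤ)) (k : ℕ) (t : ℤ × ℤ)
    (h : M = N.image (fun c => act k c + t)) : Rel N M := by
  have key : ∃ φ : GridIso, ∀ c, φ.e c = act k c + t := by
    have h0 : ∃ φ : GridIso, ∀ c, φ.e c = act k c := by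
      match k with
      | 0 => exact ⟨swapIso.comp swapIso, fun c => rfl⟩
      | 1 => exact ⟨swapIso, fun c => rfl⟩
      | 2 => exact ⟨negIso, fun c => rfl⟩
      | 3 => exact ⟨swapIso.comp negIso, fun c => rfl⟩
      | 4 => exact ⟨swapIso.comp (negIso.comp swapIso), fun c => rfl⟩
      | 5 => exact ⟨negIso.comp swapIso, fun c => rfl⟩
      | 6 => exact ⟨swapIso.comp (negIso.comp (swapIso.comp negIso)), fun c => rfl⟩
      | (n + 7) => exact ⟨swapIso.comp (swapIso.comp (negIso.comp (swapIso.comp negIso))), fun c => rfl⟩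
    obtain ⟨φ, hφ⟩ := h0
    refine ⟨φ.comp (trIso t), fun c => ?_⟩
    show φ.e c + t = _
    rw [hφ]
  obtain ⟨φ, hφ⟩ := key
  refine ⟨φ, ?_⟩
  rw [h]
  ext c
  simp only [Finset.mem_image, Finset.mem_map, Equiv.coe_toEmbedding, hφ]

end Pool.Agent.Helper72.RepCube
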