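import Pool.Agent.Helper72.RepCube.Fold
import Pool.Agent.Helper72.RepCube.Curve
import Pool.Agent.Helper72.RepCube.Iso

/-!
Certificates for uniform rep-cubes and their verification by computation in the kernel.
-/

namespace Pool.Agent.Helper72.RepCube

/-- Bounded universal quantifier as a Boolean function. -/
def allLt : ℕ → (ℕ → Bool) → Bool
  | 0, _ => true
  | n + 1, f => f n && allLt n f

theorem allLt_iff (n : ℕ) (f : ℕ → Bool) : allLt n f = true ↔ ∀ k, k < n → f k = true := by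
  induction n with
  | zero => simp [allLt]
  | succ n ih =>
    simp only [allLt, Bool.and_eq_true, ih]
    constructor
    · rintro ⟨h1, h2⟩ k hk
      rcases Nat.lt_succ_iff_lt_or_eq.mp hk with h | h
      · exact h2 k h
      · rw [h]; exact h1
    · intro h
      exact ⟨h n (Nat.lt_succ_self n), fun k hk => h k (Nat.lt_succ_of_lt hk)⟩

/-- Entry `i` of the table `T` with entries of `w` bits. -/
def tab (T w i : ℕ) : ℕ := (T >>> (w * i)) % 2 ^ w

/-- The data of a certificate. -/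
structure Data where
  k : ℕ
  a : ℕ
  W : ℕ
  H : ℕ
  N : ℕ
  root : ℕ
  PC : ℕ
  ORD : ℕ
  LAB : ℕ
  INV : ℕ
  PX : ℕ
  POS : ℕ
  base : List (ℤ × ℤ)
  place : List (ℕ × ℤ × ℤ)

variable (D : Data)

def Data.pc (x y : ℕ) : ℕ := tab D.PC 6 (x + D.W * y)
def Data.ord (x y : ℕ) : ℕ := tab D.ORD 8 (x + D.W * y)
def Data.lab (x y : ℕ) : ℕ := tab D.LAB 12 (x + D.W * y)
def Data.inv (c : ℕ) : ℕ := tab D.INV 12 c
def Data.px (i : ℕ) : ℕ := tab D.PX 12 i % D.W
def Data.py (i : ℕ) : ℕ := tab D.PX 12 i / D.W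
def Data.pos (X Y : ℕ) : ℕ := tab D.POS 12 (X + 2 * D.W * Y)
def Data.inS (x y : ℕ) : Bool := Nat.ble 1 (D.pc x y)

/-- Digits of a label. -/
def dig (n l : ℕ) : ℕ :=
  match l with
  | 0 => n % 16
  | 1 => n / 16 % 16
  | _ => n / 256

def goodDig (a A B E F l : ℕ) : Bool :=
  Nat.beq (dig F l + dig A l) (dig B l + dig E l) &&
  Nat.ble (dig B l) (dig A l + 1) && Nat.ble (dig A l) (dig B l + 1) &&
  Nat.ble (dig E l) (dig A l + 1) && Nat.ble (dig A l) (dig E l + 1) &&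
  (Nat.beq (dig B l) (dig A l) || Nat.beq (dig E l) (dig A l)) &&
  Nat.ble (dig A l) a && Nat.ble (dig B l) a && Nat.ble (dig E l) a && Nat.ble (dig F l) a

def one3 (A B : ℕ) : Bool :=
  match Nat.beq (dig A 0) (dig B 0), Nat.beq (dig A 1) (dig B 1), Nat.beq (dig A 2) (dig B 2) with
  | false, true, true => true
  | true, false, true => true
  | true, true, false => true
  | _, _, _ => false

def flat (a A B E l : ℕ) : Bool :=
  (Nat.beq (dig A l) 0 || Nat.beq (dig A l) a) && Nat.beq (dig B l) (dig A l) &&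
    Nat.beq (dig E l) (dig A l)

def goodLab (a A B E F : ℕ) : Bool :=
  goodDig a A B E F 0 && goodDig a A B E F 1 && goodDig a A B E F 2 &&
  one3 A B && one3 A E && (flat a A B E 0 || flat a A B E 1 || flat a A B E 2)

def Data.intN (X Y : ℕ) : Bool :=
  D.inS ((X - 1) / 2) ((Y - 1) / 2) && D.inS (X / 2) ((Y - 1) / 2) &&
  D.inS ((X - 1) / 2) (Y / 2) && D.inS (X / 2) (Y / 2)

def Data.someN (X Y : ℕ) : Bool :=
  D.inS ((X - 1) / 2) ((Y - 1) / 2) || D.inS (X / 2) ((Y - 1) / 2) ||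
  D.inS ((X - 1) / 2) (Y / 2) || D.inS (X / 2) (Y / 2)

def Data.bdN (X Y : ℕ) : Bool := D.someN X Y && !(D.intN X Y)

def Data.code (X Y : ℕ) : ℕ := D.lab (X / 2) (Y / 2) + D.lab ((X + 1) / 2) ((Y + 1) / 2)

/-- The squares keep away from the boundary of the box. -/
def Data.chkBox : Bool :=
  allLt D.W fun x => allLt D.H fun y =>
    !(D.inS x y) || (Nat.ble 1 x && Nat.ble (x + 2) D.W && Nat.ble 1 y && Nat.ble (y + 2) D.H)

def Data.chkLab : Bool :=
  allLt D.W fun x => allLt D.H fun y =>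
    !(D.inS x y) || goodLab D.a (D.lab x y) (D.lab (x + 1) y) (D.lab x (y + 1))
      (D.lab (x + 1) (y + 1))

def Data.chkInj : Bool :=
  allLt (2 * D.W) fun X => allLt (2 * D.H) fun Y =>
    !(D.intN X Y) || Nat.beq (D.inv (D.code X Y)) (X + 2 * D.W * Y)

def Data.hit (c : ℕ) : Bool :=
  Nat.beq ((D.inv c % (2 * D.W)) % 2) 1 && Nat.beq ((D.inv c / (2 * D.W)) % 2) 1 &&
  Nat.blt (D.inv c / (2 * D.W) / 2) D.H &&
  D.inS ((D.inv c % (2 * D.W)) / 2) ((D.inv c / (2 * D.W)) / 2) &&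
  Nat.beq (D.code (D.inv c % (2 * D.W)) (D.inv c / (2 * D.W))) c

def Data.chkOnto : Bool :=
  allLt 2 fun e => allLt D.a fun m => allLt D.a fun n =>
    D.hit (2 * D.a * e + 16 * (2 * m + 1) + 256 * (2 * n + 1)) &&
    D.hit ((2 * m + 1) + 16 * (2 * D.a * e) + 256 * (2 * n + 1)) &&
    D.hit ((2 * m + 1) + 16 * (2 * n + 1) + 256 * (2 * D.a * e))

def stepN (p q p' q' : ℕ) : Bool :=
  (Nat.beq p p' && (Nat.beq q' (q + 1) || Nat.beq q (q' + 1))) ||
  (Nat.beq q q' && (Nat.beq p' (p + 1) || Nat.beq p (p' + 1)))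

def Data.ptOk (X Y i : ℕ) : Bool :=
  Nat.ble 1 X && Nat.ble 1 Y && Nat.blt X (2 * D.W) && Nat.blt Y (2 * D.H) &&
  Nat.beq (D.pos X Y) (i + 1) && D.bdN X Y

def Data.chkPath : Bool :=
  Nat.beq (D.px D.N) (D.px 0) && Nat.beq (D.py D.N) (D.py 0) &&
  allLt D.N fun i => stepN (D.px i) (D.py i) (D.px (i + 1)) (D.py (i + 1)) &&
    D.ptOk (2 * D.px i) (2 * D.py i) (2 * i) &&
    D.ptOk (D.px i + D.px (i + 1)) (D.py i + D.py (i + 1)) (2 * i + 1)

def Data.chkBd : Bool :=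
  allLt (2 * D.W) fun X => allLt (2 * D.H) fun Y =>
    !(D.bdN X Y) || (Nat.ble 1 (D.pos X Y) && Nat.ble (D.pos X Y) (2 * D.N) &&
      Nat.beq (D.px ((D.pos X Y - 1) / 2) + D.px (D.pos X Y / 2)) X &&
      Nat.beq (D.py ((D.pos X Y - 1) / 2) + D.py (D.pos X Y / 2)) Y)

def Data.less (x y n : ℕ) : Bool := D.inS x y && Nat.blt (D.ord x y) n

def Data.chkConn : Bool :=
  allLt D.W fun x => allLt D.H fun y =>
    !(D.inS x y) || (Nat.beq (x + D.W * y) D.root || D.less (x + 1) y (D.ord x y) ||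
      D.less (x - 1) y (D.ord x y) || D.less x (y + 1) (D.ord x y) ||
      D.less x (y - 1) (D.ord x y))

/-- The squares of piece `i`. -/
def Data.piece (i : ℕ) : List (ℤ × ℤ) :=
  match D.place[i]? with
  | none => []
  | some (g, t) => D.base.map (fun c => act g c + t)

def eqb (c d : ℤ × ℤ) : Bool := decide (c.1 = d.1) && decide (c.2 = d.2)

def Data.chkPieces : Bool :=
  Nat.beq D.place.length D.k &&
  (allLt D.k fun i => (D.piece i).all fun c => decide (0 ≤ c.1) && decide (0 ≤ c.2) &&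
    Nat.blt c.1.toNat D.W && Nat.blt c.2.toNat D.H &&
    Nat.beq (D.pc c.1.toNat c.2.toNat) (i + 1)) &&
  (allLt D.W fun x => allLt D.H fun y =>
    !(D.inS x y) || (Nat.ble (D.pc x y) D.k &&
      (D.piece (D.pc x y - 1)).any fun c => eqb c ((x : ℤ), (y : ℤ))))

def Data.check : Bool :=
  Nat.ble 1 D.a && Nat.ble D.a 7 && Nat.ble 1 D.N && Nat.ble 1 D.W &&
  D.chkBox && D.chkLab && D.chkInj && D.chkOnto && D.chkPath && D.chkBd && D.chkConn &&
  D.chkPieces

end Pool.Agent.Helper72.RepCube
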