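import Pool.Agent.Helper72.RepCube.Iso

/-!
Combinatorial classification of the edge nets of the cube: a connected set of six unit squares
that can be rolled over by a cube, every face of the cube being used once, is one of eleven shapes.
-/

namespace Pool.Agent.Helper72.RepCube

/-- The eleven edge nets of the cube. -/
def bases : List (List (ℤ × ℤ)) :=
  [[(0, 0), (0, 1), (0, 2), (1, 1), (2, 1), (3, 1)],
   [(0, 0), (0, 1), (0, 2), (1, 2), (1, 3), (1, 4)],
   [(0, 0), (0, 1), (1, 1), (1, 2), (1, 3), (2, 1)],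
   [(0, 0), (0, 1), (1, 1), (1, 2), (1, 3), (2, 2)],
   [(0, 0), (0, 1), (1, 1), (1, 2), (1, 3), (2, 3)],
   [(0, 0), (0, 1), (1, 1), (1, 2), (2, 1), (3, 1)],
   [(0, 0), (0, 1), (1, 1), (1, 2), (2, 2), (2, 3)],
   [(0, 0), (0, 1), (1, 1), (2, 1), (2, 2), (3, 1)],
   [(0, 0), (0, 1), (1, 1), (2, 1), (3, 1), (3, 2)],
   [(0, 1), (1, 0), (1, 1), (1, 2), (1, 3), (2, 1)],
   [(0, 1), (1, 0), (1, 1), (1, 2), (1, 3), (2, 2)]]

/-- Lookup table: shape code, number of the net, symmetry, translation. -/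
def shapes : List (ℕ × ℕ × ℕ × ℤ × ℤ) :=
  [(1820, 1, 3, 5, 0), (7175, 1, 1, 0, 0), (67340, 4, 3, 4, 0), (69377, 0, 0, 0, 0),
   (69378, 5, 4, 0, 3), (69380, 7, 4, 0, 3), (69384, 8, 2, 4, 0), (132876, 3, 3, 4, 0),
   (134659, 2, 1, 0, 0), (134913, 5, 0, 0, 0), (134914, 9, 1, 0, 0), (134916, 10, 3, 4, 0),
   (134920, 7, 2, 4, 0), (198156, 6, 3, 4, 0), (200194, 2, 5, 0, 3), (200196, 3, 5, 0, 3),
   (200200, 4, 5, 0, 3), (263948, 2, 3, 4, 0), (265731, 3, 1, 0, 0), (265985, 7, 0, 0, 0),
   (265986, 10, 1, 0, 0), (265988, 9, 3, 4, 0), (265992, 5, 2, 4, 0), (527875, 4, 1, 0, 0),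
   (528129, 8, 0, 0, 0), (528130, 7, 6, 4, 3), (528132, 5, 6, 4, 3), (528136, 0, 2, 4, 0),
   (787971, 6, 1, 0, 0), (788225, 4, 7, 4, 3), (788226, 3, 7, 4, 3), (788228, 2, 7, 4, 3),
   (16974342, 4, 4, 0, 4), (16975362, 3, 4, 0, 4), (16975364, 6, 2, 3, 0),
   (17236482, 2, 4, 0, 4), (33686023, 0, 1, 0, 0), (33686278, 5, 3, 3, 0),
   (33687043, 5, 1, 0, 0), (33687297, 2, 0, 0, 0), (33687298, 9, 0, 0, 0),
   (33687300, 2, 2, 3, 0), (33751558, 7, 3, 3, 0), (33752578, 10, 2, 3, 0),
   (33752580, 3, 2, 3, 0), (33948163, 7, 1, 0, 0), (33948417, 3, 0, 0, 0),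
   (33948418, 10, 0, 0, 0), (34013698, 9, 4, 0, 4), (50463238, 8, 3, 3, 0),
   (50464258, 7, 5, 0, 4), (50464260, 4, 2, 3, 0), (50725378, 5, 5, 0, 4),
   (67502595, 4, 6, 3, 4), (67502849, 6, 0, 0, 0), (67502850, 3, 6, 3, 4),
   (67568130, 2, 6, 3, 4), (100794883, 8, 1, 0, 0), (100795137, 4, 0, 0, 0),
   (100795138, 7, 7, 3, 4), (100860418, 5, 7, 3, 4), (117572098, 0, 5, 0, 4),
   (4311941634, 1, 2, 2, 0), (8623685889, 1, 0, 0, 0)]

/-- A unit square together with the names of the bottom face and of the faces to the east and to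
the north of the rolling cube; the face opposite to `x` is `5 - x`. -/
abbrev Node := (ℤ × ℤ) × ℕ × ℕ × ℕ

/-- The neighbours of a node, with the names of the faces after rolling the cube. -/
def nbrs (d : Node) : List Node :=
  [((d.1.1 + 1, d.1.2), d.2.2.1, 5 - d.2.1, d.2.2.2),
   ((d.1.1 - 1, d.1.2), 5 - d.2.2.1, d.2.1, d.2.2.2),
   ((d.1.1, d.1.2 + 1), d.2.2.2, d.2.2.1, 5 - d.2.1),
   ((d.1.1, d.1.2 - 1), 5 - d.2.2.2, d.2.2.1, d.2.1)]

/-- Boolean equality of unit squares. -/
def ceq (c d : ℤ × ℤ) : Bool := decide (c.1 = d.1) && decide (c.2 = d.2)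

theorem ceq_iff (c d : ℤ × ℤ) : ceq c d = true ↔ c = d := by
  unfold ceq
  rw [Bool.and_eq_true, decide_eq_true_eq, decide_eq_true_eq]
  exact (Prod.ext_iff).symm

def minX (L : List Node) : ℤ := L.foldr (fun d m => min d.1.1 m) 100
def minY (L : List Node) : ℤ := L.foldr (fun d m => min d.1.2 m) 100

def mask (L : List Node) (mx my : ℤ) : ℕ :=
  L.foldr (fun d m => 2 ^ ((d.1.1 - mx).toNat + 8 * (d.1.2 - my).toNat) + m) 0

/-- All squares of `L` belong to the copy of net `j` under the symmetry `k` and translation `t`. -/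
def inCopy (L : List Node) (j k : ℕ) (t : ℤ × ℤ) : Bool :=
  match bases[j]? with
  | none => false
  | some B => L.all fun d => (B.map fun c => act k c + t).any fun c => ceq c d.1

def known (L : List Node) : Bool :=
  match shapes.find? (fun s => Nat.beq s.1 (mask L (minX L) (minY L))) with
  | none => false
  | some s => inCopy L s.2.1 s.2.2.1 (s.2.2.2.1 + minX L, s.2.2.2.2 + minY L)

/-- The search: `L` lists squares of the net, `X` squares outside of the net, `U` the squares next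
to `L` that are still to be decided. -/
def srch : ℕ → List Node → List (ℤ × ℤ) → List Node → Bool
  | 0, _, _, _ => false
  | n + 1, L, X, U =>
    match Nat.beq L.length 6 with
    | true => known L
    | false =>
      match U with
      | [] => true
      | d :: U' =>
        match (X.any fun c => ceq c d.1) || (L.any fun e => ceq e.1 d.1) with
        | true => srch n L X U'
        | false => srch n L (d.1 :: X) U' &&
          (match L.any fun e => Nat.beq e.2.1 d.2.1 with
            | true => true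
            | false => srch n (d :: L) X (nbrs d ++ U'))

def rootNode : Node := ((0, 0), 0, 1, 2)

theorem srch_ok : srch 26 [rootNode] [] (nbrs rootNode) = true := by decide +kernel

end Pool.Agent.Helper72.RepCube
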