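import Pool.Agent.Helper72.RepCube.Classify

/-!
Soundness of the search for edge nets.
-/

namespace Pool.Agent.Helper72.RepCube

/-- The rules of a cube rolling over the set `N` of unit squares: `ν c` is the bottom face on the
square `c`, `U c` and `V c` are the faces to the east and to the north. -/
structure Rolling {M : Type*} [InvolutiveNeg M] (N : Finset (ℤ × ℤ)) (ν U V : ℤ × ℤ → M) :
    Prop where
  east : ∀ c ∈ N, (c.1 + 1, c.2) ∈ N →
    ν (c.1 + 1, c.2) = U c ∧ U (c.1 + 1, c.2) = -ν c ∧ V (c.1 + 1, c.2) = V c
  north : ∀ c ∈ N, (c.1, c.2 + 1) ∈ N →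
    ν (c.1, c.2 + 1) = V c ∧ V (c.1, c.2 + 1) = -ν c ∧ U (c.1, c.2 + 1) = U c
  inj : ∀ c ∈ N, ∀ d ∈ N, ν c = ν d → c = d

/-- The names of the faces at the node `d` are correct. -/
def Has {M : Type*} (ν U V : ℤ × ℤ → M) (σ : ℕ → M) (d : Node) : Prop :=
  ν d.1 = σ d.2.1 ∧ U d.1 = σ d.2.2.1 ∧ V d.1 = σ d.2.2.2

section
variable {M : Type*} [InvolutiveNeg M] {N : Finset (ℤ × ℤ)} {ν U V : ℤ × ℤ → M} {σ : ℕ → M}

theorem nbrs_has (hR : Rolling N ν U V) (hσ : ∀ x, σ (5 - x) = -σ x) (d : Node) (hd : d.1 ∈ N)
    (hh : Has ν U V σ d) (e : Node) (he : e ∈ nbrs d) (heN : e.1 ∈ N) : Has ν U V σ e := by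
  obtain ⟨h1, h2, h3⟩ := hh
  unfold nbrs at he
  simp only [List.mem_cons, List.not_mem_nil, or_false] at he
  rcases he with rfl | rfl | rfl | rfl
  · obtain ⟨a, b, c⟩ := hR.east d.1 hd heN
    refine ⟨?_, ?_, ?_⟩
    · simp only; rw [a, h2]
    · simp only; rw [b, h1, hσ]
    · simp only; rw [c, h3]
  · have e1 : ((d.1.1 - 1 + 1, d.1.2) : ℤ × ℤ) = d.1 := by ext <;> simp
    obtain ⟨a, b, c⟩ := hR.east (d.1.1 - 1, d.1.2) heN (by simp only; rw [e1]; exact hd)
    simp only at a b c
    rw [e1] at a b c
    refine ⟨?_, ?_, ?_⟩
    · simp only; rw [hσ, ← h2, b, neg_neg]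
    · simp only; rw [← a, h1]
    · simp only; rw [← c, h3]
  · obtain ⟨a, b, c⟩ := hR.north d.1 hd heN
    refine ⟨?_, ?_, ?_⟩
    · simp only; rw [a, h3]
    · simp only; rw [c, h2]
    · simp only; rw [b, h1, hσ]
  · have e1 : ((d.1.1, d.1.2 - 1 + 1) : ℤ × ℤ) = d.1 := by ext <;> simp
    obtain ⟨a, b, c⟩ := hR.north (d.1.1, d.1.2 - 1) heN (by simp only; rw [e1]; exact hd)
    simp only at a b c
    rw [e1] at a b c
    refine ⟨?_, ?_, ?_⟩
    · simp only; rw [hσ, ← h3, b, neg_neg]
    · simp only; rw [← c, h2]
    · simp only; rw [← a, h1]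

theorem nbrs_cells (d : Node) (c : ℤ × ℤ) (h : EdgeAdj d.1 c) : ∃ e ∈ nbrs d, e.1 = c := by
  unfold EdgeAdj at h
  unfold nbrs
  rcases h with ⟨h1, h2 | h2⟩ | ⟨h1, h2 | h2⟩
  · refine ⟨_, List.mem_cons_self, ?_⟩
    simp only
    ext
    · simp only; omega
    · simp only; omega
  · refine ⟨_, List.mem_cons_of_mem _ List.mem_cons_self, ?_⟩
    simp only
    ext
    · simp only; omega
    · simp only; omega
  · refine ⟨_, List.mem_cons_of_mem _ (List.mem_cons_of_mem _ List.mem_cons_self), ?_⟩
    simp only
    ext
    · simp only; omega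
    · simp only; omega
  · refine ⟨_, List.mem_cons_of_mem _ (List.mem_cons_of_mem _
      (List.mem_cons_of_mem _ List.mem_cons_self)), ?_⟩
    simp only
    ext
    · simp only; omega
    · simp only; omega

theorem bases_length : ∀ B ∈ bases, B.length = 6 := by decide

/-- `N` is a copy of one of the eleven nets. -/
def IsCopy (N : Finset (ℤ × ℤ)) : Prop :=
  ∃ (j k : ℕ) (t : ℤ × ℤ) (B : List (ℤ × ℤ)), bases[j]? = some B ∧
    N = B.toFinset.image (fun c => act k c + t)

theorem known_sound (hN : N.card = 6) (L : List Node) (hL : L.length = 6)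
    (hLN : ∀ d ∈ L, d.1 ∈ N) (hnd : (L.map (fun d => d.1)).Nodup) (h : known L = true) :
    IsCopy N := by
  classical
  have hNL : N = (L.map (fun d => d.1)).toFinset := by
    symm
    apply Finset.eq_of_subset_of_card_le
    · intro c hc
      rw [List.mem_toFinset, List.mem_map] at hc
      obtain ⟨d, hd, rfl⟩ := hc
      exact hLN d hd
    · rw [List.toFinset_card_of_nodup hnd, List.length_map, hL, hN]
  unfold known at h
  cases hf : shapes.find? (fun s => Nat.beq s.1 (mask L (minX L) (minY L))) with
  | none => rw [hf] at h; simp at h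
  | some s =>
    rw [hf] at h
    simp only at h
    unfold inCopy at h
    cases hb : bases[s.2.1]? with
    | none => rw [hb] at h; simp at h
    | some B =>
      rw [hb] at h
      simp only [List.all_eq_true] at h
      refine ⟨s.2.1, s.2.2.1, (s.2.2.2.1 + minX L, s.2.2.2.2 + minY L), B, hb, ?_⟩
      apply Finset.eq_of_subset_of_card_le
      · intro c hc
        rw [hNL, List.mem_toFinset, List.mem_map] at hc
        obtain ⟨d, hd, rfl⟩ := hc
        have := h d hd
        rw [List.any_eq_true] at this
        obtain ⟨c', hc', he⟩ := this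
        rw [ceq_iff] at he
        rw [List.mem_map] at hc'
        obtain ⟨b, hb', hb''⟩ := hc'
        rw [Finset.mem_image]
        exact ⟨b, List.mem_toFinset.mpr hb', by rw [hb'', he]⟩
      · rw [hN]
        refine le_trans Finset.card_image_le ?_
        refine le_trans (List.toFinset_card_le B) ?_
        rw [bases_length B (List.mem_of_getElem? hb)]

theorem srch_sound (hN : N.card = 6)
    (hconn : ∀ c ∈ N, ∀ d ∈ N, Relation.ReflTransGen (fun a b => a ∈ N ∧ b ∈ N ∧ EdgeAdj a b) c d)
    (hR : Rolling N ν U V) (hσ : ∀ x, σ (5 - x) = -σ x) :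
    ∀ (n : ℕ) (L : List Node) (X : List (ℤ × ℤ)) (W : List Node), L ≠ [] →
    (∀ d ∈ L, d.1 ∈ N) → (∀ d ∈ L, Has ν U V σ d) → (L.map (fun d => d.1)).Nodup →
    (∀ x ∈ X, x ∉ N) → (∀ d ∈ W, d.1 ∈ N → Has ν U V σ d) →
    (∀ d ∈ L, ∀ c, EdgeAdj d.1 c → c ∈ N → (∃ e ∈ L, e.1 = c) ∨ ∃ e ∈ W, e.1 = c) →
    srch n L X W = true → IsCopy N := by
  intro n
  induction n with
  | zero => intro L X W _ _ _ _ _ _ _ h; simp [srch] at h
  | succ n ih =>
    intro L X W hne hLN hLH hnd hX hW hcl h
    have hle : L.length ≤ 6 := by
      have : (L.map (fun d => d.1)).toFinset ⊆ N := by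
        intro c hc
        rw [List.mem_toFinset, List.mem_map] at hc
        obtain ⟨d, hd, rfl⟩ := hc
        exact hLN d hd
      have := Finset.card_le_card this
      rw [List.toFinset_card_of_nodup hnd, List.length_map, hN] at this
      exact this
    unfold srch at h
    cases h6 : Nat.beq L.length 6 with
    | true =>
      rw [h6] at h
      simp only at h
      exact known_sound hN L (Nat.eq_of_beq_eq_true h6) hLN hnd h
    | false =>
      rw [h6] at h
      simp only at h
      have hlt : L.length < 6 := lt_of_le_of_ne hle (Nat.ne_of_beq_eq_false h6)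
      cases W with
      | nil =>
        exfalso
        -- all squares of N belong to L
        obtain ⟨d0, hd0⟩ := List.exists_mem_of_ne_nil L hne
        have hall : ∀ c ∈ N, ∃ e ∈ L, e.1 = c := by
          intro c hc
          have := hconn d0.1 (hLN d0 hd0) c hc
          induction this with
          | refl => exact ⟨d0, hd0, rfl⟩
          | tail _ hstep ih =>
            obtain ⟨ha, hb, hab⟩ := hstep
            obtain ⟨e, he, rfl⟩ := ih ha
            rcases hcl e he _ hab hb with h | ⟨e', he', _⟩
            · exact h
            · simp at he'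
        have : N ⊆ (L.map (fun d => d.1)).toFinset := by
          intro c hc
          obtain ⟨e, he, rfl⟩ := hall c hc
          rw [List.mem_toFinset]
          exact List.mem_map_of_mem he
        have := Finset.card_le_card this
        rw [List.toFinset_card_of_nodup hnd, List.length_map, hN] at this
        omega
      | cons d W' =>
        simp only at h
        cases hs : (X.any fun c => ceq c d.1) || (L.any fun e => ceq e.1 d.1) with
        | true =>
          rw [hs] at h
          simp only at h
          rw [Bool.or_eq_true, List.any_eq_true, List.any_eq_true] at hs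
          refine ih L X W' hne hLN hLH hnd hX (fun e he => hW e (List.mem_cons_of_mem _ he)) ?_ h
          intro e he c hc hcN
          rcases hcl e he c hc hcN with h1 | ⟨f, hf, hf'⟩
          · exact Or.inl h1
          · rcases List.mem_cons.mp hf with rfl | hf
            · rcases hs with ⟨x, hx, hx'⟩ | ⟨x, hx, hx'⟩
              · rw [ceq_iff] at hx'
                exfalso
                apply hX x hx
                rw [hx', hf']
                exact hcN
              · rw [ceq_iff] at hx'
                left
                exact ⟨x, hx, by rw [hx', hf']⟩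
            · exact Or.inr ⟨f, hf, hf'⟩
        | false =>
          rw [hs] at h
          simp only [Bool.and_eq_true] at h
          obtain ⟨h1, h2⟩ := h
          rw [Bool.or_eq_false_iff] at hs
          by_cases hdN : d.1 ∈ N
          · have hdH := hW d List.mem_cons_self hdN
            have hdL : ∀ e ∈ L, e.1 ≠ d.1 := by
              intro e he hee
              have := hs.2
              rw [List.any_eq_false] at this
              have := this e he
              rw [ceq_iff] at this
              exact this hee
            cases hb : L.any fun e => Nat.beq e.2.1 d.2.1 with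
            | true =>
              exfalso
              rw [List.any_eq_true] at hb
              obtain ⟨e, he, hee⟩ := hb
              have hee := Nat.eq_of_beq_eq_true hee
              apply hdL e he
              apply hR.inj e.1 (hLN e he) d.1 hdN
              rw [(hLH e he).1, hdH.1, hee]
            | false =>
              rw [hb] at h2
              simp only at h2
              refine ih (d :: L) X (nbrs d ++ W') (by simp) ?_ ?_ ?_ hX ?_ ?_ h2
              · intro e he
                rcases List.mem_cons.mp he with rfl | he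
                · exact hdN
                · exact hLN e he
              · intro e he
                rcases List.mem_cons.mp he with rfl | he
                · exact hdH
                · exact hLH e he
              · rw [List.map_cons, List.nodup_cons]
                refine ⟨?_, hnd⟩
                rw [List.mem_map]
                rintro ⟨e, he, hee⟩
                exact hdL e he hee
              · intro e he heN
                rcases List.mem_append.mp he with he | he
                · exact nbrs_has hR hσ d hdN hdH e he heN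
                · exact hW e (List.mem_cons_of_mem _ he) heN
              · intro e he c hc hcN
                rcases List.mem_cons.mp he with rfl | he
                · obtain ⟨f, hf, hf'⟩ := nbrs_cells e c hc
                  exact Or.inr ⟨f, List.mem_append_left _ hf, hf'⟩
                · rcases hcl e he c hc hcN with ⟨f, hf, hf'⟩ | ⟨f, hf, hf'⟩
                  · exact Or.inl ⟨f, List.mem_cons_of_mem _ hf, hf'⟩
                  · rcases List.mem_cons.mp hf with rfl | hf
                    · exact Or.inl ⟨f, List.mem_cons_self, hf'⟩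
                    · exact Or.inr ⟨f, List.mem_append_right _ hf, hf'⟩
          · refine ih L (d.1 :: X) W' hne hLN hLH hnd ?_
              (fun e he => hW e (List.mem_cons_of_mem _ he)) ?_ h1
            · intro x hx
              rcases List.mem_cons.mp hx with rfl | hx
              · exact hdN
              · exact hX x hx
            · intro e he c hc hcN
              rcases hcl e he c hc hcN with h3 | ⟨f, hf, hf'⟩
              · exact Or.inl h3
              · rcases List.mem_cons.mp hf with rfl | hf
                · exfalso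
                  apply hdN
                  rw [hf']
                  exact hcN
                · exact Or.inr ⟨f, hf, hf'⟩

theorem isCopy_of_rolling_zero (hN : N.card = 6) (h0 : ((0, 0) : ℤ × ℤ) ∈ N)
    (hconn : ∀ c ∈ N, ∀ d ∈ N, Relation.ReflTransGen (fun a b => a ∈ N ∧ b ∈ N ∧ EdgeAdj a b) c d)
    (hR : Rolling N ν U V) : IsCopy N := by
  classical
  set σ : ℕ → M := fun x => match x with
    | 0 => ν (0, 0)
    | 1 => U (0, 0)
    | 2 => V (0, 0)
    | 3 => -V (0, 0)
    | 4 => -U (0, 0)
    | _ => -ν (0, 0) with hσdef
  have hσ : ∀ x, σ (5 - x) = -σ x := by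
    intro x
    match x with
    | 0 => rfl
    | 1 => rfl
    | 2 => rfl
    | 3 => exact (neg_neg _).symm
    | 4 => exact (neg_neg _).symm
    | 5 => exact (neg_neg _).symm
    | (n + 6) =>
      have : 5 - (n + 6) = 0 := by omega
      rw [this]
      exact (neg_neg _).symm
  have hroot : Has ν U V σ rootNode := ⟨rfl, rfl, rfl⟩
  apply srch_sound hN hconn hR hσ 26 [rootNode] [] (nbrs rootNode) (by simp) ?_ ?_ (by simp)
    (by simp) ?_ ?_ srch_ok
  · intro d hd
    rw [List.mem_singleton] at hd
    rw [hd]; exact h0
  · intro d hd
    rw [List.mem_singleton] at hd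
    rw [hd]; exact hroot
  · intro d hd hdN
    exact nbrs_has hR hσ rootNode h0 hroot d hd hdN
  · intro d hd c hc hcN
    rw [List.mem_singleton] at hd
    rw [hd] at hc
    exact Or.inr (nbrs_cells rootNode c hc)

end

/-- Classification: a rolling of a cube over six squares, each face used once, takes place on a
copy of one of the eleven nets. -/
theorem exists_rel_of_rolling {M : Type*} [InvolutiveNeg M] {N : Finset (ℤ × ℤ)}
    {ν U V : ℤ × ℤ → M} (hN : N.card = 6)
    (hconn : ∀ c ∈ N, ∀ d ∈ N, Relation.ReflTransGen (fun a b => a ∈ N ∧ b ∈ N ∧ EdgeAdj a b) c d)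
    (hR : Rolling N ν U V) :
    ∃ (j : ℕ) (B : List (ℤ × ℤ)), bases[j]? = some B ∧ Rel B.toFinset N := by
  classical
  have hne : N.Nonempty := by
    rw [← Finset.card_pos]; omega
  obtain ⟨c0, hc0⟩ := hne
  set e : ℤ × ℤ ≃ ℤ × ℤ := Equiv.addRight (-c0) with he
  have hes : ∀ c, e.symm c = c + c0 := by
    intro c
    rw [he]
    simp [Equiv.addRight_symm]
  have hmem : ∀ c, c ∈ N.map e.toEmbedding ↔ c + c0 ∈ N := by
    intro c
    rw [Finset.mem_map_equiv, hes]
  have hcopy : IsCopy (N.map e.toEmbedding) := by
    apply isCopy_of_rolling_zero (ν := fun c => ν (c + c0)) (U := fun c => U (c + c0))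
      (V := fun c => V (c + c0))
    · rw [Finset.card_map]; exact hN
    · rw [hmem]
      have : ((0, 0) : ℤ × ℤ) + c0 = c0 := zero_add c0
      rw [this]
      exact hc0
    · intro c hc d hd
      rw [Finset.mem_map] at hc hd
      obtain ⟨c, hc, rfl⟩ := hc
      obtain ⟨d, hd, rfl⟩ := hd
      refine (hconn c hc d hd).lift (fun x => e.toEmbedding x) ?_
      rintro a b ⟨ha, hb, hab⟩
      refine ⟨Finset.mem_map_of_mem _ ha, Finset.mem_map_of_mem _ hb, ?_⟩
      unfold EdgeAdj at *
      simp only [he, Equiv.coe_toEmbedding, Equiv.coe_addRight, Prod.fst_add, Prod.snd_add]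
      omega
    · constructor
      · intro c hc hc'
        rw [hmem] at hc hc'
        have e1 : ((c.1 + 1, c.2) : ℤ × ℤ) + c0 = ((c + c0).1 + 1, (c + c0).2) := by
          ext
          · simp only [Prod.fst_add]; ring
          · simp only [Prod.snd_add]
        rw [e1] at hc' ⊢
        exact hR.east _ hc hc'
      · intro c hc hc'
        rw [hmem] at hc hc'
        have e1 : ((c.1, c.2 + 1) : ℤ × ℤ) + c0 = ((c + c0).1, (c + c0).2 + 1) := by
          ext
          · simp only [Prod.fst_add]
          · simp only [Prod.snd_add]; ring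
        rw [e1] at hc' ⊢
        exact hR.north _ hc hc'
      · intro c hc d hd hcd
        rw [hmem] at hc hd
        have := hR.inj _ hc _ hd hcd
        exact add_right_cancel this
  obtain ⟨j, k, t, B, hB, hNB⟩ := hcopy
  refine ⟨j, B, hB, (rel_of_act _ _ k t hNB).trans ?_⟩
  apply Rel.symm
  refine ⟨trIso (-c0), ?_⟩
  rfl

end Pool.Agent.Helper72.RepCube
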