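import Mathlib

/-!
Definitions for the rep-cube problem: polyominoes, foldings of plane figures onto the surface of a
cube, edge nets of the unit cube, uniform rep-cubes.
-/

namespace Pool.Agent.Helper72.RepCube

/-- The Euclidean plane. -/
abbrev Plane := EuclideanSpace ℝ (Fin 2)

/-- Euclidean three-space. -/
abbrev Space := EuclideanSpace ℝ (Fin 3)

/-- The closed unit square of the integer grid whose lower left corner is `c`. -/
def cell (c : ℤ × ℤ) : Set Plane :=
  {p | (c.1 : ℝ) ≤ p 0 ∧ p 0 ≤ c.1 + 1 ∧ (c.2 : ℝ) ≤ p 1 ∧ p 1 ≤ c.2 + 1}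

/-- The closed plane figure made of the unit squares in `S`. -/
def region (S : Finset (ℤ × ℤ)) : Set Plane := ⋃ c ∈ S, cell c

/-- Two unit squares of the grid share an edge. -/
def EdgeAdj (c d : ℤ × ℤ) : Prop :=
  (c.2 = d.2 ∧ (d.1 = c.1 + 1 ∨ c.1 = d.1 + 1)) ∨ (c.1 = d.1 ∧ (d.2 = c.2 + 1 ∨ c.2 = d.2 + 1))

/-- `S` is (the set of unit squares of) a polyomino: nonempty, any two of its squares are joined by
a chain of squares of `S` in which consecutive squares share an edge, and the boundary of the plane
figure is a simple closed curve (the range of an injective continuous map from the circle). -/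
def IsPolyomino (S : Finset (ℤ × ℤ)) : Prop :=
  S.Nonempty ∧
  (∀ c ∈ S, ∀ d ∈ S, Relation.ReflTransGen (fun a b => a ∈ S ∧ b ∈ S ∧ EdgeAdj a b) c d) ∧
  ∃ γ : Circle → Plane, Continuous γ ∧ Function.Injective γ ∧
    Set.range γ = frontier (region S)

/-- The surface of the cube `[0, s]³`. -/
def cubeSurface (s : ℝ) : Set Space :=
  {x | (∀ i, 0 ≤ x i ∧ x i ≤ s) ∧ ∃ i, x i = 0 ∨ x i = s}

/-- `F` folds the plane figure `P` onto the surface of the cube `[0, s]³`, covering it exactly once
without overlap: `F` is continuous on `P`, maps `P` onto the surface, is injective on the interior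
of `P`, and `P` is the union of finitely many convex polygons on each of which `F` preserves
distances (the creases are the common edges of these polygons; they need not follow grid lines). -/
def IsFolding (F : Plane → Space) (P : Set Plane) (s : ℝ) : Prop :=
  ContinuousOn F P ∧ F '' P = cubeSurface s ∧ Set.InjOn F (interior P) ∧
  ∃ T : Finset (Set Plane), (⋃ t ∈ T, t) = P ∧
    ∀ t ∈ T, (∃ V : Finset Plane, t = convexHull ℝ (V : Set Plane)) ∧
      ∀ p ∈ t, ∀ q ∈ t, dist (F p) (F q) = dist p q

/-- The polyomino `S` is a net of some cube (of edge length `s > 0`). -/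
def IsCubeNet (S : Finset (ℤ × ℤ)) : Prop :=
  ∃ s : ℝ, 0 < s ∧ ∃ F : Plane → Space, IsFolding F (region S) s

/-- Congruence of the plane figures of two sets of unit squares (reflections allowed). -/
def Congruent (S S' : Finset (ℤ × ℤ)) : Prop :=
  ∃ g : Plane ≃ᵢ Plane, g '' region S = region S'

/-- The face `x i = ε` (`ε = 0` or `ε = 1`) of the unit cube. -/
def face (i : Fin 3) (ε : ℝ) : Set Space :=
  {x | (∀ j, 0 ≤ x j ∧ x j ≤ 1) ∧ x i = ε}

/-- `N` is an edge net of the unit cube: a hexomino that folds onto the surface of the unit cube in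
such a way that every unit square of `N` is mapped isometrically onto a face (so the cube was cut
only along its edges). -/
def IsEdgeNet (N : Finset (ℤ × ℤ)) : Prop :=
  IsPolyomino N ∧ N.card = 6 ∧ ∃ F : Plane → Space, IsFolding F (region N) 1 ∧
    ∀ c ∈ N, (∀ p ∈ cell c, ∀ q ∈ cell c, dist (F p) (F q) = dist p q) ∧
      ∃ i : Fin 3, ∃ ε : ℝ, (ε = 0 ∨ ε = 1) ∧ F '' cell c = face i ε

/-- `P` is a uniform rep-cube of order `k` for `N`: `k ≥ 2`, `P` is a polyomino that is a net of
some cube, and `P` is partitioned into `k` polyominoes, each of which is a net of some cube and is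
congruent to `N`. -/
def IsUniformRepCube (N P : Finset (ℤ × ℤ)) (k : ℕ) : Prop :=
  2 ≤ k ∧ IsPolyomino P ∧ IsCubeNet P ∧
  ∃ Q : Fin k → Finset (ℤ × ℤ),
    (∀ i j, i ≠ j → Disjoint (Q i) (Q j)) ∧ (Finset.univ.biUnion Q = P) ∧
    ∀ i, IsPolyomino (Q i) ∧ IsCubeNet (Q i) ∧ Congruent (Q i) N

end Pool.Agent.Helper72.RepCube
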