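import Pool.Agent.Helper72.RepCube.ClassifySound

/-!
From the geometric definition of an edge net of the cube to a rolling cube.
-/

namespace Pool.Agent.Helper72.RepCube

/-- Squared distance in coordinates. -/
def d2 (x y : Fin 3 → ℝ) : ℝ := (x 0 - y 0) ^ 2 + (x 1 - y 1) ^ 2 + (x 2 - y 2) ^ 2

theorem d2_dist (x y : Space) : d2 x y = dist x y ^ 2 := by
  rw [EuclideanSpace.dist_eq, Real.sq_sqrt (by positivity), Fin.sum_univ_three]
  simp only [Real.dist_eq, sq_abs]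
  rfl

/-- Outward normal of the face `x i = ε` of the unit cube. -/
def nrm (i : Fin 3) (ε : ℝ) : Fin 3 → ℝ := fun j => if j = i then 2 * ε - 1 else 0

/-- The face `x i = ε` in coordinates. -/
def Fc (i : Fin 3) (ε : ℝ) (x : Fin 3 → ℝ) : Prop := (∀ j, 0 ≤ x j ∧ x j ≤ 1) ∧ x i = ε

theorem third (i i' : Fin 3) (h : i ≠ i') : ∃ k : Fin 3, k ≠ i ∧ k ≠ i' ∧
    (∀ j, j = i ∨ j = i' ∨ j = k) ∧ ∀ x y : Fin 3 → ℝ,
      d2 x y = (x i - y i) ^ 2 + (x i' - y i') ^ 2 + (x k - y k) ^ 2 := by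
  unfold d2
  fin_cases i <;> fin_cases i'
  · exact absurd rfl h
  · exact ⟨2, by decide, by decide, by decide, fun x y => by simp⟩
  · exact ⟨1, by decide, by decide, by decide, fun x y => by simp; ring⟩
  · exact ⟨2, by decide, by decide, by decide, fun x y => by simp; ring⟩
  · exact absurd rfl h
  · exact ⟨0, by decide, by decide, by decide, fun x y => by simp; ring⟩
  · exact ⟨1, by decide, by decide, by decide, fun x y => by simp; ring⟩
  · exact ⟨0, by decide, by decide, by decide, fun x y => by simp; ring⟩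
  · exact absurd rfl h

theorem two_others (i : Fin 3) : ∃ j k : Fin 3, j ≠ i ∧ k ≠ i ∧
    (∀ l, l = i ∨ l = j ∨ l = k) ∧ ∀ x y : Fin 3 → ℝ,
      d2 x y = (x i - y i) ^ 2 + (x j - y j) ^ 2 + (x k - y k) ^ 2 := by
  have : ∃ j : Fin 3, i ≠ j := by
    fin_cases i
    · exact ⟨1, by decide⟩
    · exact ⟨0, by decide⟩
    · exact ⟨0, by decide⟩
  obtain ⟨j, hj⟩ := this
  obtain ⟨k, h1, h2, h3, h4⟩ := third i j hj
  exact ⟨j, k, hj.symm, h1, h3, h4⟩

theorem plane_lemma (x b e y ε : ℝ) (hbe : (b - e) ^ 2 = 1) (h1 : (y - ε) ^ 2 + (x - b) ^ 2 = 1)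
    (h2 : (y - ε) ^ 2 + (x - e) ^ 2 = 2) (hy0 : 0 ≤ y) (hy1 : y ≤ 1) (hε : ε = 0 ∨ ε = 1) :
    x = b ∧ y = 1 - ε := by
  have h3 : (x - b) * (b - e) = 0 := by nlinarith
  have h4 : b - e ≠ 0 := by
    intro h
    rw [h] at hbe
    norm_num at hbe
  have h5 : x = b := by
    rcases mul_eq_zero.mp h3 with h | h
    · linarith
    · exact absurd h h4
  refine ⟨h5, ?_⟩
  subst h5
  rcases hε with rfl | rfl
  · nlinarith
  · nlinarith

theorem roll_lemma (i i' : Fin 3) (ε ε' : ℝ) (hε : ε = 0 ∨ ε = 1) (hε' : ε' = 0 ∨ ε' = 1)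
    (A B D E B' : Fin 3 → ℝ) (hA : Fc i ε A) (hB : Fc i ε B) (hD : Fc i ε D) (hE : Fc i ε E)
    (gB : Fc i' ε' B) (gE : Fc i' ε' E) (gB' : Fc i' ε' B') (hne : ¬ (i = i' ∧ ε = ε'))
    (hAB : d2 A B = 1) (hAE : d2 A E = 2) (hDB : d2 D B = 2) (hBE : d2 B E = 1) (hDE : d2 D E = 1)
    (hBB' : d2 B' B = 1) (hEB' : d2 B' E = 2) :
    (∀ j, B j - A j = nrm i' ε' j) ∧ (∀ j, B' j - B j = - nrm i ε j) ∧
      (∀ j, E j - B j = D j - A j) := by
  have hii : i ≠ i' := by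
    intro h
    apply hne
    refine ⟨h, ?_⟩
    rw [← hB.2, h, gB.2]
  obtain ⟨k, k1, k2, k3, k4⟩ := third i i' hii
  rw [k4] at hAB hAE hDB hBE hDE hBB' hEB'
  rw [hA.2, hB.2, gB.2] at hAB
  rw [hA.2, hE.2, gE.2] at hAE
  rw [hD.2, hB.2, gB.2] at hDB
  rw [hB.2, hE.2, gB.2, gE.2] at hBE
  rw [hD.2, hE.2, gE.2] at hDE
  rw [hB.2, gB'.2, gB.2] at hBB'
  rw [hE.2, gB'.2, gE.2] at hEB'
  have hbe : (B k - E k) ^ 2 = 1 := by linarith
  have heb : (E k - B k) ^ 2 = 1 := by linarith [hbe, (by ring : (E k - B k) ^ 2 = (B k - E k) ^ 2)]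
  obtain ⟨a1, a2⟩ := plane_lemma (A k) (B k) (E k) (A i') ε' hbe (by linarith) (by linarith)
    (hA.1 i').1 (hA.1 i').2 hε'
  obtain ⟨b1, b2⟩ := plane_lemma (B' k) (B k) (E k) (B' i) ε hbe (by linarith) (by linarith)
    (gB'.1 i).1 (gB'.1 i).2 hε
  obtain ⟨c1, c2⟩ := plane_lemma (D k) (E k) (B k) (D i') ε' heb (by linarith) (by linarith)
    (hD.1 i').1 (hD.1 i').2 hε'
  refine ⟨?_, ?_, ?_⟩
  · intro j
    unfold nrm
    rcases k3 j with h | h | h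
    · rw [h, if_neg hii, hA.2, hB.2]; ring
    · rw [h, if_pos rfl, gB.2, a2]; ring
    · rw [h, if_neg k2, a1]; ring
  · intro j
    unfold nrm
    rcases k3 j with h | h | h
    · rw [h, if_pos rfl, hB.2, b2]; ring
    · rw [h, if_neg hii.symm, gB.2, gB'.2]; ring
    · rw [h, if_neg k1, b1]; ring
  · intro j
    rcases k3 j with h | h | h
    · rw [h, hA.2, hB.2, hD.2, hE.2]
    · rw [h, gB.2, gE.2, a2, c2]; ring
    · rw [h, a1, c1]

theorem centre_lemma (i : Fin 3) (ε : ℝ) (A E Z : Fin 3 → ℝ) (hA : Fc i ε A) (hE : Fc i ε E)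
    (hZ : Fc i ε Z) (hAE : d2 A E = 2) (hZA : d2 Z A = 1 / 2) (hZE : d2 Z E = 1 / 2) :
    ∀ j, Z j = if j = i then ε else 1 / 2 := by
  obtain ⟨j, k, hj, hk, hall, hd⟩ := two_others i
  rw [hd] at hAE hZA hZE
  rw [hA.2, hE.2] at hAE
  rw [hZ.2, hA.2] at hZA
  rw [hZ.2, hE.2] at hZE
  have one : ∀ a e : ℝ, 0 ≤ a → a ≤ 1 → 0 ≤ e → e ≤ 1 → (a - e) ^ 2 ≤ 1 := by
    intro a e h1 h2 h3 h4
    nlinarith
  have two : ∀ a e : ℝ, 0 ≤ a → a ≤ 1 → 0 ≤ e → e ≤ 1 → (a - e) ^ 2 = 1 →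
      a + e = 1 ∧ a * e = 0 := by
    intro a e h1 h2 h3 h4 h5
    have h6 : (a - e - 1) * (a - e + 1) = 0 := by linarith [h5, (by ring : (a - e - 1) * (a - e + 1) = (a - e) ^ 2 - 1)]
    rcases mul_eq_zero.mp h6 with h | h
    · have ha : a = 1 := by linarith
      have he : e = 0 := by linarith
      rw [ha, he]; norm_num
    · have ha : a = 0 := by linarith
      have he : e = 1 := by linarith
      rw [ha, he]; norm_num
  have j1 := one (A j) (E j) (hA.1 j).1 (hA.1 j).2 (hE.1 j).1 (hE.1 j).2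
  have k1 := one (A k) (E k) (hA.1 k).1 (hA.1 k).2 (hE.1 k).1 (hE.1 k).2
  obtain ⟨j2, j3⟩ := two (A j) (E j) (hA.1 j).1 (hA.1 j).2 (hE.1 j).1 (hE.1 j).2 (by linarith)
  obtain ⟨k2, k3⟩ := two (A k) (E k) (hA.1 k).1 (hA.1 k).2 (hE.1 k).1 (hE.1 k).2 (by linarith)
  have hsum : (Z j - 1 / 2) ^ 2 + (Z k - 1 / 2) ^ 2 = 0 := by
    have ej : E j = 1 - A j := by linarith
    have ek : E k = 1 - A k := by linarith
    rw [ej] at j3
    rw [ek] at k3
    rw [ej, ek] at hZE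
    nlinarith
  have zj : Z j = 1 / 2 := by nlinarith [sq_nonneg (Z j - 1 / 2), sq_nonneg (Z k - 1 / 2)]
  have zk : Z k = 1 / 2 := by nlinarith [sq_nonneg (Z j - 1 / 2), sq_nonneg (Z k - 1 / 2)]
  intro l
  rcases hall l with h | h | h
  · rw [h, if_pos rfl, hZ.2]
  · rw [h, if_neg hj, zj]
  · rw [h, if_neg hk, zk]

/-- The lattice point `c` of the plane. -/
noncomputable def lat (c : ℤ × ℤ) : Plane := !₂[(c.1 : ℝ), (c.2 : ℝ)]

/-- The centre of the unit square `c`. -/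
noncomputable def ctr (c : ℤ × ℤ) : Plane := !₂[(c.1 : ℝ) + 1 / 2, (c.2 : ℝ) + 1 / 2]

theorem lat_mem (c : ℤ × ℤ) : lat c ∈ cell c ∧ lat (c.1 + 1, c.2) ∈ cell c ∧
    lat (c.1, c.2 + 1) ∈ cell c ∧ lat (c.1 + 1, c.2 + 1) ∈ cell c ∧ ctr c ∈ cell c := by
  refine ⟨⟨?_, ?_, ?_, ?_⟩, ⟨?_, ?_, ?_, ?_⟩, ⟨?_, ?_, ?_, ?_⟩, ⟨?_, ?_, ?_, ?_⟩,
    ⟨?_, ?_, ?_, ?_⟩⟩ <;> simp [lat, ctr] <;> norm_num

theorem dist_sq_plane (p q : Plane) : dist p q ^ 2 = (p 0 - q 0) ^ 2 + (p 1 - q 1) ^ 2 := by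
  rw [EuclideanSpace.dist_eq, Real.sq_sqrt (by positivity), Fin.sum_univ_two]
  simp only [Real.dist_eq, sq_abs]

theorem rolling_of_edgeNet (N : Finset (ℤ × ℤ)) (F : Plane → Space)
    (hF : IsFolding F (region N) 1)
    (hN : ∀ c ∈ N, (∀ p ∈ cell c, ∀ q ∈ cell c, dist (F p) (F q) = dist p q) ∧
      ∃ i : Fin 3, ∃ ε : ℝ, (ε = 0 ∨ ε = 1) ∧ F '' cell c = face i ε) :
    ∃ ν U V : ℤ × ℤ → (Fin 3 → ℝ), Rolling N ν U V := by
  classical
  have hch : ∃ ι : ℤ × ℤ → Fin 3, ∃ η : ℤ × ℤ → ℝ, ∀ c ∈ N, (η c = 0 ∨ η c = 1) ∧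
      F '' cell c = face (ι c) (η c) := by
    have : ∀ c : ℤ × ℤ, ∃ z : Fin 3 × ℝ, c ∈ N → (z.2 = 0 ∨ z.2 = 1) ∧
        F '' cell c = face z.1 z.2 := by
      intro c
      by_cases hc : c ∈ N
      · obtain ⟨_, i, ε, h1, h2⟩ := hN c hc
        exact ⟨(i, ε), fun _ => ⟨h1, h2⟩⟩
      · exact ⟨(0, 0), fun h => absurd h hc⟩
    choose z hz using this
    exact ⟨fun c => (z c).1, fun c => (z c).2, hz⟩
  obtain ⟨ι, η, hιη⟩ := hch
  have hFc : ∀ c ∈ N, ∀ p ∈ cell c, Fc (ι c) (η c) (F p) := by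
    intro c hc p hp
    have : F p ∈ face (ι c) (η c) := by
      rw [← (hιη c hc).2]
      exact ⟨p, hp, rfl⟩
    exact this
  have hd : ∀ c ∈ N, ∀ p ∈ cell c, ∀ q ∈ cell c,
      d2 (F p) (F q) = (p 0 - q 0) ^ 2 + (p 1 - q 1) ^ 2 := by
    intro c hc p hp q hq
    rw [d2_dist, (hN c hc).1 p hp q hq, dist_sq_plane]
  -- different squares lie on different faces
  have hdiff : ∀ c ∈ N, ∀ d ∈ N, ι c = ι d → η c = η d → c = d := by
    intro c hc d hd' hι hη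
    have hctr : ∀ c ∈ N, ∀ j, F (ctr c) j = if j = ι c then η c else 1 / 2 := by
      intro c hc
      obtain ⟨m1, m2, m3, m4, m5⟩ := lat_mem c
      apply centre_lemma (ι c) (η c) (F (lat c)) (F (lat (c.1 + 1, c.2 + 1))) (F (ctr c))
        (hFc c hc _ m1) (hFc c hc _ m4) (hFc c hc _ m5)
      · rw [hd c hc _ m1 _ m4]
        simp [lat]; norm_num
      · rw [hd c hc _ m5 _ m1]
        simp [lat, ctr]; norm_num
      · rw [hd c hc _ m5 _ m4]
        simp [lat, ctr]; norm_num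
    have heq : F (ctr c) = F (ctr d) := by
      ext j
      rw [hctr c hc j, hctr d hd' j, hι, hη]
    have hint : ∀ c ∈ N, ctr c ∈ interior (region N) := by
      intro c hc
      rw [interior_region_iff]
      intro e he
      have hK : K (ctr c) = (2 * c.1 + 1, 2 * c.2 + 1) := by
        unfold K ctr
        have e1 : kap ((c.1 : ℝ) + 1 / 2) = 2 * c.1 + 1 := by
          rw [kap_odd]; constructor <;> linarith
        have e2 : kap ((c.2 : ℝ) + 1 / 2) = 2 * c.2 + 1 := by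
          rw [kap_odd]; constructor <;> linarith
        ext
        · simpa using e1
        · simpa using e2
      rw [hK] at he
      obtain ⟨a1, a2, a3, a4⟩ := he
      simp only at a1 a2 a3 a4
      have : e = c := by
        ext <;> omega
      rw [this]; exact hc
    have hcc := hF.2.2.1 (hint c hc) (hint d hd') heq
    have x0 : (ctr c) 0 = (ctr d) 0 := by rw [hcc]
    have x1 : (ctr c) 1 = (ctr d) 1 := by rw [hcc]
    simp [ctr] at x0 x1
    exact Prod.ext x0 x1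
  refine ⟨fun c => nrm (ι c) (η c), fun c => fun j => F (lat (c.1 + 1, c.2)) j - F (lat c) j,
    fun c => fun j => F (lat (c.1, c.2 + 1)) j - F (lat c) j, ?_, ?_, ?_⟩
  · intro c hc hc'
    obtain ⟨m1, m2, m3, m4, m5⟩ := lat_mem c
    obtain ⟨n1, n2, n3, n4, n5⟩ := lat_mem (c.1 + 1, c.2)
    simp only at n1 n2 n3 n4 n5
    have hne : ¬ (ι c = ι (c.1 + 1, c.2) ∧ η c = η (c.1 + 1, c.2)) := by
      rintro ⟨h1, h2⟩
      have := hdiff c hc _ hc' h1 h2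
      have := congrArg Prod.fst this
      simp only at this
      omega
    obtain ⟨r1, r2, r3⟩ := roll_lemma (ι c) (ι (c.1 + 1, c.2)) (η c) (η (c.1 + 1, c.2))
      (hιη c hc).1 (hιη _ hc').1 (F (lat c)) (F (lat (c.1 + 1, c.2))) (F (lat (c.1, c.2 + 1)))
      (F (lat (c.1 + 1, c.2 + 1))) (F (lat (c.1 + 1 + 1, c.2)))
      (hFc c hc _ m1) (hFc c hc _ m2) (hFc c hc _ m3) (hFc c hc _ m4) (hFc _ hc' _ n1)
      (hFc _ hc' _ n3) (hFc _ hc' _ n2) hne
      (by rw [hd c hc _ m1 _ m2]; simp [lat])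
      (by rw [hd c hc _ m1 _ m4]; simp [lat]; norm_num)
      (by rw [hd c hc _ m3 _ m2]; simp [lat]; norm_num)
      (by rw [hd c hc _ m2 _ m4]; simp [lat])
      (by rw [hd c hc _ m3 _ m4]; simp [lat])
      (by rw [hd _ hc' _ n2 _ n1]; simp [lat])
      (by rw [hd _ hc' _ n2 _ n3]; simp [lat]; norm_num)
    refine ⟨?_, ?_, ?_⟩
    · funext j
      exact (r1 j).symm
    · funext j
      exact r2 j
    · funext j
      exact r3 j
  · intro c hc hc'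
    obtain ⟨m1, m2, m3, m4, m5⟩ := lat_mem c
    obtain ⟨n1, n2, n3, n4, n5⟩ := lat_mem (c.1, c.2 + 1)
    simp only at n1 n2 n3 n4 n5
    have hne : ¬ (ι c = ι (c.1, c.2 + 1) ∧ η c = η (c.1, c.2 + 1)) := by
      rintro ⟨h1, h2⟩
      have := hdiff c hc _ hc' h1 h2
      have := congrArg Prod.snd this
      simp only at this
      omega
    obtain ⟨r1, r2, r3⟩ := roll_lemma (ι c) (ι (c.1, c.2 + 1)) (η c) (η (c.1, c.2 + 1))
      (hιη c hc).1 (hιη _ hc').1 (F (lat c)) (F (lat (c.1, c.2 + 1))) (F (lat (c.1 + 1, c.2)))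
      (F (lat (c.1 + 1, c.2 + 1))) (F (lat (c.1, c.2 + 1 + 1)))
      (hFc c hc _ m1) (hFc c hc _ m3) (hFc c hc _ m2) (hFc c hc _ m4) (hFc _ hc' _ n1)
      (hFc _ hc' _ n2) (hFc _ hc' _ n3) hne
      (by rw [hd c hc _ m1 _ m3]; simp [lat])
      (by rw [hd c hc _ m1 _ m4]; simp [lat]; norm_num)
      (by rw [hd c hc _ m2 _ m3]; simp [lat]; norm_num)
      (by rw [hd c hc _ m3 _ m4]; simp [lat])
      (by rw [hd c hc _ m2 _ m4]; simp [lat])
      (by rw [hd _ hc' _ n3 _ n1]; simp [lat])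
      (by rw [hd _ hc' _ n3 _ n2]; simp [lat]; norm_num)
    refine ⟨?_, ?_, ?_⟩
    · funext j
      exact (r1 j).symm
    · funext j
      exact r2 j
    · funext j
      exact r3 j
  · intro c hc d hd' hcd
    have hcd : nrm (ι c) (η c) = nrm (ι d) (η d) := hcd
    have h1 := congrFun hcd (ι c)
    unfold nrm at h1
    rw [if_pos rfl] at h1
    by_cases hι : ι c = ι d
    · rw [if_pos hι] at h1
      exact hdiff c hc d hd' hι (by linarith)
    · rw [if_neg hι] at h1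
      exfalso
      rcases (hιη c hc).1 with h | h <;> rw [h] at h1 <;> norm_num at h1

/-- Every edge net of the cube is a copy of one of the eleven nets of the list `bases`. -/
theorem edgeNet_rel (N : Finset (ℤ × ℤ)) (h : IsEdgeNet N) :
    ∃ (j : ℕ) (B : List (ℤ × ℤ)), bases[j]? = some B ∧ Rel B.toFinset N := by
  obtain ⟨h1, h2, F, hF, hN⟩ := h
  obtain ⟨ν, U, V, hR⟩ := rolling_of_edgeNet N F hF hN
  exact exists_rel_of_rolling h2 h1.2.1 hR

end Pool.Agent.Helper72.RepCube
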