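import Pool.Agent.Helper72.RepCube.Geom

/-!
Foldings of polyominoes onto the surface of the cube `[0, a]³` along grid lines, given by integer
labels (points of `ℤ³`) of the lattice points.
-/

namespace Pool.Agent.Helper72.RepCube

/-- Labels of the four corners of a unit square that is folded isometrically along the axes. -/
structure GoodLabels (A B D E : Fin 3 → ℤ) : Prop where
  par : ∀ l, E l = B l + D l - A l
  hu : ∀ l, B l - A l = -1 ∨ B l - A l = 0 ∨ B l - A l = 1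
  hv : ∀ l, D l - A l = -1 ∨ D l - A l = 0 ∨ D l - A l = 1
  huv : ∀ l, B l - A l = 0 ∨ D l - A l = 0
  su : (B 0 - A 0) ^ 2 + (B 1 - A 1) ^ 2 + (B 2 - A 2) ^ 2 = 1
  sv : (D 0 - A 0) ^ 2 + (D 1 - A 1) ^ 2 + (D 2 - A 2) ^ 2 = 1

/-- The map that interpolates the labels of the lattice points bilinearly. -/
noncomputable def foldMap (ψ : ℤ × ℤ → Fin 3 → ℤ) (p : Plane) : Space :=
  WithLp.toLp 2 (fun l =>
    (1 - Int.fract (p 0)) * (1 - Int.fract (p 1)) * (ψ (⌊p 0⌋, ⌊p 1⌋) l : ℝ)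
    + Int.fract (p 0) * (1 - Int.fract (p 1)) * (ψ (⌊p 0⌋ + 1, ⌊p 1⌋) l : ℝ)
    + (1 - Int.fract (p 0)) * Int.fract (p 1) * (ψ (⌊p 0⌋, ⌊p 1⌋ + 1) l : ℝ)
    + Int.fract (p 0) * Int.fract (p 1) * (ψ (⌊p 0⌋ + 1, ⌊p 1⌋ + 1) l : ℝ))

theorem floor_cases (t : ℝ) (c : ℤ) (h1 : (c : ℝ) ≤ t) (h2 : t ≤ c + 1) :
    (⌊t⌋ = c ∧ Int.fract t = t - c) ∨ (t = c + 1 ∧ ⌊t⌋ = c + 1 ∧ Int.fract t = 0) := by
  rcases lt_or_eq_of_le h2 with h | h
  · left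
    have : ⌊t⌋ = c := Int.floor_eq_iff.mpr ⟨h1, h⟩
    refine ⟨this, ?_⟩
    unfold Int.fract
    rw [this]
  · right
    have : ⌊t⌋ = c + 1 := by
      rw [Int.floor_eq_iff]
      push_cast
      constructor <;> linarith
    refine ⟨h, this, ?_⟩
    unfold Int.fract
    rw [this, h]
    push_cast
    ring

theorem foldMap_on_cell (ψ : ℤ × ℤ → Fin 3 → ℤ) (c : ℤ × ℤ) (p : Plane) (hp : p ∈ cell c)
    (hpar : ∀ l, ψ (c.1 + 1, c.2 + 1) l = ψ (c.1 + 1, c.2) l + ψ (c.1, c.2 + 1) l - ψ c l)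
    (l : Fin 3) :
    (foldMap ψ p) l = (ψ c l : ℝ) + (p 0 - c.1) * ((ψ (c.1 + 1, c.2) l - ψ c l : ℤ) : ℝ)
      + (p 1 - c.2) * ((ψ (c.1, c.2 + 1) l - ψ c l : ℤ) : ℝ) := by
  obtain ⟨h1, h2, h3, h4⟩ := hp
  have e : (ψ (c.1 + 1, c.2 + 1) l : ℝ) = ψ (c.1 + 1, c.2) l + ψ (c.1, c.2 + 1) l - ψ c l := by
    have := hpar l
    exact_mod_cast this
  have hc : c = (c.1, c.2) := rfl
  unfold foldMap
  show (1 - Int.fract (p 0)) * (1 - Int.fract (p 1)) * (ψ (⌊p 0⌋, ⌊p 1⌋) l : ℝ)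
    + Int.fract (p 0) * (1 - Int.fract (p 1)) * (ψ (⌊p 0⌋ + 1, ⌊p 1⌋) l : ℝ)
    + (1 - Int.fract (p 0)) * Int.fract (p 1) * (ψ (⌊p 0⌋, ⌊p 1⌋ + 1) l : ℝ)
    + Int.fract (p 0) * Int.fract (p 1) * (ψ (⌊p 0⌋ + 1, ⌊p 1⌋ + 1) l : ℝ) = _
  rcases floor_cases (p 0) c.1 h1 h2 with ⟨a1, a2⟩ | ⟨a0, a1, a2⟩ <;>
  rcases floor_cases (p 1) c.2 h3 h4 with ⟨b1, b2⟩ | ⟨b0, b1, b2⟩
  · rw [a1, a2, b1, b2, e]; push_cast; ring
  · rw [a1, a2, b1, b2, b0, e]; push_cast; ring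
  · rw [a1, a2, b1, b2, a0, e]; push_cast; ring
  · rw [a1, a2, b1, b2, a0, b0, e]; push_cast; ring

/-- Doubled labels of the grid elements. -/
def dbl (ψ : ℤ × ℤ → Fin 3 → ℤ) (X : ℤ × ℤ) (l : Fin 3) : ℤ :=
  ψ (X.1 / 2, X.2 / 2) l + ψ ((X.1 + 1) / 2, (X.2 + 1) / 2) l

theorem kap_lin (m v : ℤ) (s : ℝ) (hv : v = -1 ∨ v = 0 ∨ v = 1) :
    kap ((m : ℝ) + s * (v : ℝ)) = 2 * m + v * kap s := by
  rcases hv with h | h | h
  · subst h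
    have : (m : ℝ) + s * ((-1 : ℤ) : ℝ) = -s + m := by push_cast; ring
    rw [this, kap_add_int, kap_neg]; ring
  · subst h
    have : (m : ℝ) + s * ((0 : ℤ) : ℝ) = m := by push_cast; ring
    rw [this, kap_int]; ring
  · subst h
    have : (m : ℝ) + s * ((1 : ℤ) : ℝ) = s + m := by push_cast; ring
    rw [this, kap_add_int]; ring

theorem kap_fold (ψ : ℤ × ℤ → Fin 3 → ℤ) (c : ℤ × ℤ) (p : Plane) (hp : p ∈ cell c)
    (hg : GoodLabels (ψ c) (ψ (c.1 + 1, c.2)) (ψ (c.1, c.2 + 1)) (ψ (c.1 + 1, c.2 + 1)))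
    (l : Fin 3) : kap ((foldMap ψ p) l) = dbl ψ (K p) l := by
  rw [foldMap_on_cell ψ c p hp hg.par l]
  have hn := (mem_cell_iff p c).1 hp
  obtain ⟨n1, n2, n3, n4⟩ := hn
  have s0 : kap (p 0 - c.1) = (K p).1 - 2 * c.1 := by
    have := kap_add_int (p 0) (-c.1)
    push_cast at this
    rw [← sub_eq_add_neg] at this
    rw [this]; unfold K; simp only; ring
  have s1 : kap (p 1 - c.2) = (K p).2 - 2 * c.2 := by
    have := kap_add_int (p 1) (-c.2)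
    push_cast at this
    rw [← sub_eq_add_neg] at this
    rw [this]; unfold K; simp only; ring
  have hd : ∀ X : ℤ × ℤ, 2 * c.1 ≤ X.1 → X.1 ≤ 2 * c.1 + 2 → 2 * c.2 ≤ X.2 → X.2 ≤ 2 * c.2 + 2 →
      dbl ψ X l = 2 * ψ c l + (ψ (c.1 + 1, c.2) l - ψ c l) * (X.1 - 2 * c.1)
        + (ψ (c.1, c.2 + 1) l - ψ c l) * (X.2 - 2 * c.2) := by
    intro X m1 m2 m3 m4
    have hc : c = (c.1, c.2) := rfl
    have par := hg.par l
    have hx : (X.1 = 2 * c.1 ∧ X.1 / 2 = c.1 ∧ (X.1 + 1) / 2 = c.1) ∨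
        (X.1 = 2 * c.1 + 1 ∧ X.1 / 2 = c.1 ∧ (X.1 + 1) / 2 = c.1 + 1) ∨
        (X.1 = 2 * c.1 + 2 ∧ X.1 / 2 = c.1 + 1 ∧ (X.1 + 1) / 2 = c.1 + 1) := by omega
    have hy : (X.2 = 2 * c.2 ∧ X.2 / 2 = c.2 ∧ (X.2 + 1) / 2 = c.2) ∨
        (X.2 = 2 * c.2 + 1 ∧ X.2 / 2 = c.2 ∧ (X.2 + 1) / 2 = c.2 + 1) ∨
        (X.2 = 2 * c.2 + 2 ∧ X.2 / 2 = c.2 + 1 ∧ (X.2 + 1) / 2 = c.2 + 1) := by omega
    unfold dbl
    have hc2 : ψ (c.1, c.2) = ψ c := rfl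
    have huv := hg.huv l
    rcases hx with ⟨x1, x2, x3⟩ | ⟨x1, x2, x3⟩ | ⟨x1, x2, x3⟩ <;>
    rcases hy with ⟨y1, y2, y3⟩ | ⟨y1, y2, y3⟩ | ⟨y1, y2, y3⟩ <;>
    rw [x2, x3, y2, y3, x1, y1] <;> (try rw [hc2]) <;> (try rw [par]) <;> ring
  rw [hd (K p) n1 n2 n3 n4]
  rcases hg.huv l with h | h
  · rw [h]
    have e : (ψ c l : ℝ) + (p 0 - c.1) * ((0 : ℤ) : ℝ)
      + (p 1 - c.2) * ((ψ (c.1, c.2 + 1) l - ψ c l : ℤ) : ℝ) =
      (ψ c l : ℝ) + (p 1 - c.2) * ((ψ (c.1, c.2 + 1) l - ψ c l : ℤ) : ℝ) := by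
      push_cast; ring
    rw [e, kap_lin _ _ _ (hg.hv l), s1]
    ring
  · rw [h]
    have e : (ψ c l : ℝ) + (p 0 - c.1) * ((ψ (c.1 + 1, c.2) l - ψ c l : ℤ) : ℝ)
      + (p 1 - c.2) * ((0 : ℤ) : ℝ) =
      (ψ c l : ℝ) + (p 0 - c.1) * ((ψ (c.1 + 1, c.2) l - ψ c l : ℤ) : ℝ) := by
      push_cast; ring
    rw [e, kap_lin _ _ _ (hg.hu l), s0]
    ring

theorem foldMap_isometry_on_cell (ψ : ℤ × ℤ → Fin 3 → ℤ) (c : ℤ × ℤ)
    (hg : GoodLabels (ψ c) (ψ (c.1 + 1, c.2)) (ψ (c.1, c.2 + 1)) (ψ (c.1 + 1, c.2 + 1)))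
    (p : Plane) (hp : p ∈ cell c) (q : Plane) (hq : q ∈ cell c) :
    dist (foldMap ψ p) (foldMap ψ q) = dist p q := by
  rw [EuclideanSpace.dist_eq, EuclideanSpace.dist_eq]
  congr 1
  rw [Fin.sum_univ_three, Fin.sum_univ_two]
  simp only [Real.dist_eq, sq_abs]
  rw [foldMap_on_cell ψ c p hp hg.par 0, foldMap_on_cell ψ c p hp hg.par 1,
    foldMap_on_cell ψ c p hp hg.par 2, foldMap_on_cell ψ c q hq hg.par 0,
    foldMap_on_cell ψ c q hq hg.par 1, foldMap_on_cell ψ c q hq hg.par 2]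
  have su := hg.su
  have sv := hg.sv
  have suv : ∀ l, (ψ (c.1 + 1, c.2) l - ψ c l) * (ψ (c.1, c.2 + 1) l - ψ c l) = 0 := by
    intro l
    rcases hg.huv l with h | h
    · rw [h]; ring
    · rw [h]; ring
  have w0 := suv 0
  have w1 := suv 1
  have w2 := suv 2
  generalize ψ (c.1 + 1, c.2) 0 - ψ c 0 = u0 at *
  generalize ψ (c.1 + 1, c.2) 1 - ψ c 1 = u1 at *
  generalize ψ (c.1 + 1, c.2) 2 - ψ c 2 = u2 at *
  generalize ψ (c.1, c.2 + 1) 0 - ψ c 0 = v0 at *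
  generalize ψ (c.1, c.2 + 1) 1 - ψ c 1 = v1 at *
  generalize ψ (c.1, c.2 + 1) 2 - ψ c 2 = v2 at *
  have su' : (u0 : ℝ) ^ 2 + (u1 : ℝ) ^ 2 + (u2 : ℝ) ^ 2 = 1 := by exact_mod_cast su
  have sv' : (v0 : ℝ) ^ 2 + (v1 : ℝ) ^ 2 + (v2 : ℝ) ^ 2 = 1 := by exact_mod_cast sv
  have w0' : (u0 : ℝ) * v0 = 0 := by exact_mod_cast w0
  have w1' : (u1 : ℝ) * v1 = 0 := by exact_mod_cast w1
  have w2' : (u2 : ℝ) * v2 = 0 := by exact_mod_cast w2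
  linear_combination (p 0 - q 0) ^ 2 * su' + (p 1 - q 1) ^ 2 * sv' +
    2 * (p 0 - q 0) * (p 1 - q 1) * w0' + 2 * (p 0 - q 0) * (p 1 - q 1) * w1' +
    2 * (p 0 - q 0) * (p 1 - q 1) * w2'

theorem frame_cases (u v u' v' : ℤ) (h1 : u = -1 ∨ u = 0 ∨ u = 1) (h2 : v = -1 ∨ v = 0 ∨ v = 1)
    (h3 : u' = -1 ∨ u' = 0 ∨ u' = 1) (h4 : v' = -1 ∨ v' = 0 ∨ v' = 1)
    (hs : u ^ 2 + u' ^ 2 = 1) (hs' : v ^ 2 + v' ^ 2 = 1) (huv : u = 0 ∨ v = 0)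
    (huv' : u' = 0 ∨ v' = 0) :
    (v = 0 ∧ u' = 0 ∧ (u = 1 ∨ u = -1) ∧ (v' = 1 ∨ v' = -1)) ∨
    (u = 0 ∧ v' = 0 ∧ (u' = 1 ∨ u' = -1) ∧ (v = 1 ∨ v = -1)) := by
  rcases h1 with h1 | h1 | h1 <;> rcases h2 with h2 | h2 | h2 <;> rcases h3 with h3 | h3 | h3 <;>
  rcases h4 with h4 | h4 | h4 <;> subst h1 h2 h3 h4 <;> simp_all

theorem span_two (z z' A A' : ℝ) (G G' : ℝ) (u v u' v' : ℤ) (h1 : u = -1 ∨ u = 0 ∨ u = 1)
    (h2 : v = -1 ∨ v = 0 ∨ v = 1)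
    (h3 : u' = -1 ∨ u' = 0 ∨ u' = 1) (h4 : v' = -1 ∨ v' = 0 ∨ v' = 1)
    (hs : u ^ 2 + u' ^ 2 = 1) (hs' : v ^ 2 + v' ^ 2 = 1) (huv : u = 0 ∨ v = 0)
    (huv' : u' = 0 ∨ v' = 0) (hG : 2 * A + u + v = G) (hG' : 2 * A' + u' + v' = G')
    (hz : (G - 1) / 2 ≤ z ∧ z ≤ (G + 1) / 2) (hz' : (G' - 1) / 2 ≤ z' ∧ z' ≤ (G' + 1) / 2)
    (x y : ℝ) (hx : x = u * (z - A) + u' * (z' - A')) (hy : y = v * (z - A) + v' * (z' - A')) :
    (0 ≤ x ∧ x ≤ 1) ∧ (0 ≤ y ∧ y ≤ 1) ∧ A + x * u + y * v = z ∧ A' + x * u' + y * v' = z' := by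
  obtain ⟨z1, z2⟩ := hz
  obtain ⟨z3, z4⟩ := hz'
  rcases frame_cases u v u' v' h1 h2 h3 h4 hs hs' huv huv' with
    ⟨a1, a2, a3 | a3, a4 | a4⟩ | ⟨a1, a2, a3 | a3, a4 | a4⟩ <;>
  subst a1 a2 a3 a4 <;> push_cast at * <;>
  refine ⟨⟨?_, ?_⟩, ⟨?_, ?_⟩, ?_, ?_⟩ <;> nlinarith

/-- The four corners of a unit square. -/
noncomputable def corners (c : ℤ × ℤ) : Finset Plane :=
  open Classical in
  {!₂[(c.1 : ℝ), (c.2 : ℝ)], !₂[(c.1 : ℝ) + 1, (c.2 : ℝ)], !₂[(c.1 : ℝ), (c.2 : ℝ) + 1],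
    !₂[(c.1 : ℝ) + 1, (c.2 : ℝ) + 1]}

theorem cell_convex (c : ℤ × ℤ) : Convex ℝ (cell c) := by
  intro x hx y hy a b ha hb hab
  obtain ⟨x1, x2, x3, x4⟩ := hx
  obtain ⟨y1, y2, y3, y4⟩ := hy
  obtain rfl : b = 1 - a := by linarith
  have e0 : (a • x + (1 - a) • y : Plane) 0 = a * x 0 + (1 - a) * y 0 := by simp
  have e1 : (a • x + (1 - a) • y : Plane) 1 = a * x 1 + (1 - a) * y 1 := by simp
  refine ⟨?_, ?_, ?_, ?_⟩
  · rw [e0]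
    nlinarith [mul_le_mul_of_nonneg_left x1 ha, mul_le_mul_of_nonneg_left y1 hb]
  · rw [e0]
    nlinarith [mul_le_mul_of_nonneg_left x2 ha, mul_le_mul_of_nonneg_left y2 hb]
  · rw [e1]
    nlinarith [mul_le_mul_of_nonneg_left x3 ha, mul_le_mul_of_nonneg_left y3 hb]
  · rw [e1]
    nlinarith [mul_le_mul_of_nonneg_left x4 ha, mul_le_mul_of_nonneg_left y4 hb]

theorem cell_eq_hull (c : ℤ × ℤ) : cell c = convexHull ℝ (corners c : Set Plane) := by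
  classical
  apply Set.Subset.antisymm
  · intro p hp
    obtain ⟨h1, h2, h3, h4⟩ := hp
    have hconv := convex_convexHull ℝ (corners c : Set Plane)
    have m1 : (!₂[(c.1 : ℝ), (c.2 : ℝ)] : Plane) ∈ convexHull ℝ (corners c : Set Plane) :=
      subset_convexHull ℝ _ (by simp [corners])
    have m2 : (!₂[(c.1 : ℝ) + 1, (c.2 : ℝ)] : Plane) ∈ convexHull ℝ (corners c : Set Plane) :=
      subset_convexHull ℝ _ (by simp [corners])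
    have m3 : (!₂[(c.1 : ℝ), (c.2 : ℝ) + 1] : Plane) ∈ convexHull ℝ (corners c : Set Plane) :=
      subset_convexHull ℝ _ (by simp [corners])
    have m4 : (!₂[(c.1 : ℝ) + 1, (c.2 : ℝ) + 1] : Plane) ∈ convexHull ℝ (corners c : Set Plane) :=
      subset_convexHull ℝ _ (by simp [corners])
    set s := p 0 - c.1 with hs
    set t := p 1 - c.2 with ht
    have q1 := hconv m1 m2 (a := 1 - s) (b := s) (by linarith) (by linarith) (by ring)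
    have q2 := hconv m3 m4 (a := 1 - s) (b := s) (by linarith) (by linarith) (by ring)
    have q3 := hconv q1 q2 (a := 1 - t) (b := t) (by linarith) (by linarith) (by ring)
    convert! q3 using 1
    ext i
    fin_cases i
    · simp [hs]
      ring
    · simp [ht]
      ring
  · apply convexHull_min _ (cell_convex c)
    intro p hp
    simp only [corners, Finset.coe_insert, Finset.coe_singleton, Set.mem_insert_iff,
      Set.mem_singleton_iff] at hp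
    rcases hp with h | h | h | h <;> subst h <;> refine ⟨?_, ?_, ?_, ?_⟩ <;> simp

theorem continuousOn_region {X : Type*} [TopologicalSpace X] (S : Finset (ℤ × ℤ)) (F : Plane → X)
    (h : ∀ c ∈ S, ContinuousOn F (cell c)) : ContinuousOn F (region S) := by
  have e : region S = ⋃ i : {c // c ∈ S}, cell i.1 := by
    unfold region
    ext p
    simp
  rw [e]
  exact (locallyFinite_of_finite _).continuousOn_iUnion (fun i => isClosed_cell i.1)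
    (fun i => h i.1 i.2)

theorem continuousOn_of_dist {s : Set Plane} {F : Plane → Space}
    (h : ∀ p ∈ s, ∀ q ∈ s, dist (F p) (F q) = dist p q) : ContinuousOn F s := by
  intro p hp
  rw [Metric.continuousWithinAt_iff]
  intro ε hε
  refine ⟨ε, hε, ?_⟩
  intro q hq hd
  rw [h q hq p hp]
  exact hd

theorem cell_onto (ψ : ℤ × ℤ → Fin 3 → ℤ) (c : ℤ × ℤ)
    (hg : GoodLabels (ψ c) (ψ (c.1 + 1, c.2)) (ψ (c.1, c.2 + 1)) (ψ (c.1 + 1, c.2 + 1)))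
    (Γ : Fin 3 → ℤ) (l : Fin 3) (hl1 : ψ (c.1 + 1, c.2) l = ψ c l)
    (hl2 : ψ (c.1, c.2 + 1) l = ψ c l)
    (hdc : ∀ j, 2 * ψ c j + (ψ (c.1 + 1, c.2) j - ψ c j) + (ψ (c.1, c.2 + 1) j - ψ c j) = Γ j)
    (z : Space) (hzl : z l = ψ c l)
    (hb1 : ∀ j, j ≠ l → ((Γ j : ℝ) - 1) / 2 ≤ z j ∧ z j ≤ ((Γ j : ℝ) + 1) / 2) :
    ∃ p ∈ cell c, foldMap ψ p = z := by
  -- x and y coordinates of the preimage
  set x : ℝ := ((ψ (c.1 + 1, c.2) 0 - ψ c 0 : ℤ) : ℝ) * (z 0 - ψ c 0) +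
    ((ψ (c.1 + 1, c.2) 1 - ψ c 1 : ℤ) : ℝ) * (z 1 - ψ c 1) +
    ((ψ (c.1 + 1, c.2) 2 - ψ c 2 : ℤ) : ℝ) * (z 2 - ψ c 2) with hx
  set y : ℝ := ((ψ (c.1, c.2 + 1) 0 - ψ c 0 : ℤ) : ℝ) * (z 0 - ψ c 0) +
    ((ψ (c.1, c.2 + 1) 1 - ψ c 1 : ℤ) : ℝ) * (z 1 - ψ c 1) +
    ((ψ (c.1, c.2 + 1) 2 - ψ c 2 : ℤ) : ℝ) * (z 2 - ψ c 2) with hy
  have key : (0 ≤ x ∧ x ≤ 1) ∧ (0 ≤ y ∧ y ≤ 1) ∧ ∀ j, (ψ c j : ℝ) +
      x * ((ψ (c.1 + 1, c.2) j - ψ c j : ℤ) : ℝ) + y * ((ψ (c.1, c.2 + 1) j - ψ c j : ℤ) : ℝ)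
      = z j := by
    have su := hg.su
    have sv := hg.sv
    have hu := hg.hu
    have hv := hg.hv
    have huv := hg.huv
    rw [hx, hy]
    clear_value x y
    clear hx hy x y
    have hzl : z l = ψ c l := by
      have h1 := hdc l
      rw [hl1, hl2] at h1
      have h2 : (2 : ℝ) * ψ c l = Γ l := by
        have : 2 * ψ c l = Γ l := by linarith
        exact_mod_cast this
      linarith
    have hul : ψ (c.1 + 1, c.2) l - ψ c l = 0 := by rw [hl1]; ring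
    have hvl : ψ (c.1, c.2 + 1) l - ψ c l = 0 := by rw [hl2]; ring
    have hAll : ∀ P : Fin 3 → Prop, P 0 → P 1 → P 2 → ∀ j, P j := by
      intro P h0 h1 h2 j
      fin_cases j
      · exact h0
      · exact h1
      · exact h2
    have hGr : ∀ j, 2 * (ψ c j : ℝ) + ((ψ (c.1 + 1, c.2) j - ψ c j : ℤ) : ℝ) +
        ((ψ (c.1, c.2 + 1) j - ψ c j : ℤ) : ℝ) = Γ j := by
      intro j
      have := hdc j
      exact_mod_cast this
    have gen : ∀ i j : Fin 3, i ≠ l → j ≠ l →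
        (ψ (c.1 + 1, c.2) i - ψ c i) ^ 2 + (ψ (c.1 + 1, c.2) j - ψ c j) ^ 2 = 1 →
        (ψ (c.1, c.2 + 1) i - ψ c i) ^ 2 + (ψ (c.1, c.2 + 1) j - ψ c j) ^ 2 = 1 →
        ∀ x y : ℝ, x = ((ψ (c.1 + 1, c.2) i - ψ c i : ℤ) : ℝ) * (z i - ψ c i) +
          ((ψ (c.1 + 1, c.2) j - ψ c j : ℤ) : ℝ) * (z j - ψ c j) →
        y = ((ψ (c.1, c.2 + 1) i - ψ c i : ℤ) : ℝ) * (z i - ψ c i) +
          ((ψ (c.1, c.2 + 1) j - ψ c j : ℤ) : ℝ) * (z j - ψ c j) →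
        (0 ≤ x ∧ x ≤ 1) ∧ (0 ≤ y ∧ y ≤ 1) ∧
        (ψ c i : ℝ) + x * ((ψ (c.1 + 1, c.2) i - ψ c i : ℤ) : ℝ)
          + y * ((ψ (c.1, c.2 + 1) i - ψ c i : ℤ) : ℝ) = z i ∧
        (ψ c j : ℝ) + x * ((ψ (c.1 + 1, c.2) j - ψ c j : ℤ) : ℝ)
          + y * ((ψ (c.1, c.2 + 1) j - ψ c j : ℤ) : ℝ) = z j := by
      intro i j hi hj e1 e2 x y hx hy
      exact span_two (z i) (z j) (ψ c i) (ψ c j) (Γ i) (Γ j) _ _ _ _ (hu i) (hv i) (hu j) (hv j)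
        e1 e2 (huv i) (huv j) (hGr i) (hGr j) (hb1 i hi) (hb1 j hj) x y hx hy
    have hzl0 : z l - ψ c l = 0 := by rw [hzl]; ring
    fin_cases l
    · simp only [Fin.zero_eta, Fin.isValue] at *
      rw [hul] at su
      rw [hvl] at sv
      rw [hul, hvl, hzl0]
      obtain ⟨k1, k2, k3, k4⟩ := gen 1 2 (by decide) (by decide) (by linarith) (by linarith)
        _ _ rfl rfl
      have ex : ((0 : ℤ) : ℝ) * 0 + ((ψ (c.1 + 1, c.2) 1 - ψ c 1 : ℤ) : ℝ) * (z 1 - ψ c 1) +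
        ((ψ (c.1 + 1, c.2) 2 - ψ c 2 : ℤ) : ℝ) * (z 2 - ψ c 2) =
        ((ψ (c.1 + 1, c.2) 1 - ψ c 1 : ℤ) : ℝ) * (z 1 - ψ c 1) +
        ((ψ (c.1 + 1, c.2) 2 - ψ c 2 : ℤ) : ℝ) * (z 2 - ψ c 2) := by ring
      have ey : ((0 : ℤ) : ℝ) * 0 + ((ψ (c.1, c.2 + 1) 1 - ψ c 1 : ℤ) : ℝ) * (z 1 - ψ c 1) +
        ((ψ (c.1, c.2 + 1) 2 - ψ c 2 : ℤ) : ℝ) * (z 2 - ψ c 2) =
        ((ψ (c.1, c.2 + 1) 1 - ψ c 1 : ℤ) : ℝ) * (z 1 - ψ c 1) +
        ((ψ (c.1, c.2 + 1) 2 - ψ c 2 : ℤ) : ℝ) * (z 2 - ψ c 2) := by ring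
      rw [ex, ey]
      refine ⟨k1, k2, hAll _ ?_ k3 k4⟩
      rw [hul, hvl, hzl]
      push_cast
      ring
    · simp only [Fin.mk_one, Fin.isValue] at *
      rw [hul] at su
      rw [hvl] at sv
      rw [hul, hvl, hzl0]
      obtain ⟨k1, k2, k3, k4⟩ := gen 0 2 (by decide) (by decide) (by linarith) (by linarith)
        _ _ rfl rfl
      have ex : ((ψ (c.1 + 1, c.2) 0 - ψ c 0 : ℤ) : ℝ) * (z 0 - ψ c 0) + ((0 : ℤ) : ℝ) * 0 +
        ((ψ (c.1 + 1, c.2) 2 - ψ c 2 : ℤ) : ℝ) * (z 2 - ψ c 2) =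
        ((ψ (c.1 + 1, c.2) 0 - ψ c 0 : ℤ) : ℝ) * (z 0 - ψ c 0) +
        ((ψ (c.1 + 1, c.2) 2 - ψ c 2 : ℤ) : ℝ) * (z 2 - ψ c 2) := by ring
      have ey : ((ψ (c.1, c.2 + 1) 0 - ψ c 0 : ℤ) : ℝ) * (z 0 - ψ c 0) + ((0 : ℤ) : ℝ) * 0 +
        ((ψ (c.1, c.2 + 1) 2 - ψ c 2 : ℤ) : ℝ) * (z 2 - ψ c 2) =
        ((ψ (c.1, c.2 + 1) 0 - ψ c 0 : ℤ) : ℝ) * (z 0 - ψ c 0) +
        ((ψ (c.1, c.2 + 1) 2 - ψ c 2 : ℤ) : ℝ) * (z 2 - ψ c 2) := by ring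
      rw [ex, ey]
      refine ⟨k1, k2, hAll _ k3 ?_ k4⟩
      rw [hul, hvl, hzl]
      push_cast
      ring
    · simp only [Fin.reduceFinMk, Fin.isValue] at *
      rw [hul] at su
      rw [hvl] at sv
      rw [hul, hvl, hzl0]
      obtain ⟨k1, k2, k3, k4⟩ := gen 0 1 (by decide) (by decide) (by linarith) (by linarith)
        _ _ rfl rfl
      have ex : ((ψ (c.1 + 1, c.2) 0 - ψ c 0 : ℤ) : ℝ) * (z 0 - ψ c 0) +
        ((ψ (c.1 + 1, c.2) 1 - ψ c 1 : ℤ) : ℝ) * (z 1 - ψ c 1) + ((0 : ℤ) : ℝ) * 0 =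
        ((ψ (c.1 + 1, c.2) 0 - ψ c 0 : ℤ) : ℝ) * (z 0 - ψ c 0) +
        ((ψ (c.1 + 1, c.2) 1 - ψ c 1 : ℤ) : ℝ) * (z 1 - ψ c 1) := by ring
      have ey : ((ψ (c.1, c.2 + 1) 0 - ψ c 0 : ℤ) : ℝ) * (z 0 - ψ c 0) +
        ((ψ (c.1, c.2 + 1) 1 - ψ c 1 : ℤ) : ℝ) * (z 1 - ψ c 1) + ((0 : ℤ) : ℝ) * 0 =
        ((ψ (c.1, c.2 + 1) 0 - ψ c 0 : ℤ) : ℝ) * (z 0 - ψ c 0) +
        ((ψ (c.1, c.2 + 1) 1 - ψ c 1 : ℤ) : ℝ) * (z 1 - ψ c 1) := by ring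
      rw [ex, ey]
      refine ⟨k1, k2, hAll _ k3 k4 ?_⟩
      rw [hul, hvl, hzl]
      push_cast
      ring
  obtain ⟨⟨x0, x1⟩, ⟨y0, y1⟩, hj⟩ := key
  have hq0 : (!₂[(c.1 : ℝ) + x, (c.2 : ℝ) + y] : Plane) 0 = c.1 + x := rfl
  have hq1 : (!₂[(c.1 : ℝ) + x, (c.2 : ℝ) + y] : Plane) 1 = c.2 + y := rfl
  have hqc : (!₂[(c.1 : ℝ) + x, (c.2 : ℝ) + y] : Plane) ∈ cell c := by
    refine ⟨?_, ?_, ?_, ?_⟩
    · rw [hq0]; linarith
    · rw [hq0]; linarith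
    · rw [hq1]; linarith
    · rw [hq1]; linarith
  refine ⟨!₂[(c.1 : ℝ) + x, (c.2 : ℝ) + y], hqc, ?_⟩
  ext j
  rw [foldMap_on_cell ψ c _ hqc hg.par j, hq0, hq1, ← hj j]
  ring

theorem isFolding_of_labels (S : Finset (ℤ × ℤ)) (ψ : ℤ × ℤ → Fin 3 → ℤ) (a : ℕ) (ha : 0 < a)
    (hgood : ∀ c ∈ S,
      GoodLabels (ψ c) (ψ (c.1 + 1, c.2)) (ψ (c.1, c.2 + 1)) (ψ (c.1 + 1, c.2 + 1)))
    (hbd : ∀ c ∈ S, ∀ l, (0 ≤ ψ c l ∧ ψ c l ≤ a) ∧ (0 ≤ ψ (c.1 + 1, c.2) l ∧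
      ψ (c.1 + 1, c.2) l ≤ a) ∧ (0 ≤ ψ (c.1, c.2 + 1) l ∧ ψ (c.1, c.2 + 1) l ≤ a))
    (hsf : ∀ c ∈ S, ∃ l, (ψ c l = 0 ∨ ψ c l = a) ∧ ψ (c.1 + 1, c.2) l = ψ c l ∧
      ψ (c.1, c.2 + 1) l = ψ c l)
    (hinj : ∀ X Y, (∀ c, Near c X → c ∈ S) → (∀ c, Near c Y → c ∈ S) →
      (∀ l, dbl ψ X l = dbl ψ Y l) → X = Y)
    (honto : ∀ Γ : Fin 3 → ℤ, (∃ l, (Γ l = 0 ∨ Γ l = 2 * a) ∧ ∀ j, j ≠ l → 0 < Γ j ∧ Γ j < 2 * a ∧
      Γ j % 2 = 1) → ∃ c ∈ S, ∀ l, dbl ψ (2 * c.1 + 1, 2 * c.2 + 1) l = Γ l) :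
    IsFolding (foldMap ψ) (region S) a := by
  classical
  refine ⟨?_, ?_, ?_, ?_⟩
  · apply continuousOn_region
    intro c hc
    exact continuousOn_of_dist (foldMap_isometry_on_cell ψ c (hgood c hc))
  · apply Set.Subset.antisymm
    · rintro z ⟨p, hp, rfl⟩
      rw [mem_region_iff] at hp
      obtain ⟨c, hc, hn⟩ := hp
      have hpc := (mem_cell_iff p c).2 hn
      have hg := hgood c hc
      constructor
      · intro l
        rw [foldMap_on_cell ψ c p hpc hg.par l]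
        obtain ⟨h1, h2, h3, h4⟩ := hpc
        obtain ⟨⟨a1, a2⟩, ⟨b1, b2⟩, ⟨d1, d2⟩⟩ := hbd c hc l
        have a1' : (0 : ℝ) ≤ ψ c l := by exact_mod_cast a1
        have a2' : (ψ c l : ℝ) ≤ a := by exact_mod_cast a2
        have b1' : (0 : ℝ) ≤ ψ (c.1 + 1, c.2) l := by exact_mod_cast b1
        have b2' : (ψ (c.1 + 1, c.2) l : ℝ) ≤ a := by exact_mod_cast b2
        have d1' : (0 : ℝ) ≤ ψ (c.1, c.2 + 1) l := by exact_mod_cast d1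
        have d2' : (ψ (c.1, c.2 + 1) l : ℝ) ≤ a := by exact_mod_cast d2
        rcases hg.huv l with h | h
        · have h' : (ψ (c.1 + 1, c.2) l : ℝ) = ψ c l := by
            have : ψ (c.1 + 1, c.2) l = ψ c l := by linarith
            exact_mod_cast this
          push_cast
          constructor <;> nlinarith
        · have h' : (ψ (c.1, c.2 + 1) l : ℝ) = ψ c l := by
            have : ψ (c.1, c.2 + 1) l = ψ c l := by linarith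
            exact_mod_cast this
          push_cast
          constructor <;> nlinarith
      · obtain ⟨l, hl, hl1, hl2⟩ := hsf c hc
        refine ⟨l, ?_⟩
        rw [foldMap_on_cell ψ c p hpc hg.par l, hl1, hl2]
        rcases hl with h | h
        · left
          rw [h]; push_cast; ring
        · right
          rw [h]; push_cast; ring
    · intro z hz
      obtain ⟨hz1, l, hl⟩ := hz
      -- the code of the unit square of the surface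
      set Γ : Fin 3 → ℤ := fun j => if j = l then (if z l = 0 then 0 else 2 * a)
        else 2 * min ⌊z j⌋ (a - 1) + 1 with hΓ
      have hΓl : (Γ l : ℝ) = 2 * z l := by
        rw [hΓ]
        simp only [if_true]
        rcases hl with h | h
        · rw [if_pos h, h]; simp
        · have : z l ≠ 0 := by
            rw [h]
            exact Nat.cast_ne_zero.mpr ha.ne'
          rw [if_neg this, h]; push_cast; ring
      have hΓj : ∀ j, j ≠ l → (Γ j = 2 * min ⌊z j⌋ (a - 1) + 1) := by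
        intro j hj
        rw [hΓ]
        simp only [if_neg hj]
      have hb1 : ∀ j, j ≠ l → ((Γ j : ℝ) - 1) / 2 ≤ z j ∧ z j ≤ ((Γ j : ℝ) + 1) / 2 := by
        intro j hj
        rw [hΓj j hj]
        push_cast
        have hfl := Int.floor_le (z j)
        have hfl2 := Int.lt_floor_add_one (z j)
        have hza := (hz1 j).2
        constructor
        · have : (min (⌊z j⌋ : ℝ) ((a : ℝ) - 1)) ≤ ⌊z j⌋ := min_le_left _ _
          linarith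
        · rcases le_total (⌊z j⌋ : ℝ) ((a : ℝ) - 1) with h | h
          · rw [min_eq_left h]; linarith
          · rw [min_eq_right h]; linarith
      obtain ⟨c, hc, hcΓ⟩ := honto Γ ⟨l, by
        rw [hΓ]
        simp only [if_true]
        rcases hl with h | h
        · left; rw [if_pos h]
        · right
          have : z l ≠ 0 := by
            rw [h]
            exact Nat.cast_ne_zero.mpr ha.ne'
          rw [if_neg this], by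
        intro j hj
        rw [hΓj j hj]
        have : 0 ≤ ⌊z j⌋ := Int.floor_nonneg.mpr (hz1 j).1
        have h1 : (1 : ℤ) ≤ a := by exact_mod_cast ha
        have h2 : 0 ≤ min ⌊z j⌋ ((a : ℤ) - 1) := le_min this (by linarith)
        have h3 : min ⌊z j⌋ ((a : ℤ) - 1) ≤ a - 1 := min_le_right _ _
        refine ⟨by omega, by omega, by omega⟩⟩
      have hg := hgood c hc
      have hdc : ∀ j, 2 * ψ c j + (ψ (c.1 + 1, c.2) j - ψ c j) + (ψ (c.1, c.2 + 1) j - ψ c j)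
          = Γ j := by
        intro j
        rw [← hcΓ j]
        unfold dbl
        have e1 : (2 * c.1 + 1) / 2 = c.1 := by omega
        have e2 : (2 * c.2 + 1) / 2 = c.2 := by omega
        have e3 : (2 * c.1 + 1 + 1) / 2 = c.1 + 1 := by omega
        have e4 : (2 * c.2 + 1 + 1) / 2 = c.2 + 1 := by omega
        simp only [e1, e2, e3, e4]
        rw [hg.par j]
        ring
      obtain ⟨l', hl', hl1, hl2⟩ := hsf c hc
      have hll : l' = l := by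
        by_contra hne
        have h1 := hΓj l' hne
        have h2 := hdc l'
        omega
      subst hll
      have hzl : z l' = ψ c l' := by
        have h1 := hdc l'
        rw [hl1, hl2] at h1
        have h2 : (2 : ℝ) * ψ c l' = Γ l' := by
          have : 2 * ψ c l' = Γ l' := by linarith
          exact_mod_cast this
        linarith
      obtain ⟨p, hp, hpz⟩ := cell_onto ψ c hg Γ l' hl1 hl2 hdc z hzl hb1
      refine ⟨p, ?_, hpz⟩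
      rw [mem_region_iff]
      exact ⟨c, hc, (mem_cell_iff _ c).1 hp⟩
  · intro p hp q hq hpq
    rw [interior_region_iff] at hp hq
    have hp' : p ∈ region S := (mem_region_iff S p).2 ⟨_, hp _ (exists_near _), exists_near _⟩
    have hq' : q ∈ region S := (mem_region_iff S q).2 ⟨_, hq _ (exists_near _), exists_near _⟩
    rw [mem_region_iff] at hp' hq'
    obtain ⟨c, hc, hcn⟩ := hp'
    obtain ⟨d, hd, hdn⟩ := hq'
    have hX : K p = K q := by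
      apply hinj _ _ hp hq
      intro l
      rw [← kap_fold ψ c p ((mem_cell_iff p c).2 hcn) (hgood c hc) l,
        ← kap_fold ψ d q ((mem_cell_iff q d).2 hdn) (hgood d hd) l, hpq]
    have hq2 : q ∈ cell c := by
      rw [mem_cell_iff, ← hX]; exact hcn
    have := foldMap_isometry_on_cell ψ c (hgood c hc) p ((mem_cell_iff p c).2 hcn) q hq2
    rw [hpq, dist_self] at this
    exact dist_eq_zero.mp this.symm
  · refine ⟨S.image cell, ?_, ?_⟩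
    · unfold region
      ext p
      simp
    · intro t ht
      rw [Finset.mem_image] at ht
      obtain ⟨c, hc, rfl⟩ := ht
      refine ⟨⟨corners c, cell_eq_hull c⟩, ?_⟩
      intro p hp q hq
      exact foldMap_isometry_on_cell ψ c (hgood c hc) p hp q hq

end Pool.Agent.Helper72.RepCube
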