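import Pool.Agent.Helper72.RepCube.Defs

/-!
Geometry of the integer grid: a point of the plane is described by the doubled centre of the open
cell of the grid subdivision (vertex, open edge or open square) that contains it.
-/

namespace Pool.Agent.Helper72.RepCube

/-- Twice the midpoint of the smallest of the sets `{m}`, `(m, m + 1)` that contains `t`. -/
noncomputable def kap (t : ℝ) : ℤ := ⌊t⌋ + ⌈t⌉

theorem le_kap (t : ℝ) (c : ℤ) : 2 * c ≤ kap t ↔ (c : ℝ) ≤ t := by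
  unfold kap
  constructor
  · intro h
    have h1 : ⌈t⌉ ≤ ⌊t⌋ + 1 := Int.ceil_le_floor_add_one t
    have h2 : c ≤ ⌊t⌋ := by omega
    exact Int.le_floor.mp h2
  · intro h
    have h1 : c ≤ ⌊t⌋ := Int.le_floor.mpr h
    have h2 : ⌊t⌋ ≤ ⌈t⌉ := Int.floor_le_ceil t
    omega

theorem kap_le (t : ℝ) (c : ℤ) : kap t ≤ 2 * c ↔ t ≤ (c : ℝ) := by
  unfold kap
  constructor
  · intro h
    have h1 : ⌈t⌉ ≤ ⌊t⌋ + 1 := Int.ceil_le_floor_add_one t
    have h2 : ⌈t⌉ ≤ c := by omega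
    exact Int.ceil_le.mp h2
  · intro h
    have h1 : ⌈t⌉ ≤ c := Int.ceil_le.mpr h
    have h2 : ⌊t⌋ ≤ ⌈t⌉ := Int.floor_le_ceil t
    omega

theorem kap_lt (t : ℝ) (c : ℤ) : kap t < 2 * c ↔ t < (c : ℝ) := by
  rw [← not_le, le_kap, not_le]

theorem lt_kap (t : ℝ) (c : ℤ) : 2 * c < kap t ↔ (c : ℝ) < t := by
  rw [← not_le, kap_le, not_le]

theorem kap_add_int (t : ℝ) (m : ℤ) : kap (t + m) = kap t + 2 * m := by
  unfold kap
  rw [Int.floor_add_intCast, Int.ceil_add_intCast]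
  ring

theorem kap_neg (t : ℝ) : kap (-t) = - kap t := by
  unfold kap
  rw [Int.floor_neg, Int.ceil_neg]
  ring

theorem kap_int (m : ℤ) : kap (m : ℝ) = 2 * m := by
  unfold kap
  rw [Int.floor_intCast, Int.ceil_intCast]
  ring

theorem kap_zero : kap 0 = 0 := by
  have := kap_int 0
  simpa using this

theorem kap_even (t : ℝ) (m : ℤ) (h : kap t = 2 * m) : t = m :=
  le_antisymm ((kap_le t m).1 h.le) ((le_kap t m).1 h.ge)

theorem kap_odd (t : ℝ) (m : ℤ) : kap t = 2 * m + 1 ↔ ((m : ℝ) < t ∧ t < m + 1) := by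
  constructor
  · intro h
    refine ⟨(lt_kap t m).1 (by omega), ?_⟩
    have := (kap_lt t (m + 1)).1 (by omega)
    push_cast at this
    exact this
  · rintro ⟨h1, h2⟩
    have h3 := (lt_kap t m).2 h1
    have h4 := (kap_lt t (m + 1)).2 (by push_cast; exact h2)
    omega

/-- The doubled centre of the open grid cell of a point. -/
noncomputable def K (p : Plane) : ℤ × ℤ := (kap (p 0), kap (p 1))

/-- The closed unit square `c` contains the open grid cell with doubled centre `X`. -/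
def Near (c X : ℤ × ℤ) : Prop :=
  2 * c.1 ≤ X.1 ∧ X.1 ≤ 2 * c.1 + 2 ∧ 2 * c.2 ≤ X.2 ∧ X.2 ≤ 2 * c.2 + 2

theorem mem_cell_iff (p : Plane) (c : ℤ × ℤ) : p ∈ cell c ↔ Near c (K p) := by
  unfold cell Near K
  simp only [Set.mem_setOf_eq]
  have h1 := le_kap (p 0) c.1
  have h2 := kap_le (p 0) (c.1 + 1)
  have h3 := le_kap (p 1) c.2
  have h4 := kap_le (p 1) (c.2 + 1)
  push_cast at h2 h4
  rw [← h1, ← h2, ← h3, ← h4]
  constructor
  · rintro ⟨a, b, c, d⟩
    exact ⟨a, by omega, c, by omega⟩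
  · rintro ⟨a, b, c, d⟩
    exact ⟨a, by omega, c, by omega⟩

theorem cont0 : Continuous (fun p : Plane => p 0) := by fun_prop
theorem cont1 : Continuous (fun p : Plane => p 1) := by fun_prop

theorem isClosed_cell (c : ℤ × ℤ) : IsClosed (cell c) := by
  have : cell c = {p : Plane | (c.1 : ℝ) ≤ p 0} ∩ {p | p 0 ≤ c.1 + 1} ∩
      ({p | (c.2 : ℝ) ≤ p 1} ∩ {p | p 1 ≤ c.2 + 1}) := by
    ext p
    simp [cell, and_assoc]
  rw [this]
  exact ((isClosed_le continuous_const cont0).inter (isClosed_le cont0 continuous_const)).inter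
    ((isClosed_le continuous_const cont1).inter (isClosed_le cont1 continuous_const))

theorem isClosed_region (S : Finset (ℤ × ℤ)) : IsClosed (region S) := by
  unfold region
  exact isClosed_biUnion_finset (fun c _ => isClosed_cell c)

theorem mem_region_iff (S : Finset (ℤ × ℤ)) (p : Plane) :
    p ∈ region S ↔ ∃ c ∈ S, Near c (K p) := by
  unfold region
  simp only [Set.mem_iUnion, exists_prop, mem_cell_iff]

/-- Every point lies in some unit square. -/
theorem exists_near (X : ℤ × ℤ) : Near (X.1 / 2, X.2 / 2) X := by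
  unfold Near
  refine ⟨?_, ?_, ?_, ?_⟩ <;> simp only <;> omega

theorem exists_small_shift (p : Plane) (c : ℤ × ℤ) (h : p ∈ cell c) (δ : ℝ) (hδ : 0 < δ) :
    ∃ q : Plane, dist q p < δ ∧ K q = (2 * c.1 + 1, 2 * c.2 + 1) := by
  obtain ⟨h1, h2, h3, h4⟩ := h
  set s : ℝ := min (δ / 2) 1 with hs
  have hs0 : 0 < s := by
    rw [hs]; exact lt_min (by linarith) one_pos
  have hs1 : s ≤ 1 := min_le_right _ _
  have hs2 : s ≤ δ / 2 := min_le_left _ _
  -- move towards the centre of the square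
  set q : Plane := !₂[p 0 + s * ((c.1 : ℝ) + 1 / 2 - p 0), p 1 + s * ((c.2 : ℝ) + 1 / 2 - p 1)]
    with hq
  have q0 : q 0 = p 0 + s * ((c.1 : ℝ) + 1 / 2 - p 0) := by rw [hq]; rfl
  have q1 : q 1 = p 1 + s * ((c.2 : ℝ) + 1 / 2 - p 1) := by rw [hq]; rfl
  refine ⟨q, ?_, ?_⟩
  · rw [EuclideanSpace.dist_eq, Fin.sum_univ_two, Real.sqrt_lt' hδ, Real.dist_eq, Real.dist_eq,
      q0, q1, sq_abs, sq_abs]
    have e1 : (p 0 + s * ((c.1 : ℝ) + 1 / 2 - p 0) - p 0) ^ 2 ≤ s ^ 2 * (1 / 4) := by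
      have : (p 0 + s * ((c.1 : ℝ) + 1 / 2 - p 0) - p 0) ^ 2 =
        s ^ 2 * ((c.1 : ℝ) + 1 / 2 - p 0) ^ 2 := by ring
      rw [this]
      apply mul_le_mul_of_nonneg_left _ (sq_nonneg s)
      nlinarith
    have e2 : (p 1 + s * ((c.2 : ℝ) + 1 / 2 - p 1) - p 1) ^ 2 ≤ s ^ 2 * (1 / 4) := by
      have : (p 1 + s * ((c.2 : ℝ) + 1 / 2 - p 1) - p 1) ^ 2 =
        s ^ 2 * ((c.2 : ℝ) + 1 / 2 - p 1) ^ 2 := by ring
      rw [this]
      apply mul_le_mul_of_nonneg_left _ (sq_nonneg s)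
      nlinarith
    nlinarith
  · have k0 : kap (q 0) = 2 * c.1 + 1 := by
      rw [kap_odd, q0]
      constructor
      · nlinarith
      · nlinarith
    have k1 : kap (q 1) = 2 * c.2 + 1 := by
      rw [kap_odd, q1]
      constructor
      · nlinarith
      · nlinarith
    unfold K
    rw [k0, k1]

theorem nearby (p q : Plane) (h0 : (⌈p 0⌉ : ℝ) - 1 < q 0) (h0' : q 0 < ⌊p 0⌋ + 1)
    (h1 : (⌈p 1⌉ : ℝ) - 1 < q 1) (h1' : q 1 < ⌊p 1⌋ + 1) (c : ℤ × ℤ) (hc : q ∈ cell c) :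
    p ∈ cell c := by
  obtain ⟨a, b, d, e⟩ := hc
  refine ⟨?_, ?_, ?_, ?_⟩
  · have : (c.1 : ℝ) < (⌊p 0⌋ + 1 : ℤ) := by push_cast; linarith
    have : c.1 ≤ ⌊p 0⌋ := by
      have := Int.cast_lt.mp this
      omega
    exact Int.le_floor.mp this
  · have : ((⌈p 0⌉ - 1 : ℤ) : ℝ) < (c.1 + 1 : ℤ) := by push_cast; linarith
    have : ⌈p 0⌉ ≤ c.1 + 1 := by
      have := Int.cast_lt.mp this
      omega
    have := Int.ceil_le.mp this
    push_cast at this
    exact this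
  · have : (c.2 : ℝ) < (⌊p 1⌋ + 1 : ℤ) := by push_cast; linarith
    have : c.2 ≤ ⌊p 1⌋ := by
      have := Int.cast_lt.mp this
      omega
    exact Int.le_floor.mp this
  · have : ((⌈p 1⌉ - 1 : ℤ) : ℝ) < (c.2 + 1 : ℤ) := by push_cast; linarith
    have : ⌈p 1⌉ ≤ c.2 + 1 := by
      have := Int.cast_lt.mp this
      omega
    have := Int.ceil_le.mp this
    push_cast at this
    exact this

theorem interior_region_iff (S : Finset (ℤ × ℤ)) (p : Plane) :
    p ∈ interior (region S) ↔ ∀ c, Near c (K p) → c ∈ S := by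
  constructor
  · intro hp c hc
    rw [mem_interior_iff_mem_nhds, Metric.mem_nhds_iff] at hp
    obtain ⟨δ, hδ, hball⟩ := hp
    obtain ⟨q, hq, hKq⟩ := exists_small_shift p c ((mem_cell_iff p c).2 hc) δ hδ
    have : q ∈ region S := hball hq
    rw [mem_region_iff] at this
    obtain ⟨d, hd, hn⟩ := this
    rw [hKq] at hn
    unfold Near at hn
    simp only at hn
    have : d = c := by
      apply Prod.ext <;> omega
    rw [← this]; exact hd
  · intro h
    rw [mem_interior_iff_mem_nhds]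
    have hopen : IsOpen {q : Plane | (((⌈p 0⌉ : ℝ) - 1 < q 0) ∧ q 0 < ⌊p 0⌋ + 1) ∧
        (((⌈p 1⌉ : ℝ) - 1 < q 1) ∧ q 1 < ⌊p 1⌋ + 1)} := by
      apply IsOpen.and
      · exact (isOpen_lt continuous_const cont0).and (isOpen_lt cont0 continuous_const)
      · exact (isOpen_lt continuous_const cont1).and (isOpen_lt cont1 continuous_const)
    have hmem : p ∈ {q : Plane | (((⌈p 0⌉ : ℝ) - 1 < q 0) ∧ q 0 < ⌊p 0⌋ + 1) ∧
        (((⌈p 1⌉ : ℝ) - 1 < q 1) ∧ q 1 < ⌊p 1⌋ + 1)} := by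
      have a0 := Int.ceil_lt_add_one (p 0)
      have a1 := Int.ceil_lt_add_one (p 1)
      have b0 := Int.lt_floor_add_one (p 0)
      have b1 := Int.lt_floor_add_one (p 1)
      exact ⟨⟨by linarith, b0⟩, ⟨by linarith, b1⟩⟩
    refine Filter.mem_of_superset (hopen.mem_nhds hmem) ?_
    intro q hq
    obtain ⟨⟨h0, h0'⟩, ⟨h1, h1'⟩⟩ := hq
    rw [mem_region_iff]
    refine ⟨_, ?_, exists_near (K q)⟩
    apply h
    rw [← mem_cell_iff]
    apply nearby p q h0 h0' h1 h1'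
    rw [mem_cell_iff]
    exact exists_near (K q)

theorem frontier_region_iff (S : Finset (ℤ × ℤ)) (p : Plane) :
    p ∈ frontier (region S) ↔ (∃ c ∈ S, Near c (K p)) ∧ ∃ c, c ∉ S ∧ Near c (K p) := by
  rw [(isClosed_region S).frontier_eq, Set.mem_diff, mem_region_iff, interior_region_iff]
  push Not
  constructor
  · rintro ⟨a, c, b, d⟩; exact ⟨a, c, d, b⟩
  · rintro ⟨a, c, b, d⟩; exact ⟨a, c, d, b⟩

end Pool.Agent.Helper72.RepCube
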