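import Pool.Agent.Helper72.RepCube.Cert

/-!
Soundness of the certificates for uniform rep-cubes.
-/

namespace Pool.Agent.Helper72.RepCube

theorem beq_eq {m n : ℕ} (h : Nat.beq m n = true) : m = n := Nat.eq_of_beq_eq_true h
theorem ble_le {m n : ℕ} (h : Nat.ble m n = true) : m ≤ n := Nat.le_of_ble_eq_true h
theorem blt_lt {m n : ℕ} (h : Nat.blt m n = true) : m < n := Nat.le_of_ble_eq_true h

theorem imp_of {a b : Bool} (h : (!a || b) = true) (ha : a = true) : b = true := by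
  cases a <;> simp_all

variable (D : Data)

/-- The unit squares of the figure described by the data. -/
def Data.S : Finset (ℤ × ℤ) :=
  ((Finset.range D.W ×ˢ Finset.range D.H).filter (fun p => D.inS p.1 p.2 = true)).image
    (fun p => ((p.1 : ℤ), (p.2 : ℤ)))

/-- The labels of the lattice points. -/
def Data.psi (c : ℤ × ℤ) (l : Fin 3) : ℤ := (dig (D.lab c.1.toNat c.2.toNat) l : ℕ)

theorem Data.mem_S (c : ℤ × ℤ) :
    c ∈ D.S ↔ ∃ x y : ℕ, x < D.W ∧ y < D.H ∧ D.inS x y = true ∧ c = ((x : ℤ), (y : ℤ)) := by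
  unfold Data.S
  simp only [Finset.mem_image, Finset.mem_filter, Finset.mem_product, Finset.mem_range,
    Prod.exists]
  constructor
  · rintro ⟨x, y, ⟨⟨h1, h2⟩, h3⟩, h4⟩
    exact ⟨x, y, h1, h2, h3, h4.symm⟩
  · rintro ⟨x, y, h1, h2, h3, h4⟩
    exact ⟨x, y, ⟨⟨h1, h2⟩, h3⟩, h4.symm⟩

theorem Data.mem_S_nat (x y : ℕ) (hx : x < D.W) (hy : y < D.H) :
    (((x : ℤ), (y : ℤ)) ∈ D.S) ↔ D.inS x y = true := by
  rw [D.mem_S]
  constructor
  · rintro ⟨x', y', h1, h2, h3, h4⟩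
    rw [Prod.mk.injEq] at h4
    have e1 : x = x' := by exact_mod_cast h4.1
    have e2 : y = y' := by exact_mod_cast h4.2
    rw [e1, e2]; exact h3
  · intro h
    exact ⟨x, y, hx, hy, h, rfl⟩

theorem chkBox_spec (h : D.chkBox = true) (x y : ℕ) (hx : x < D.W) (hy : y < D.H)
    (hS : D.inS x y = true) : 1 ≤ x ∧ x + 2 ≤ D.W ∧ 1 ≤ y ∧ y + 2 ≤ D.H := by
  unfold Data.chkBox at h
  rw [allLt_iff] at h
  have h1 := h x hx
  rw [allLt_iff] at h1
  have h2 := imp_of (h1 y hy) hS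
  simp only [Bool.and_eq_true] at h2
  obtain ⟨⟨⟨a, b⟩, c⟩, d⟩ := h2
  exact ⟨ble_le a, ble_le b, ble_le c, ble_le d⟩

theorem near_bounds (h : D.chkBox = true) (c X : ℤ × ℤ) (hc : c ∈ D.S) (hn : Near c X) :
    ∃ p q : ℕ, X = ((p : ℤ), (q : ℤ)) ∧ 1 ≤ p ∧ p < 2 * D.W ∧ 1 ≤ q ∧ q < 2 * D.H := by
  rw [D.mem_S] at hc
  obtain ⟨x, y, hx, hy, hS, rfl⟩ := hc
  obtain ⟨b1, b2, b3, b4⟩ := chkBox_spec D h x y hx hy hS
  obtain ⟨n1, n2, n3, n4⟩ := hn
  simp only at n1 n2 n3 n4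
  refine ⟨X.1.toNat, X.2.toNat, ?_, ?_, ?_, ?_, ?_⟩
  · ext <;> simp only <;> omega
  · omega
  · omega
  · omega
  · omega

theorem near_nat (c : ℤ × ℤ) (p q : ℕ) (hp : 1 ≤ p) (hq : 1 ≤ q)
    (hn : Near c ((p : ℤ), (q : ℤ))) :
    c = ((((p - 1) / 2 : ℕ) : ℤ), (((q - 1) / 2 : ℕ) : ℤ)) ∨
    c = (((p / 2 : ℕ) : ℤ), (((q - 1) / 2 : ℕ) : ℤ)) ∨
    c = ((((p - 1) / 2 : ℕ) : ℤ), ((q / 2 : ℕ) : ℤ)) ∨
    c = (((p / 2 : ℕ) : ℤ), ((q / 2 : ℕ) : ℤ)) := by
  obtain ⟨n1, n2, n3, n4⟩ := hn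
  simp only at n1 n2 n3 n4
  have h1 : c.1 = (((p - 1) / 2 : ℕ) : ℤ) ∨ c.1 = ((p / 2 : ℕ) : ℤ) := by omega
  have h2 : c.2 = (((q - 1) / 2 : ℕ) : ℤ) ∨ c.2 = ((q / 2 : ℕ) : ℤ) := by omega
  rcases h1 with h1 | h1 <;> rcases h2 with h2 | h2
  · left; exact Prod.ext h1 h2
  · right; right; left; exact Prod.ext h1 h2
  · right; left; exact Prod.ext h1 h2
  · right; right; right; exact Prod.ext h1 h2

theorem near_four (p q : ℕ) (hp : 1 ≤ p) (hq : 1 ≤ q) :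
    Near ((((p - 1) / 2 : ℕ) : ℤ), (((q - 1) / 2 : ℕ) : ℤ)) ((p : ℤ), (q : ℤ)) ∧
    Near (((p / 2 : ℕ) : ℤ), (((q - 1) / 2 : ℕ) : ℤ)) ((p : ℤ), (q : ℤ)) ∧
    Near ((((p - 1) / 2 : ℕ) : ℤ), ((q / 2 : ℕ) : ℤ)) ((p : ℤ), (q : ℤ)) ∧
    Near (((p / 2 : ℕ) : ℤ), ((q / 2 : ℕ) : ℤ)) ((p : ℤ), (q : ℤ)) := by
  unfold Near
  simp only
  omega

theorem intN_iff (p q : ℕ) (hp : 1 ≤ p) (hp' : p < 2 * D.W) (hq : 1 ≤ q) (hq' : q < 2 * D.H) :
    (∀ c, Near c ((p : ℤ), (q : ℤ)) → c ∈ D.S) ↔ D.intN p q = true := by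
  obtain ⟨f1, f2, f3, f4⟩ := near_four p q hp hq
  have a1 : (p - 1) / 2 < D.W := by omega
  have a2 : p / 2 < D.W := by omega
  have a3 : (q - 1) / 2 < D.H := by omega
  have a4 : q / 2 < D.H := by omega
  unfold Data.intN
  simp only [Bool.and_eq_true]
  constructor
  · intro h
    exact ⟨⟨⟨(D.mem_S_nat _ _ a1 a3).1 (h _ f1), (D.mem_S_nat _ _ a2 a3).1 (h _ f2)⟩,
      (D.mem_S_nat _ _ a1 a4).1 (h _ f3)⟩, (D.mem_S_nat _ _ a2 a4).1 (h _ f4)⟩
  · rintro ⟨⟨⟨h1, h2⟩, h3⟩, h4⟩ c hc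
    rcases near_nat c p q hp hq hc with h | h | h | h
    · rw [h]; exact (D.mem_S_nat _ _ a1 a3).2 h1
    · rw [h]; exact (D.mem_S_nat _ _ a2 a3).2 h2
    · rw [h]; exact (D.mem_S_nat _ _ a1 a4).2 h3
    · rw [h]; exact (D.mem_S_nat _ _ a2 a4).2 h4

theorem someN_iff (p q : ℕ) (hp : 1 ≤ p) (hp' : p < 2 * D.W) (hq : 1 ≤ q) (hq' : q < 2 * D.H) :
    (∃ c ∈ D.S, Near c ((p : ℤ), (q : ℤ))) ↔ D.someN p q = true := by
  obtain ⟨f1, f2, f3, f4⟩ := near_four p q hp hq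
  have a1 : (p - 1) / 2 < D.W := by omega
  have a2 : p / 2 < D.W := by omega
  have a3 : (q - 1) / 2 < D.H := by omega
  have a4 : q / 2 < D.H := by omega
  unfold Data.someN
  simp only [Bool.or_eq_true]
  constructor
  · rintro ⟨c, hc, hn⟩
    rcases near_nat c p q hp hq hn with h | h | h | h
    · left; left; left; rw [h] at hc; exact (D.mem_S_nat _ _ a1 a3).1 hc
    · left; left; right; rw [h] at hc; exact (D.mem_S_nat _ _ a2 a3).1 hc
    · left; right; rw [h] at hc; exact (D.mem_S_nat _ _ a1 a4).1 hc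
    · right; rw [h] at hc; exact (D.mem_S_nat _ _ a2 a4).1 hc
  · rintro (((h | h) | h) | h)
    · exact ⟨_, (D.mem_S_nat _ _ a1 a3).2 h, f1⟩
    · exact ⟨_, (D.mem_S_nat _ _ a2 a3).2 h, f2⟩
    · exact ⟨_, (D.mem_S_nat _ _ a1 a4).2 h, f3⟩
    · exact ⟨_, (D.mem_S_nat _ _ a2 a4).2 h, f4⟩

theorem bdN_iff (p q : ℕ) (hp : 1 ≤ p) (hp' : p < 2 * D.W) (hq : 1 ≤ q) (hq' : q < 2 * D.H) :
    BdElt D.S ((p : ℤ), (q : ℤ)) ↔ D.bdN p q = true := by
  unfold BdElt Data.bdN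
  rw [someN_iff D p q hp hp' hq hq', Bool.and_eq_true, Bool.not_eq_true', ← Bool.not_eq_true,
    ← intN_iff D p q hp hp' hq hq']
  push Not
  constructor
  · rintro ⟨h1, c, h2, h3⟩; exact ⟨h1, c, h3, h2⟩
  · rintro ⟨h1, c, h2, h3⟩; exact ⟨h1, c, h3, h2⟩

theorem dig_sum (n : ℕ) : n = dig n 0 + 16 * dig n 1 + 256 * dig n 2 := by
  unfold dig
  simp only
  omega

theorem goodLab_sound (a A B E F : ℕ) (h : goodLab a A B E F = true) :
    GoodLabels (fun l => ((dig A l : ℕ) : ℤ)) (fun l => ((dig B l : ℕ) : ℤ))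
      (fun l => ((dig E l : ℕ) : ℤ)) (fun l => ((dig F l : ℕ) : ℤ)) ∧
    (∀ l : Fin 3, dig A l ≤ a ∧ dig B l ≤ a ∧ dig E l ≤ a ∧ dig F l ≤ a) ∧
    ∃ l : Fin 3, (dig A l = 0 ∨ dig A l = a) ∧ dig B l = dig A l ∧ dig E l = dig A l := by
  unfold goodLab at h
  simp only [Bool.and_eq_true] at h
  obtain ⟨⟨⟨⟨⟨g0, g1⟩, g2⟩, o1⟩, o2⟩, fl⟩ := h
  have hd : ∀ l : Fin 3, (dig F l + dig A l = dig B l + dig E l) ∧ dig B l ≤ dig A l + 1 ∧
      dig A l ≤ dig B l + 1 ∧ dig E l ≤ dig A l + 1 ∧ dig A l ≤ dig E l + 1 ∧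
      (dig B l = dig A l ∨ dig E l = dig A l) ∧ dig A l ≤ a ∧ dig B l ≤ a ∧ dig E l ≤ a ∧
      dig F l ≤ a := by
    have gen : ∀ l, goodDig a A B E F l = true → (dig F l + dig A l = dig B l + dig E l) ∧
      dig B l ≤ dig A l + 1 ∧
      dig A l ≤ dig B l + 1 ∧ dig E l ≤ dig A l + 1 ∧ dig A l ≤ dig E l + 1 ∧
      (dig B l = dig A l ∨ dig E l = dig A l) ∧ dig A l ≤ a ∧ dig B l ≤ a ∧ dig E l ≤ a ∧
      dig F l ≤ a := by
      intro l hl
      unfold goodDig at hl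
      simp only [Bool.and_eq_true, Bool.or_eq_true] at hl
      obtain ⟨⟨⟨⟨⟨⟨⟨⟨⟨h1, h2⟩, h3⟩, h4⟩, h5⟩, h6⟩, h7⟩, h8⟩, h9⟩, h10⟩ := hl
      exact ⟨beq_eq h1, ble_le h2, ble_le h3, ble_le h4, ble_le h5, h6.imp beq_eq beq_eq,
        ble_le h7, ble_le h8, ble_le h9, ble_le h10⟩
    intro l
    fin_cases l
    · exact gen 0 g0
    · exact gen 1 g1
    · exact gen 2 g2
  have hone : ∀ B' : ℕ, one3 A B' = true → (∀ l : Fin 3, dig B' l ≤ dig A l + 1 ∧
      dig A l ≤ dig B' l + 1) → ((dig B' 0 : ℤ) - dig A 0) ^ 2 + ((dig B' 1 : ℤ) - dig A 1) ^ 2 +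
      ((dig B' 2 : ℤ) - dig A 2) ^ 2 = 1 := by
    intro B' hB' hle
    have l0 : dig B' 0 ≤ dig A 0 + 1 ∧ dig A 0 ≤ dig B' 0 + 1 := hle 0
    have l1 : dig B' 1 ≤ dig A 1 + 1 ∧ dig A 1 ≤ dig B' 1 + 1 := hle 1
    have l2 : dig B' 2 ≤ dig A 2 + 1 ∧ dig A 2 ≤ dig B' 2 + 1 := hle 2
    have sq1 : ∀ m n : ℕ, m ≤ n + 1 → n ≤ m + 1 → m ≠ n → ((m : ℤ) - n) ^ 2 = 1 := by
      intro m n h1 h2 h3
      have : (m : ℤ) - n = 1 ∨ (m : ℤ) - n = -1 := by omega
      rcases this with h | h <;> rw [h] <;> norm_num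
    have sq0 : ∀ m n : ℕ, n = m → ((m : ℤ) - n) ^ 2 = 0 := by
      intro m n h
      rw [h]; ring
    unfold one3 at hB'
    cases e0 : Nat.beq (dig A 0) (dig B' 0) <;> cases e1 : Nat.beq (dig A 1) (dig B' 1) <;>
    cases e2 : Nat.beq (dig A 2) (dig B' 2) <;> rw [e0, e1, e2] at hB' <;>
    simp only [Bool.false_eq_true] at hB'
    · rw [sq1 _ _ l0.1 l0.2 (fun h => Nat.ne_of_beq_eq_false e0 h.symm),
        sq0 _ _ (beq_eq e1), sq0 _ _ (beq_eq e2)]
      norm_num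
    · rw [sq0 _ _ (beq_eq e0), sq1 _ _ l1.1 l1.2 (fun h => Nat.ne_of_beq_eq_false e1 h.symm),
        sq0 _ _ (beq_eq e2)]
      norm_num
    · rw [sq0 _ _ (beq_eq e0), sq0 _ _ (beq_eq e1),
        sq1 _ _ l2.1 l2.2 (fun h => Nat.ne_of_beq_eq_false e2 h.symm)]
      norm_num
  refine ⟨⟨?_, ?_, ?_, ?_, ?_, ?_⟩, ?_, ?_⟩
  · intro l
    have := (hd l).1
    omega
  · intro l
    obtain ⟨_, h2, h3, _⟩ := hd l
    omega
  · intro l
    obtain ⟨_, _, _, h2, h3, _⟩ := hd l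
    omega
  · intro l
    obtain ⟨_, _, _, _, _, h, _⟩ := hd l
    omega
  · exact hone B o1 (fun l => ⟨(hd l).2.1, (hd l).2.2.1⟩)
  · exact hone E o2 (fun l => ⟨(hd l).2.2.2.1, (hd l).2.2.2.2.1⟩)
  · intro l
    exact (hd l).2.2.2.2.2.2
  · simp only [Bool.or_eq_true] at fl
    have gen : ∀ l, flat a A B E l = true → (dig A l = 0 ∨ dig A l = a) ∧ dig B l = dig A l ∧
        dig E l = dig A l := by
      intro l hl
      unfold flat at hl
      simp only [Bool.and_eq_true, Bool.or_eq_true] at hl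
      exact ⟨hl.1.1.imp beq_eq beq_eq, beq_eq hl.1.2, beq_eq hl.2⟩
    rcases fl with (f | f) | f
    · exact ⟨0, gen 0 f⟩
    · exact ⟨1, gen 1 f⟩
    · exact ⟨2, gen 2 f⟩

theorem chkLab_spec (h : D.chkLab = true) (x y : ℕ) (hx : x < D.W) (hy : y < D.H)
    (hS : D.inS x y = true) :
    goodLab D.a (D.lab x y) (D.lab (x + 1) y) (D.lab x (y + 1)) (D.lab (x + 1) (y + 1)) = true := by
  unfold Data.chkLab at h
  rw [allLt_iff] at h
  have h1 := h x hx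
  rw [allLt_iff] at h1
  exact imp_of (h1 y hy) hS

theorem toNat_add_one (x : ℕ) : ((x : ℤ) + 1).toNat = x + 1 := by omega

theorem psi_four (x y : ℕ) :
    D.psi ((x : ℤ), (y : ℤ)) = (fun l : Fin 3 => ((dig (D.lab x y) l : ℕ) : ℤ)) ∧
    D.psi ((x : ℤ) + 1, (y : ℤ)) = (fun l : Fin 3 => ((dig (D.lab (x + 1) y) l : ℕ) : ℤ)) ∧
    D.psi ((x : ℤ), (y : ℤ) + 1) = (fun l : Fin 3 => ((dig (D.lab x (y + 1)) l : ℕ) : ℤ)) ∧
    D.psi ((x : ℤ) + 1, (y : ℤ) + 1) =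
      (fun l : Fin 3 => ((dig (D.lab (x + 1) (y + 1)) l : ℕ) : ℤ)) := by
  unfold Data.psi
  simp only [Int.toNat_natCast, toNat_add_one]
  exact ⟨trivial, trivial, trivial, trivial⟩

theorem dbl_nat (p q : ℕ) (l : Fin 3) : dbl D.psi ((p : ℤ), (q : ℤ)) l =
    ((dig (D.lab (p / 2) (q / 2)) l + dig (D.lab ((p + 1) / 2) ((q + 1) / 2)) l : ℕ) : ℤ) := by
  unfold dbl Data.psi
  simp only
  have e1 : ((p : ℤ) / 2).toNat = p / 2 := by omega
  have e2 : ((q : ℤ) / 2).toNat = q / 2 := by omega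
  have e3 : (((p : ℤ) + 1) / 2).toNat = (p + 1) / 2 := by omega
  have e4 : (((q : ℤ) + 1) / 2).toNat = (q + 1) / 2 := by omega
  rw [e1, e2, e3, e4]
  push_cast
  ring

theorem code_of_digits (p q p' q' : ℕ)
    (h : ∀ l, dbl D.psi ((p : ℤ), (q : ℤ)) l = dbl D.psi ((p' : ℤ), (q' : ℤ)) l) :
    D.code p q = D.code p' q' := by
  have h0 := h 0
  have h1 := h 1
  have h2 := h 2
  rw [dbl_nat, dbl_nat] at h0 h1 h2
  have h0' := Int.ofNat.inj h0
  have h1' := Int.ofNat.inj h1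
  have h2' := Int.ofNat.inj h2
  unfold Data.code
  have s1 := dig_sum (D.lab (p / 2) (q / 2))
  have s2 := dig_sum (D.lab ((p + 1) / 2) ((q + 1) / 2))
  have s3 := dig_sum (D.lab (p' / 2) (q' / 2))
  have s4 := dig_sum (D.lab ((p' + 1) / 2) ((q' + 1) / 2))
  have k0 : dig (D.lab (p / 2) (q / 2)) 0 + dig (D.lab ((p + 1) / 2) ((q + 1) / 2)) 0 =
    dig (D.lab (p' / 2) (q' / 2)) 0 + dig (D.lab ((p' + 1) / 2) ((q' + 1) / 2)) 0 := h0'
  have k1 : dig (D.lab (p / 2) (q / 2)) 1 + dig (D.lab ((p + 1) / 2) ((q + 1) / 2)) 1 =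
    dig (D.lab (p' / 2) (q' / 2)) 1 + dig (D.lab ((p' + 1) / 2) ((q' + 1) / 2)) 1 := h1'
  have k2 : dig (D.lab (p / 2) (q / 2)) 2 + dig (D.lab ((p + 1) / 2) ((q + 1) / 2)) 2 =
    dig (D.lab (p' / 2) (q' / 2)) 2 + dig (D.lab ((p' + 1) / 2) ((q' + 1) / 2)) 2 := h2'
  omega

theorem chkInj_spec (h : D.chkInj = true) (p q : ℕ) (hp : p < 2 * D.W) (hq : q < 2 * D.H)
    (hS : D.intN p q = true) : D.inv (D.code p q) = p + 2 * D.W * q := by
  unfold Data.chkInj at h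
  rw [allLt_iff] at h
  have h1 := h p hp
  rw [allLt_iff] at h1
  exact beq_eq (imp_of (h1 q hq) hS)

theorem idx_inj (w p q p' q' : ℕ) (hp : p < w) (hp' : p' < w) (h : p + w * q = p' + w * q') :
    p = p' ∧ q = q' := by
  have hw : 0 < w := by omega
  have h1 : (p + w * q) / w = q := by
    rw [Nat.add_mul_div_left _ _ hw, Nat.div_eq_of_lt hp, zero_add]
  have h2 : (p' + w * q') / w = q' := by
    rw [Nat.add_mul_div_left _ _ hw, Nat.div_eq_of_lt hp', zero_add]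
  have h3 : q = q' := by rw [← h1, ← h2, h]
  subst h3
  omega

theorem hit_spec (hW : 1 ≤ D.W) (c : ℕ) (h : D.hit c = true) :
    ∃ x y : ℕ, x < D.W ∧ y < D.H ∧ D.inS x y = true ∧
      D.lab x y + D.lab (x + 1) (y + 1) = c := by
  unfold Data.hit at h
  simp only [Bool.and_eq_true] at h
  obtain ⟨⟨⟨⟨h1, h2⟩, h3⟩, h4⟩, h5⟩ := h
  have h1 := beq_eq h1
  have h2 := beq_eq h2
  have h3 := blt_lt h3
  have h5 := beq_eq h5
  have hlt : D.inv c % (2 * D.W) < 2 * D.W := Nat.mod_lt _ (by omega)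
  generalize D.inv c % (2 * D.W) = X at *
  generalize D.inv c / (2 * D.W) = Y at *
  refine ⟨X / 2, Y / 2, by omega, h3, h4, ?_⟩
  unfold Data.code at h5
  have e1 : (X + 1) / 2 = X / 2 + 1 := by omega
  have e2 : (Y + 1) / 2 = Y / 2 + 1 := by omega
  rw [e1, e2] at h5
  exact h5

theorem folding_sound (ha : 1 ≤ D.a) (ha' : D.a ≤ 7) (hW : 1 ≤ D.W) (hbox : D.chkBox = true)
    (hlab : D.chkLab = true) (hinj : D.chkInj = true) (honto : D.chkOnto = true) :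
    IsFolding (foldMap D.psi) (region D.S) D.a := by
  apply isFolding_of_labels D.S D.psi D.a ha
  · intro c hc
    rw [D.mem_S] at hc
    obtain ⟨x, y, hx, hy, hS, rfl⟩ := hc
    obtain ⟨g, _, _⟩ := goodLab_sound _ _ _ _ _ (chkLab_spec D hlab x y hx hy hS)
    obtain ⟨e1, e2, e3, e4⟩ := psi_four D x y
    simp only
    rw [e1, e2, e3, e4]
    exact g
  · intro c hc l
    rw [D.mem_S] at hc
    obtain ⟨x, y, hx, hy, hS, rfl⟩ := hc
    obtain ⟨_, g, _⟩ := goodLab_sound _ _ _ _ _ (chkLab_spec D hlab x y hx hy hS)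
    obtain ⟨e1, e2, e3, e4⟩ := psi_four D x y
    simp only
    rw [e1, e2, e3]
    simp only
    obtain ⟨g1, g2, g3, _⟩ := g l
    exact ⟨⟨by positivity, by exact_mod_cast g1⟩, ⟨by positivity, by exact_mod_cast g2⟩,
      ⟨by positivity, by exact_mod_cast g3⟩⟩
  · intro c hc
    rw [D.mem_S] at hc
    obtain ⟨x, y, hx, hy, hS, rfl⟩ := hc
    obtain ⟨_, _, l, hl, hl1, hl2⟩ := goodLab_sound _ _ _ _ _ (chkLab_spec D hlab x y hx hy hS)
    obtain ⟨e1, e2, e3, e4⟩ := psi_four D x y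
    refine ⟨l, ?_⟩
    simp only
    rw [e1, e2, e3]
    simp only
    rw [hl1, hl2]
    refine ⟨?_, rfl, rfl⟩
    rcases hl with h | h
    · left; rw [h]; rfl
    · right; rw [h]
  · intro X Y hX hY hXY
    obtain ⟨p, q, rfl, p1, p2, q1, q2⟩ := near_bounds D hbox _ X (hX _ (exists_near X))
      (exists_near X)
    obtain ⟨p', q', rfl, p1', p2', q1', q2'⟩ := near_bounds D hbox _ Y (hY _ (exists_near Y))
      (exists_near Y)
    have i1 := (intN_iff D p q p1 p2 q1 q2).1 hX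
    have i2 := (intN_iff D p' q' p1' p2' q1' q2').1 hY
    have c1 := chkInj_spec D hinj p q p2 q2 i1
    have c2 := chkInj_spec D hinj p' q' p2' q2' i2
    have hc := code_of_digits D p q p' q' hXY
    rw [hc, c2] at c1
    obtain ⟨e1, e2⟩ := idx_inj _ _ _ _ _ p2' p2 c1
    rw [e1, e2]
  · intro Γ hΓ
    obtain ⟨l, hl, hj⟩ := hΓ
    unfold Data.chkOnto at honto
    have hcode : ∃ e m n : ℕ, e < 2 ∧ m < D.a ∧ n < D.a ∧
        ((Γ 0 = 2 * D.a * e ∧ Γ 1 = 2 * m + 1 ∧ Γ 2 = 2 * n + 1) ∨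
         (Γ 0 = 2 * m + 1 ∧ Γ 1 = 2 * D.a * e ∧ Γ 2 = 2 * n + 1) ∨
         (Γ 0 = 2 * m + 1 ∧ Γ 1 = 2 * n + 1 ∧ Γ 2 = 2 * D.a * e)) := by
      have hE : ∃ e : ℕ, e < 2 ∧ Γ l = 2 * D.a * e := by
        rcases hl with h | h
        · exact ⟨0, by norm_num, by rw [h]; simp⟩
        · exact ⟨1, by norm_num, by rw [h]; simp⟩
      have hO : ∀ j, j ≠ l → ∃ m : ℕ, m < D.a ∧ Γ j = 2 * m + 1 := by
        intro j hjl
        obtain ⟨h1, h2, h3⟩ := hj j hjl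
        refine ⟨(Γ j / 2).toNat, ?_, ?_⟩ <;> omega
      obtain ⟨e, he, he'⟩ := hE
      fin_cases l
      · obtain ⟨m, hm, hm'⟩ := hO 1 (by decide)
        obtain ⟨n, hn, hn'⟩ := hO 2 (by decide)
        exact ⟨e, m, n, he, hm, hn, Or.inl ⟨he', hm', hn'⟩⟩
      · obtain ⟨m, hm, hm'⟩ := hO 0 (by decide)
        obtain ⟨n, hn, hn'⟩ := hO 2 (by decide)
        exact ⟨e, m, n, he, hm, hn, Or.inr (Or.inl ⟨hm', he', hn'⟩)⟩
      · obtain ⟨m, hm, hm'⟩ := hO 0 (by decide)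
        obtain ⟨n, hn, hn'⟩ := hO 1 (by decide)
        exact ⟨e, m, n, he, hm, hn, Or.inr (Or.inr ⟨hm', hn', he'⟩)⟩
    obtain ⟨e, m, n, he, hm, hn, hcases⟩ := hcode
    rw [allLt_iff] at honto
    have h1 := honto e he
    rw [allLt_iff] at h1
    have h2 := h1 m hm
    rw [allLt_iff] at h2
    have h3 := h2 n hn
    simp only [Bool.and_eq_true] at h3
    obtain ⟨⟨t1, t2⟩, t3⟩ := h3
    have key : ∃ g0 g1 g2 : ℕ, g0 < 16 ∧ g1 < 16 ∧ Γ 0 = g0 ∧ Γ 1 = g1 ∧ Γ 2 = g2 ∧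
        D.hit (g0 + 16 * g1 + 256 * g2) = true := by
      have hae : 2 * D.a * e < 16 := by
        have : e = 0 ∨ e = 1 := by omega
        rcases this with h | h <;> rw [h] <;> omega
      rcases hcases with ⟨c0, c1, c2⟩ | ⟨c0, c1, c2⟩ | ⟨c0, c1, c2⟩
      · exact ⟨2 * D.a * e, 2 * m + 1, 2 * n + 1, hae, by omega, by rw [c0]; push_cast; ring,
          by rw [c1]; push_cast; ring, by rw [c2]; push_cast; ring, t1⟩
      · exact ⟨2 * m + 1, 2 * D.a * e, 2 * n + 1, by omega, hae, by rw [c0]; push_cast; ring,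
          by rw [c1]; push_cast; ring, by rw [c2]; push_cast; ring, t2⟩
      · exact ⟨2 * m + 1, 2 * n + 1, 2 * D.a * e, by omega, by omega, by rw [c0]; push_cast; ring,
          by rw [c1]; push_cast; ring, by rw [c2]; push_cast; ring, t3⟩
    obtain ⟨g0, g1, g2, b0, b1, k0, k1, k2, hhit⟩ := key
    obtain ⟨x, y, hx, hy, hS, hsum⟩ := hit_spec D hW _ hhit
    refine ⟨((x : ℤ), (y : ℤ)), (D.mem_S_nat x y hx hy).2 hS, ?_⟩
    obtain ⟨_, gb, _⟩ := goodLab_sound _ _ _ _ _ (chkLab_spec D hlab x y hx hy hS)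
    have hdbl : ∀ l : Fin 3, dbl D.psi (2 * (x : ℤ) + 1, 2 * (y : ℤ) + 1) l =
        ((dig (D.lab x y) l + dig (D.lab (x + 1) (y + 1)) l : ℕ) : ℤ) := by
      intro l
      have e1 : 2 * (x : ℤ) + 1 = ((2 * x + 1 : ℕ) : ℤ) := by push_cast; ring
      have e2 : 2 * (y : ℤ) + 1 = ((2 * y + 1 : ℕ) : ℤ) := by push_cast; ring
      rw [e1, e2, dbl_nat]
      have f1 : (2 * x + 1) / 2 = x := by omega
      have f2 : (2 * y + 1) / 2 = y := by omega
      have f3 : (2 * x + 1 + 1) / 2 = x + 1 := by omega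
      have f4 : (2 * y + 1 + 1) / 2 = y + 1 := by omega
      rw [f1, f2, f3, f4]
    have s1 := dig_sum (D.lab x y)
    have s2 := dig_sum (D.lab (x + 1) (y + 1))
    have q0 : dig (D.lab x y) 0 ≤ D.a ∧ _ ∧ _ ∧ dig (D.lab (x + 1) (y + 1)) 0 ≤ D.a := gb 0
    have q1 : dig (D.lab x y) 1 ≤ D.a ∧ _ ∧ _ ∧ dig (D.lab (x + 1) (y + 1)) 1 ≤ D.a := gb 1
    obtain ⟨q0a, _, _, q0b⟩ := q0
    obtain ⟨q1a, _, _, q1b⟩ := q1
    have r : (dig (D.lab x y) 0 + dig (D.lab (x + 1) (y + 1)) 0 = g0) ∧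
        (dig (D.lab x y) 1 + dig (D.lab (x + 1) (y + 1)) 1 = g1) ∧
        (dig (D.lab x y) 2 + dig (D.lab (x + 1) (y + 1)) 2 = g2) := by
      refine ⟨?_, ?_, ?_⟩ <;> omega
    obtain ⟨r0, r1, r2⟩ := r
    intro l
    rw [hdbl]
    fin_cases l
    · show ((dig (D.lab x y) 0 + dig (D.lab (x + 1) (y + 1)) 0 : ℕ) : ℤ) = Γ 0
      rw [r0, k0]
    · show ((dig (D.lab x y) 1 + dig (D.lab (x + 1) (y + 1)) 1 : ℕ) : ℤ) = Γ 1
      rw [r1, k1]
    · show ((dig (D.lab x y) 2 + dig (D.lab (x + 1) (y + 1)) 2 : ℕ) : ℤ) = Γ 2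
      rw [r2, k2]

theorem ptOk_spec (X Y i : ℕ) (h : D.ptOk X Y i = true) :
    1 ≤ X ∧ 1 ≤ Y ∧ X < 2 * D.W ∧ Y < 2 * D.H ∧ D.pos X Y = i + 1 ∧ D.bdN X Y = true := by
  unfold Data.ptOk at h
  simp only [Bool.and_eq_true] at h
  obtain ⟨⟨⟨⟨⟨h1, h2⟩, h3⟩, h4⟩, h5⟩, h6⟩ := h
  exact ⟨ble_le h1, ble_le h2, blt_lt h3, blt_lt h4, beq_eq h5, h6⟩

theorem curve_sound (hN : 1 ≤ D.N) (hbox : D.chkBox = true) (hpath : D.chkPath = true)
    (hbd : D.chkBd = true) :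
    ∃ γ : Circle → Plane, Continuous γ ∧ Function.Injective γ ∧
      Set.range γ = frontier (region D.S) := by
  unfold Data.chkPath at hpath
  simp only [Bool.and_eq_true] at hpath
  obtain ⟨⟨hp1, hp2⟩, hp3⟩ := hpath
  have hp1 := beq_eq hp1
  have hp2 := beq_eq hp2
  rw [allLt_iff] at hp3
  simp only [Bool.and_eq_true] at hp3
  have hpt : ∀ i, i < 2 * D.N → D.ptOk (D.px (i / 2) + D.px ((i + 1) / 2))
      (D.py (i / 2) + D.py ((i + 1) / 2)) i = true := by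
    intro i hi
    rcases Nat.even_or_odd' i with ⟨j, hj | hj⟩
    · have e1 : i / 2 = j := by omega
      have e2 : (i + 1) / 2 = j := by omega
      rw [e1, e2, hj, ← two_mul, ← two_mul]
      exact (hp3 j (by omega)).1.2
    · have e1 : i / 2 = j := by omega
      have e2 : (i + 1) / 2 = j + 1 := by omega
      rw [e1, e2, hj]
      exact (hp3 j (by omega)).2
  apply exists_boundary_curve D.S D.N hN (fun i => ((D.px i : ℤ), (D.py i : ℤ)))
  · rw [hp1, hp2]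
  · intro i hi
    have := (hp3 i hi).1.1
    unfold stepN at this
    simp only [Bool.or_eq_true, Bool.and_eq_true] at this
    unfold UnitStep
    simp only
    rcases this with ⟨h1, h2 | h2⟩ | ⟨h1, h2 | h2⟩ <;>
    · have h1 := beq_eq h1
      have h2 := beq_eq h2
      omega
  · intro i hi j hj hij
    simp only [Prod.mk_add_mk, Prod.mk.injEq] at hij
    have h1 : D.px (i / 2) + D.px ((i + 1) / 2) = D.px (j / 2) + D.px ((j + 1) / 2) := by
      exact_mod_cast hij.1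
    have h2 : D.py (i / 2) + D.py ((i + 1) / 2) = D.py (j / 2) + D.py ((j + 1) / 2) := by
      exact_mod_cast hij.2
    have c1 := (ptOk_spec D _ _ _ (hpt i hi)).2.2.2.2.1
    have c2 := (ptOk_spec D _ _ _ (hpt j hj)).2.2.2.2.1
    rw [h1, h2, c2] at c1
    omega
  · intro i hi
    obtain ⟨a1, a2, a3, a4, a5, a6⟩ := ptOk_spec D _ _ _ (hpt i hi)
    have := (bdN_iff D _ _ a1 a3 a2 a4).2 a6
    simp only [Prod.mk_add_mk]
    push_cast at this
    exact this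
  · intro X hX
    obtain ⟨⟨c, hc, hn⟩, _⟩ := id hX
    obtain ⟨p, q, rfl, p1, p2, q1, q2⟩ := near_bounds D hbox _ X hc hn
    have hb := (bdN_iff D p q p1 p2 q1 q2).1 hX
    unfold Data.chkBd at hbd
    rw [allLt_iff] at hbd
    have h1 := hbd p p2
    rw [allLt_iff] at h1
    have h2 := imp_of (h1 q q2) hb
    simp only [Bool.and_eq_true] at h2
    obtain ⟨⟨⟨k1, k2⟩, k3⟩, k4⟩ := h2
    have k1 := ble_le k1
    have k2 := ble_le k2
    have k3 := beq_eq k3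
    have k4 := beq_eq k4
    refine ⟨D.pos p q - 1, by omega, ?_⟩
    have e : (D.pos p q - 1 + 1) = D.pos p q := by omega
    rw [e]
    simp only [Prod.mk_add_mk, Prod.mk.injEq]
    constructor
    · exact_mod_cast k3
    · exact_mod_cast k4

theorem conn_sound (hbox : D.chkBox = true) (hconn : D.chkConn = true) :
    ∀ c ∈ D.S, ∀ d ∈ D.S,
      Relation.ReflTransGen (fun a b => a ∈ D.S ∧ b ∈ D.S ∧ EdgeAdj a b) c d := by
  have hroot : ∀ n x y : ℕ, D.ord x y ≤ n → x < D.W → y < D.H → D.inS x y = true →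
      ∃ u v : ℕ, u < D.W ∧ v < D.H ∧ D.inS u v = true ∧ u + D.W * v = D.root ∧
      Relation.ReflTransGen (fun a b => a ∈ D.S ∧ b ∈ D.S ∧ EdgeAdj a b)
        ((x : ℤ), (y : ℤ)) ((u : ℤ), (v : ℤ)) := by
    intro n
    induction n with
    | zero =>
      intro x y hord hx hy hS
      unfold Data.chkConn at hconn
      rw [allLt_iff] at hconn
      have h1 := hconn x hx
      rw [allLt_iff] at h1
      have h2 := imp_of (h1 y hy) hS
      unfold Data.less at h2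
      have h0 : D.ord x y = 0 := by omega
      rw [h0] at h2
      simp only [Bool.or_eq_true, Bool.and_eq_true] at h2
      rcases h2 with (((h | h) | h) | h) | h
      · exact ⟨x, y, hx, hy, hS, beq_eq h, Relation.ReflTransGen.refl⟩
      · have := blt_lt h.2; omega
      · have := blt_lt h.2; omega
      · have := blt_lt h.2; omega
      · have := blt_lt h.2; omega
    | succ n ih =>
      intro x y hord hx hy hS
      have hconn' := hconn
      unfold Data.chkConn at hconn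
      rw [allLt_iff] at hconn
      have h1 := hconn x hx
      rw [allLt_iff] at h1
      have h2 := imp_of (h1 y hy) hS
      unfold Data.less at h2
      simp only [Bool.or_eq_true, Bool.and_eq_true] at h2
      obtain ⟨b1, b2, b3, b4⟩ := chkBox_spec D hbox x y hx hy hS
      have step : ∀ x' y' : ℕ, x' < D.W → y' < D.H → D.inS x' y' = true → D.ord x' y' < D.ord x y →
          EdgeAdj ((x : ℤ), (y : ℤ)) ((x' : ℤ), (y' : ℤ)) →
          ∃ u v : ℕ, u < D.W ∧ v < D.H ∧ D.inS u v = true ∧ u + D.W * v = D.root ∧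
            Relation.ReflTransGen (fun a b => a ∈ D.S ∧ b ∈ D.S ∧ EdgeAdj a b)
              ((x : ℤ), (y : ℤ)) ((u : ℤ), (v : ℤ)) := by
        intro x' y' hx' hy' hS' ho hadj
        obtain ⟨u, v, h1, h2, h3, h4, h5⟩ := ih x' y' (by omega) hx' hy' hS'
        refine ⟨u, v, h1, h2, h3, h4, Relation.ReflTransGen.head ?_ h5⟩
        exact ⟨(D.mem_S_nat x y hx hy).2 hS, (D.mem_S_nat x' y' hx' hy').2 hS', hadj⟩
      rcases h2 with (((h | h) | h) | h) | h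
      · exact ⟨x, y, hx, hy, hS, beq_eq h, Relation.ReflTransGen.refl⟩
      · refine step (x + 1) y (by omega) hy h.1 (blt_lt h.2) ?_
        exact Or.inl ⟨rfl, Or.inl (by push_cast; ring)⟩
      · refine step (x - 1) y (by omega) hy h.1 (blt_lt h.2) ?_
        exact Or.inl ⟨rfl, Or.inr (by simp only; omega)⟩
      · refine step x (y + 1) hx (by omega) h.1 (blt_lt h.2) ?_
        exact Or.inr ⟨rfl, Or.inl (by push_cast; ring)⟩
      · refine step x (y - 1) hx (by omega) h.1 (blt_lt h.2) ?_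
        exact Or.inr ⟨rfl, Or.inr (by simp only; omega)⟩
  intro c hc d hd
  rw [D.mem_S] at hc hd
  obtain ⟨x, y, hx, hy, hS, rfl⟩ := hc
  obtain ⟨x', y', hx', hy', hS', rfl⟩ := hd
  obtain ⟨u, v, h1, h2, h3, h4, h5⟩ := hroot _ x y le_rfl hx hy hS
  obtain ⟨u', v', h1', h2', h3', h4', h5'⟩ := hroot _ x' y' le_rfl hx' hy' hS'
  obtain ⟨e1, e2⟩ := idx_inj D.W u v u' v' h1 h1' (by rw [h4, h4'])
  subst e1 e2
  refine h5.trans ?_
  have hsymm : ∀ a b, Relation.ReflTransGen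
      (fun a b => a ∈ D.S ∧ b ∈ D.S ∧ EdgeAdj a b) a b → Relation.ReflTransGen
      (fun a b => a ∈ D.S ∧ b ∈ D.S ∧ EdgeAdj a b) b a := by
    intro a b hab
    induction hab with
    | refl => exact Relation.ReflTransGen.refl
    | tail _ h ih =>
      refine Relation.ReflTransGen.head ?_ ih
      obtain ⟨ha, hb, hab⟩ := h
      refine ⟨hb, ha, ?_⟩
      unfold EdgeAdj at *
      omega
  exact hsymm _ _ h5'

theorem piece_spec (hp : D.chkPieces = true) :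
    D.place.length = D.k ∧
    (∀ i, i < D.k → ∀ c ∈ D.piece i, ∃ x y : ℕ, x < D.W ∧ y < D.H ∧ c = ((x : ℤ), (y : ℤ)) ∧
      D.pc x y = i + 1) ∧
    (∀ x y : ℕ, x < D.W → y < D.H → D.inS x y = true → D.pc x y ≤ D.k ∧
      ((x : ℤ), (y : ℤ)) ∈ D.piece (D.pc x y - 1)) := by
  unfold Data.chkPieces at hp
  simp only [Bool.and_eq_true] at hp
  obtain ⟨⟨h1, h2⟩, h3⟩ := hp
  refine ⟨beq_eq h1, ?_, ?_⟩
  · intro i hi c hc
    rw [allLt_iff] at h2
    have := h2 i hi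
    rw [List.all_eq_true] at this
    have := this c hc
    simp only [Bool.and_eq_true, decide_eq_true_eq] at this
    obtain ⟨⟨⟨⟨k1, k2⟩, k3⟩, k4⟩, k5⟩ := this
    refine ⟨c.1.toNat, c.2.toNat, blt_lt k3, blt_lt k4, ?_, beq_eq k5⟩
    ext
    · simp only; omega
    · simp only; omega
  · intro x y hx hy hS
    rw [allLt_iff] at h3
    have := h3 x hx
    rw [allLt_iff] at this
    have := imp_of (this y hy) hS
    rw [Bool.and_eq_true, List.any_eq_true] at this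
    obtain ⟨k1, c, hc, k2⟩ := this
    refine ⟨ble_le k1, ?_⟩
    unfold eqb at k2
    simp only [Bool.and_eq_true, decide_eq_true_eq] at k2
    have : c = ((x : ℤ), (y : ℤ)) := Prod.ext k2.1 k2.2
    rw [← this]; exact hc

theorem Data.sound (h : D.check = true) :
    IsPolyomino D.S ∧ IsCubeNet D.S ∧
    ∃ Q : Fin D.k → Finset (ℤ × ℤ),
      (∀ i j, i ≠ j → Disjoint (Q i) (Q j)) ∧ Finset.univ.biUnion Q = D.S ∧
      ∀ i, Rel D.base.toFinset (Q i) := by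
  unfold Data.check at h
  simp only [Bool.and_eq_true] at h
  obtain ⟨⟨⟨⟨⟨⟨⟨⟨⟨⟨⟨ha, ha'⟩, hN⟩, hW⟩, hbox⟩, hlab⟩, hinj⟩, honto⟩, hpath⟩, hbd⟩, hconn⟩,
    hpieces⟩ := h
  have ha := ble_le ha
  have ha' := ble_le ha'
  have hN := ble_le hN
  have hW := ble_le hW
  obtain ⟨hlen, hpc, hcov⟩ := piece_spec D hpieces
  have hfold := folding_sound D ha ha' hW hbox hlab hinj honto
  have hS : D.S.Nonempty := by
    -- the folding covers the surface, so the figure is not empty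
    by_contra hne
    rw [Finset.not_nonempty_iff_eq_empty] at hne
    have h2 := hfold.2.1
    rw [hne] at h2
    unfold region at h2
    simp only [Finset.notMem_empty, Set.iUnion_of_empty, Set.iUnion_empty, Set.image_empty] at h2
    have : (WithLp.toLp 2 (fun _ => (0 : ℝ)) : Space) ∈ cubeSurface (D.a : ℝ) := by
      refine ⟨fun i => ⟨le_rfl, ?_⟩, 0, Or.inl rfl⟩
      exact Nat.cast_nonneg _
    rw [← h2] at this
    exact this
  refine ⟨⟨hS, conn_sound D hbox hconn, curve_sound D hN hbox hpath hbd⟩,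
    ⟨D.a, by exact_mod_cast ha, _, hfold⟩, fun i => (D.piece i).toFinset, ?_, ?_, ?_⟩
  · intro i j hij
    rw [Finset.disjoint_left]
    intro c hc hc'
    rw [List.mem_toFinset] at hc hc'
    obtain ⟨x, y, hx, hy, e, hp⟩ := hpc i i.2 c hc
    obtain ⟨x', y', hx', hy', e', hp'⟩ := hpc j j.2 c hc'
    rw [e, Prod.mk.injEq] at e'
    have e1 : x = x' := by exact_mod_cast e'.1
    have e2 : y = y' := by exact_mod_cast e'.2
    subst e1 e2
    apply hij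
    apply Fin.ext
    omega
  · ext c
    simp only [Finset.mem_biUnion, Finset.mem_univ, true_and, List.mem_toFinset]
    rw [D.mem_S]
    constructor
    · rintro ⟨i, hi⟩
      obtain ⟨x, y, hx, hy, e, hp⟩ := hpc i i.2 c hi
      refine ⟨x, y, hx, hy, ?_, e⟩
      unfold Data.inS
      rw [hp]
      apply Nat.ble_eq_true_of_le
      omega
    · rintro ⟨x, y, hx, hy, hS, rfl⟩
      obtain ⟨k1, k2⟩ := hcov x y hx hy hS
      have k3 : 1 ≤ D.pc x y := ble_le hS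
      exact ⟨⟨D.pc x y - 1, by omega⟩, k2⟩
  · intro i
    have hi : (i : ℕ) < D.place.length := by rw [hlen]; exact i.2
    have : D.piece i = D.base.map (fun c => act (D.place[(i : ℕ)]).1 c + (D.place[(i : ℕ)]).2) := by
      unfold Data.piece
      rw [List.getElem?_eq_getElem hi]
    apply rel_of_act D.base.toFinset (D.piece i).toFinset (D.place[(i : ℕ)]).1
      (D.place[(i : ℕ)]).2
    rw [this]
    ext c
    simp

theorem no_two_flat (u v : Fin 3 → ℤ) (su : u 0 ^ 2 + u 1 ^ 2 + u 2 ^ 2 = 1)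
    (sv : v 0 ^ 2 + v 1 ^ 2 + v 2 ^ 2 = 1) (huv : ∀ l, u l = 0 ∨ v l = 0) (j l : Fin 3)
    (hj : j ≠ l) (uj : u j = 0) (vj : v j = 0) (ul : u l = 0) (vl : v l = 0) : False := by
  have hAll : ∀ k : Fin 3, k ≠ j → k ≠ l → (∀ w : Fin 3 → ℤ, w j = 0 → w l = 0 →
      w 0 ^ 2 + w 1 ^ 2 + w 2 ^ 2 = 1 → w k ^ 2 = 1) := by
    intro k hkj hkl w wj wl hw
    fin_cases k <;> fin_cases j <;> fin_cases l <;>
    first
    | exact absurd rfl hj
    | exact absurd rfl hkj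
    | exact absurd rfl hkl
    | (simp only [Fin.zero_eta, Fin.mk_one, Fin.reduceFinMk, Fin.isValue] at wj wl ⊢
       rw [wj, wl] at hw
       linarith)
  have hk : ∃ k : Fin 3, k ≠ j ∧ k ≠ l := by
    fin_cases j <;> fin_cases l <;>
    first
    | exact ⟨0, by decide, by decide⟩
    | exact ⟨1, by decide, by decide⟩
    | exact ⟨2, by decide, by decide⟩
  obtain ⟨k, hk1, hk2⟩ := hk
  have e1 := hAll k hk1 hk2 u uj ul su
  have e2 := hAll k hk1 hk2 v vj vl sv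
  rcases huv k with h | h
  · rw [h] at e1; norm_num at e1
  · rw [h] at e2; norm_num at e2

/-- A certificate for a cube of edge one shows that the figure is an edge net. -/
theorem Data.sound_one (h : D.check = true) (ha1 : D.a = 1) (hcard : D.S.card = 6) :
    IsEdgeNet D.S := by
  have hpoly := (Data.sound D h).1
  unfold Data.check at h
  simp only [Bool.and_eq_true] at h
  obtain ⟨⟨⟨⟨⟨⟨⟨⟨⟨⟨⟨ha, ha'⟩, hN⟩, hW⟩, hbox⟩, hlab⟩, hinj⟩, honto⟩, hpath⟩, hbd⟩, hconn⟩,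
    hpieces⟩ := h
  have ha := ble_le ha
  have ha' := ble_le ha'
  have hW := ble_le hW
  have hfold := folding_sound D ha ha' hW hbox hlab hinj honto
  rw [ha1, Nat.cast_one] at hfold
  refine ⟨hpoly, hcard, foldMap D.psi, hfold, ?_⟩
  intro c hc
  rw [D.mem_S] at hc
  obtain ⟨x, y, hx, hy, hS, rfl⟩ := hc
  obtain ⟨g, gb, l, hl, hl1, hl2⟩ := goodLab_sound _ _ _ _ _ (chkLab_spec D hlab x y hx hy hS)
  obtain ⟨e1, e2, e3, e4⟩ := psi_four D x y
  rw [← e1, ← e2, ← e3, ← e4] at g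
  refine ⟨foldMap_isometry_on_cell D.psi ((x : ℤ), (y : ℤ)) g, l, (D.psi ((x : ℤ), (y : ℤ)) l : ℤ),
    ?_, ?_⟩
  · rw [e1]
    rcases hl with h | h
    · left; simp only; rw [h]; simp
    · right; simp only; rw [h, ha1]; simp
  · have hB : D.psi ((x : ℤ) + 1, (y : ℤ)) l = D.psi ((x : ℤ), (y : ℤ)) l := by
      rw [e1, e2]; simp only; rw [hl1]
    have hE : D.psi ((x : ℤ), (y : ℤ) + 1) l = D.psi ((x : ℤ), (y : ℤ)) l := by
      rw [e1, e3]; simp only; rw [hl2]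
    have hbds : ∀ j : Fin 3, 0 ≤ D.psi ((x : ℤ), (y : ℤ)) j ∧ D.psi ((x : ℤ), (y : ℤ)) j ≤ 1 ∧
        0 ≤ D.psi ((x : ℤ) + 1, (y : ℤ)) j ∧ D.psi ((x : ℤ) + 1, (y : ℤ)) j ≤ 1 ∧
        0 ≤ D.psi ((x : ℤ), (y : ℤ) + 1) j ∧ D.psi ((x : ℤ), (y : ℤ) + 1) j ≤ 1 ∧
        0 ≤ D.psi ((x : ℤ) + 1, (y : ℤ) + 1) j ∧ D.psi ((x : ℤ) + 1, (y : ℤ) + 1) j ≤ 1 := by
      intro j
      obtain ⟨b1, b2, b3, b4⟩ := gb j
      rw [ha1] at b1 b2 b3 b4
      rw [e1, e2, e3, e4]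
      simp only
      refine ⟨by positivity, by exact_mod_cast b1, by positivity, by exact_mod_cast b2,
        by positivity, by exact_mod_cast b3, by positivity, by exact_mod_cast b4⟩
    apply Set.Subset.antisymm
    · rintro z ⟨p, hp, rfl⟩
      have hp' : p ∈ region D.S := by
        rw [mem_region_iff]
        exact ⟨_, (D.mem_S_nat x y hx hy).2 hS, (mem_cell_iff _ _).1 hp⟩
      have hz : foldMap D.psi p ∈ cubeSurface 1 := by
        rw [← hfold.2.1]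
        exact ⟨p, hp', rfl⟩
      refine ⟨hz.1, ?_⟩
      rw [foldMap_on_cell D.psi ((x : ℤ), (y : ℤ)) p hp g.par l]
      simp only
      rw [hB, hE]
      push_cast
      ring
    · intro z hz
      obtain ⟨hz1, hz2⟩ := hz
      obtain ⟨p, hp, hpz⟩ := cell_onto D.psi ((x : ℤ), (y : ℤ)) g
        (fun j => 2 * D.psi ((x : ℤ), (y : ℤ)) j +
          (D.psi ((x : ℤ) + 1, (y : ℤ)) j - D.psi ((x : ℤ), (y : ℤ)) j) +
          (D.psi ((x : ℤ), (y : ℤ) + 1) j - D.psi ((x : ℤ), (y : ℤ)) j)) l hB hE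
        (fun j => rfl) z hz2 (by
          intro j hj
          have hone : 2 * D.psi ((x : ℤ), (y : ℤ)) j +
              (D.psi ((x : ℤ) + 1, (y : ℤ)) j - D.psi ((x : ℤ), (y : ℤ)) j) +
              (D.psi ((x : ℤ), (y : ℤ) + 1) j - D.psi ((x : ℤ), (y : ℤ)) j) = 1 := by
            -- exactly one of the two edge directions is the coordinate direction j
            have huj := g.hu j
            have hvj := g.hv j
            have huvj := g.huv j
            have hbj := hbds j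
            have hne : ¬ (D.psi ((x : ℤ) + 1, (y : ℤ)) j - D.psi ((x : ℤ), (y : ℤ)) j = 0 ∧
                D.psi ((x : ℤ), (y : ℤ) + 1) j - D.psi ((x : ℤ), (y : ℤ)) j = 0) := by
              rintro ⟨z1, z2⟩
              have zl1 : D.psi ((x : ℤ) + 1, (y : ℤ)) l - D.psi ((x : ℤ), (y : ℤ)) l = 0 := by
                rw [hB]; ring
              have zl2 : D.psi ((x : ℤ), (y : ℤ) + 1) l - D.psi ((x : ℤ), (y : ℤ)) l = 0 := by
                rw [hE]; ring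
              exact no_two_flat (fun i => D.psi ((x : ℤ) + 1, (y : ℤ)) i - D.psi ((x : ℤ), (y : ℤ)) i)
                (fun i => D.psi ((x : ℤ), (y : ℤ) + 1) i - D.psi ((x : ℤ), (y : ℤ)) i)
                g.su g.sv g.huv j l hj z1 z2 zl1 zl2
            omega
          rw [hone]
          have := hz1 j
          push_cast
          constructor
          · linarith [this.1]
          · linarith [this.2])
      exact ⟨p, hp, hpz⟩

end Pool.Agent.Helper72.RepCube
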